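import Pool.Agent.J6H35.TL.DfnK
import Pool.Agent.J6H59.AD.D6

/-!
# From one Lagrangian to all Lagrangians which are mechanical near infinity; generic velocity growth in `C^k`
(adapted from `J6H59/AD/D5.lean`, `D6.lean` of helper59)
-/

set_option autoImplicit false

open Filter Topology Set
open scoped ContDiff

noncomputable section

namespace Pool.Agent.J6H35.TL

open Pool.Agent.N980.TL Pool.Agent.J6H70.AD Pool.Agent.J6H59.AD

/-- the potentials with an orbit with `‖γ'(t)‖ ≥ c t^δ` are dense in `C^k` -/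
def DenseK (k r : ℕ) (δ : ℝ) : Prop :=
  ∀ (Vmin : ℝ) (f₀ : (Fin (r + 2) → ℝ) → ℝ → ℝ), PotK k f₀ → ∀ ε : ℝ, 0 < ε →
    ∃ (f : (Fin (r + 2) → ℝ) → ℝ → ℝ) (γ : ℝ → Fin (r + 2) → ℝ), PotK k f ∧ CloseK k ε f₀ f ∧
      (∃ c > 0, ∀ t, 0 ≤ t → c * t ^ δ ≤ ‖deriv γ t‖) ∧ (∀ t, 0 ≤ t → Vmin < ‖deriv γ t‖) ∧
      ∀ L : (Fin (r + 2) → ℝ) → (Fin (r + 2) → ℝ) → ℝ → ℝ,
        (∀ x v t, Vmin ≤ ‖v‖ → L x v t = (∑ i, v i ^ 2) / 2) →
        ∀ t, 0 < t → EulerLagrange (fun x v t => L x v t + f x t) γ t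

theorem PotK.toPot {n k : ℕ} (hk : 2 ≤ k) {f : (Fin n → ℝ) → ℝ → ℝ} (h : PotK k f) : Pot f :=
  ⟨h.1.of_le (by exact_mod_cast hk), h.2⟩

theorem CloseK.toClose {n k : ℕ} (hk : 2 ≤ k) {ε : ℝ} {f g : (Fin n → ℝ) → ℝ → ℝ} (h : CloseK k ε f g) :
    Close ε f g := fun i hi q => h i (hi.trans hk) q

theorem PotK.add' {n k : ℕ} {f g : (Fin n → ℝ) → ℝ → ℝ} (hf : PotK k f) (hg : PotK k g) :
    PotK k (fun x t => f x t + g x t) :=
  ⟨hf.1.add hg.1, fun x t k l => by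
    have e1 := hf.2 x t k l
    have e2 := hg.2 x t k l
    show f (fun i => x i + k i) (t + l) + g (fun i => x i + k i) (t + l) = _
    rw [e1, e2]⟩

theorem PotK.sub' {n k : ℕ} {f g : (Fin n → ℝ) → ℝ → ℝ} (hf : PotK k f) (hg : PotK k g) :
    PotK k (fun x t => f x t - g x t) :=
  ⟨hf.1.sub hg.1, fun x t k l => by
    have e1 := hf.2 x t k l
    have e2 := hg.2 x t k l
    show f (fun i => x i + k i) (t + l) - g (fun i => x i + k i) (t + l) = _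
    rw [e1, e2]⟩

theorem closeK_sub {n k : ℕ} {ε : ℝ} {f g U : (Fin n → ℝ) → ℝ → ℝ}
    (h : CloseK k ε (fun x t => f x t + U x t) g) : CloseK k ε f (fun x t => g x t - U x t) := by
  intro i hi q
  have := h i hi q
  have e : (fun q : (Fin n → ℝ) × ℝ => g q.1 q.2 - U q.1 q.2 - f q.1 q.2) =
      fun q : (Fin n → ℝ) × ℝ => g q.1 q.2 - (f q.1 q.2 + U q.1 q.2) := by
    funext q; ring
  show ‖iteratedFDeriv ℝ i (fun q : (Fin n → ℝ) × ℝ => g q.1 q.2 - U q.1 q.2 - f q.1 q.2) q‖ ≤ ε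
  rw [e]
  exact this

/-- all Lagrangians which are mechanical near infinity at once -/
theorem mech_of {k r : ℕ} (hk : 2 ≤ k) {δ : ℝ} (hδ : 0 < δ) (hD : DenseK k r δ)
    (U f₀ : (Fin (r + 2) → ℝ) → ℝ → ℝ) (hU : PotK k U) (hf₀ : PotK k f₀) (ε : ℝ) (hε : 0 < ε) :
    ∃ f : (Fin (r + 2) → ℝ) → ℝ → ℝ, PotK k f ∧ CloseK k ε f₀ f ∧
      ∀ L : (Fin (r + 2) → ℝ) → (Fin (r + 2) → ℝ) → ℝ → ℝ, MechInf U L →
        ∃ γ : ℝ → Fin (r + 2) → ℝ, (∃ c > 0, ∀ t, 0 ≤ t → c * t ^ δ ≤ ‖deriv γ t‖) ∧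
          ∀ t, 0 < t → EulerLagrange (fun x v t => L x v t + f x t) γ t := by
  obtain ⟨g, γ, hgK, g3, ⟨c, hc, g4⟩, -, g5⟩ := hD 0 _ (hf₀.add' hU) ε hε
  have hg : Pot g := hgK.toPot hk
  refine ⟨fun x t => g x t - U x t, hgK.sub' hU, closeK_sub g3, fun L hL => ?_⟩
  obtain ⟨R, hR⟩ := hL
  have hE : ∀ t, 0 < t → HasDerivAt γ (deriv γ t) t ∧ HasDerivAt (deriv γ) (gr g (γ t) t) t := fun t ht =>
    (el_all (r + 2) g hg.1).1 γ t (g5 (fun _ v _ => (∑ i, v i ^ 2) / 2) (fun _ _ _ _ => rfl) t ht)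
  have ht : Tendsto (fun t : ℝ => c * t ^ δ) atTop atTop :=
    (tendsto_rpow_atTop hδ).const_mul_atTop hc
  obtain ⟨T, hT⟩ := ((ht.comp tendsto_natCast_atTop_atTop).eventually_gt_atTop R).exists
  have hT' : R < c * (T : ℝ) ^ δ := hT
  have hder : ∀ t, deriv (fun s => γ (s + T)) t = deriv γ (t + T) := fun t =>
    deriv_comp_add_const (f := γ) (T : ℝ) t
  have hT0 : (0 : ℝ) ≤ T := by positivity
  refine ⟨fun t => γ (t + T), ⟨c, hc, fun t ht => ?_⟩, fun t ht => ?_⟩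
  · rw [hder]
    refine le_trans ?_ (g4 (t + T) (by positivity))
    exact mul_le_mul_of_nonneg_left (Real.rpow_le_rpow ht (by linarith) hδ.le) hc.le
  · have hfast : ∀ s : ℝ, 0 ≤ s → R < ‖deriv (fun s => γ (s + T)) s‖ := by
      intro s hs
      rw [hder]
      refine lt_of_lt_of_le hT' (le_trans ?_ (g4 (s + T) (by positivity)))
      exact mul_le_mul_of_nonneg_left (Real.rpow_le_rpow hT0 (by linarith) hδ.le) hc.le
    obtain ⟨d1, d2⟩ := hE (t + T) (by positivity)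
    have k1 : HasDerivAt (fun t => γ (t + T)) (deriv γ (t + T)) t := d1.comp_add_const t (T : ℝ)
    have e : (deriv fun t => γ (t + T)) = fun t => deriv γ (t + T) := funext hder
    have k2 : HasDerivAt (deriv fun t => γ (t + T)) (gr g (γ (t + T)) t) t := by
      rw [e, ← gr_periodic hg (γ (t + T)) t T]
      exact d2.comp_add_const t (T : ℝ)
    have key := el_fast (L := fun x v t => L x v t - U x t) (f := g) (γ := fun t => γ (t + T)) (t := t)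
      (a := gr g (γ (t + T)) t) (Vmin := R) (by
        intro x v t hv
        rw [hR x v t hv]; ring) (by
        filter_upwards [lt_mem_nhds ht] with s hs
        exact hfast s (le_of_lt hs)) k1.differentiableAt k2
      (fun i => gr_hasDerivAt hg.1 (γ (t + T)) t i)
    have e2 : (fun (x v : Fin (r + 2) → ℝ) (t : ℝ) => L x v t + (g x t - U x t)) =
        fun x v t => L x v t - U x t + g x t := by
      funext x v t; ring
    rw [e2]
    exact key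

/-- the potentials with an orbit segment with velocity larger than `m` which ends with velocity
larger than `φ` of the velocity at the start -/
def GsK (k r : ℕ) (φ : ℝ → ℝ) (m : ℕ) : Set ((Fin (r + 2) → ℝ) → ℝ → ℝ) :=
  {f | PotK k f ∧ f ∈ Gs r φ m}

theorem openDenseK {k r : ℕ} (hk : 2 ≤ k) {δ : ℝ} (hδ : 0 < δ) (hD : DenseK k r δ) (hBL : S_BL) (hEX : S_EX)
    (hGR : S_GR) (φ : ℝ → ℝ) (m : ℕ) : OpenDenseK k (GsK k r φ m) := by
  constructor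
  · rintro f ⟨hfK, hf, γ, t0, t1, h01, hE, ⟨μ0, hμ0, hm⟩, hφ⟩
    refine ⟨hfK, ?_⟩
    obtain ⟨B, L, hB, hL, b1, b2, b3⟩ := hBL (r + 2) f hf.1 hf.2
    set μ : ℝ := min μ0 (‖deriv γ t1‖ - φ ‖deriv γ t0‖) with hμ
    have hμp : 0 < μ := lt_min hμ0 (by linarith)
    have hμ1 : μ ≤ μ0 := min_le_left _ _
    have hμ2 : μ ≤ ‖deriv γ t1‖ - φ ‖deriv γ t0‖ := min_le_right _ _
    set X : ℝ := Real.exp ((L + 1) * (t1 - t0)) with hX
    have hX0 : 0 < X := Real.exp_pos _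
    refine ⟨μ / (2 * X), by positivity, fun g hgK hfgK => ⟨hgK, hgK.toPot hk, ?_⟩⟩
    have hg := hgK.toPot hk
    have hfg := hfgK.toClose hk
    obtain ⟨B', L', hB', hL', b1', b2', b3'⟩ := hBL (r + 2) g hg.1 hg.2
    obtain ⟨x, v, hx0, hv0, hxv⟩ := hEX (r + 2) (gr g) B' L' hB' hL' b3' b1' b2' t0 t1 (γ t0) (deriv γ t0) h01
    have hη0 : (0 : ℝ) ≤ μ / (2 * X) := by positivity
    have hIcc : ∀ t ∈ Icc t0 t1, t ∈ Ioo (t0 - 1) (t1 + 1) := fun t ht => ⟨by linarith [ht.1], by linarith [ht.2]⟩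
    have hdist : ∀ t ∈ Icc t0 t1, ‖deriv γ t - v t‖ ≤ μ / 2 := by
      intro t ht
      rcases ht.1.eq_or_lt with h | h
      · rw [← h, hv0, sub_self, norm_zero]; positivity
      · have h1 := hGR (r + 2) (gr f) (gr g) L (μ / (2 * X)) hL hη0 b2
          (fun x t => gr_sub_le hf hg hη0 hfg x t) t0 t γ (deriv γ) x v h hx0.symm hv0.symm
          (fun s hs => (el_all (r + 2) f hf.1).1 γ s (hE s ⟨hs.1, hs.2.trans ht.2⟩))
          (fun s hs => hxv s (hIcc s ⟨hs.1, hs.2.trans ht.2⟩))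
        have h2 : Real.exp ((L + 1) * (t - t0)) ≤ X := by
          rw [hX]
          refine Real.exp_le_exp.2 (mul_le_mul_of_nonneg_left (by linarith [ht.2]) (by linarith))
        have e : μ / (2 * X) * X = μ / 2 := by field_simp
        rw [← e]
        exact h1.trans (mul_le_mul_of_nonneg_left h2 hη0)
    have hlow : ∀ t ∈ Icc t0 t1, ‖deriv γ t‖ - μ / 2 ≤ ‖v t‖ := by
      intro t ht
      have h3 : ‖deriv γ t‖ ≤ ‖v t‖ + ‖deriv γ t - v t‖ := by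
        have := norm_add_le (v t) (deriv γ t - v t)
        rwa [add_sub_cancel] at this
      linarith [hdist t ht]
    have hdx : ∀ t ∈ Icc t0 t1, deriv x t = v t := fun t ht => (hxv t (hIcc t ht)).1.deriv
    have h0m : t0 ∈ Icc t0 t1 := ⟨le_rfl, h01.le⟩
    have h1m : t1 ∈ Icc t0 t1 := ⟨h01.le, le_rfl⟩
    refine ⟨x, t0, t1, h01, fun t ht => ?_, ⟨μ / 2, by positivity, fun t ht => ?_⟩, ?_⟩
    · refine (el_all (r + 2) g hg.1).2 x v t ?_ (hxv t (hIcc t ht)).2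
      filter_upwards [Ioo_mem_nhds (hIcc t ht).1 (hIcc t ht).2] with s hs using (hxv s hs).1
    · rw [hdx t ht]
      linarith [hlow t ht, hm t ht]
    · rw [hdx t0 h0m, hv0, hdx t1 h1m]
      linarith [hlow t1 h1m]
  · intro f hf ε hε
    obtain ⟨g, γ, g1, g3, ⟨c, hc, g4⟩, -, g5⟩ := hD 0 f hf ε hε
    have ht : Tendsto (fun t : ℝ => c * t ^ δ) atTop atTop :=
      (tendsto_rpow_atTop hδ).const_mul_atTop hc
    obtain ⟨t0, h0, h1⟩ := ((ht.eventually_ge_atTop ((m : ℝ) + 1)).and (eventually_gt_atTop (0 : ℝ))).exists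
    obtain ⟨t1, h2, h3⟩ := ((ht.eventually_gt_atTop (φ ‖deriv γ t0‖)).and (eventually_gt_atTop t0)).exists
    refine ⟨g, ⟨g1, g1.toPot hk, γ, t0, t1, h3, fun t ht => g5 (fun _ v _ => (∑ i, v i ^ 2) / 2)
      (fun _ _ _ _ => rfl) t (h1.trans_le ht.1), ⟨1, one_pos, fun t ht => ?_⟩,
      h2.trans_le (g4 t1 (h1.trans h3).le)⟩, g3⟩
    refine (h0.trans ?_).trans (g4 t (h1.le.trans ht.1))
    exact mul_le_mul_of_nonneg_left (Real.rpow_le_rpow h1.le ht.1 hδ.le) hc.le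

/-- the orbit segments are orbits of every Lagrangian which is free for `‖v‖ ≥ K` -/
theorem growthK_free {k r : ℕ} (hk : 2 ≤ k) {δ : ℝ} (hδ : 0 < δ) (hD : DenseK k r δ) (hBL : S_BL) (hEX : S_EX)
    (hGR : S_GR) (φ : ℝ → ℝ) :
    ∃ O : ℕ → Set ((Fin (r + 2) → ℝ) → ℝ → ℝ), (∀ m, OpenDenseK k (O m)) ∧
      ∀ f, (∀ m, f ∈ O m) → ∀ K : ℝ, ∃ (γ : ℝ → Fin (r + 2) → ℝ) (t0 t1 : ℝ), t0 < t1 ∧
        (∀ L : (Fin (r + 2) → ℝ) → (Fin (r + 2) → ℝ) → ℝ → ℝ,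
          (∀ x v t, K ≤ ‖v‖ → L x v t = (∑ i, v i ^ 2) / 2) →
          ∀ t ∈ Icc t0 t1, EulerLagrange (fun x v t => L x v t + f x t) γ t) ∧
        (∀ t ∈ Icc t0 t1, K ≤ ‖deriv γ t‖) ∧ φ ‖deriv γ t0‖ < ‖deriv γ t1‖ := by
  refine ⟨GsK k r φ, fun m => openDenseK hk hδ hD hBL hEX hGR φ m, fun f hf K => ?_⟩
  obtain ⟨m, hm⟩ := exists_nat_ge K
  obtain ⟨-, hpot, γ, t0, t1, h1, h2, ⟨μ, hμ, h3⟩, h4⟩ := hf m
  refine ⟨γ, t0, t1, h1, fun L hL t ht => ?_, fun t ht => by linarith [h3 t ht], h4⟩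
  obtain ⟨d1, d2⟩ := (el_all (r + 2) f hpot.1).1 γ t (h2 t ht)
  have hev : ∀ᶠ s in 𝓝 t, K < ‖deriv γ s‖ := by
    refine (d2.continuousAt.norm).eventually_const_lt ?_
    linarith [h3 t ht]
  exact el_fast hL hev d1.differentiableAt d2 fun i => gr_hasDerivAt hpot.1 (γ t) t i

theorem growth_of {k r : ℕ} (hk : 2 ≤ k) {δ : ℝ} (hδ : 0 < δ) (hD : DenseK k r δ) (hBL : S_BL) (hEX : S_EX)
    (hGR : S_GR) (U : (Fin (r + 2) → ℝ) → ℝ → ℝ) (hU : PotK k U) (φ : ℝ → ℝ) :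
    ∃ O : ℕ → Set ((Fin (r + 2) → ℝ) → ℝ → ℝ), (∀ m, OpenDenseK k (O m)) ∧
      ∀ f, (∀ m, f ∈ O m) →
        ∀ L : (Fin (r + 2) → ℝ) → (Fin (r + 2) → ℝ) → ℝ → ℝ, MechInf U L →
        ∀ K : ℝ, ∃ (γ : ℝ → Fin (r + 2) → ℝ) (t0 t1 : ℝ), t0 < t1 ∧
        (∀ t ∈ Icc t0 t1, EulerLagrange (fun x v t => L x v t + f x t) γ t) ∧
        (∀ t ∈ Icc t0 t1, K ≤ ‖deriv γ t‖) ∧ φ ‖deriv γ t0‖ < ‖deriv γ t1‖ := by
  obtain ⟨O, hO, hO2⟩ := growthK_free hk hδ hD hBL hEX hGR φ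
  refine ⟨fun m => {f | (fun x t => f x t + U x t) ∈ O m}, fun m => ⟨?_, ?_⟩, fun f hf L hL K => ?_⟩
  · intro f hf
    have hf' : (fun x t => f x t + U x t) ∈ O m := hf
    obtain ⟨p1, η, hη, p2⟩ := (hO m).1 _ hf'
    refine ⟨?_, η, hη, fun g hg hfg => ?_⟩
    · have := p1.sub' hU
      simpa using this
    · refine p2 _ (hg.add' hU) ?_
      intro i hi q
      have h1 := hfg i hi q
      have e : (fun q : (Fin (r + 2) → ℝ) × ℝ => g q.1 q.2 + U q.1 q.2 - (f q.1 q.2 + U q.1 q.2)) =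
          fun q : (Fin (r + 2) → ℝ) × ℝ => g q.1 q.2 - f q.1 q.2 := by
        funext q; ring
      show ‖iteratedFDeriv ℝ i
        (fun q : (Fin (r + 2) → ℝ) × ℝ => g q.1 q.2 + U q.1 q.2 - (f q.1 q.2 + U q.1 q.2)) q‖ ≤ η
      rw [e]
      exact h1
  · intro f hf ε hε
    obtain ⟨g, hg, hgf⟩ := (hO m).2 _ (hf.add' hU) ε hε
    refine ⟨fun x t => g x t - U x t, ?_, closeK_sub hgf⟩
    show (fun x t => g x t - U x t + U x t) ∈ O m
    have e : (fun (x : Fin (r + 2) → ℝ) (t : ℝ) => g x t - U x t + U x t) = g := by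
      funext x t; ring
    rw [e]
    exact hg
  · obtain ⟨R, hR⟩ := hL
    obtain ⟨γ, t0, t1, h1, h2, h3, h4⟩ := hO2 _ hf (max K R)
    refine ⟨γ, t0, t1, h1, fun t ht => ?_, fun t ht => (le_max_left _ _).trans (h3 t ht), h4⟩
    have key := h2 (fun x v t => L x v t - U x t) (by
      intro x v t hv
      rw [hR x v t ((le_max_right _ _).trans hv)]; ring) t ht
    have e2 : (fun (x v : Fin (r + 2) → ℝ) (t : ℝ) => L x v t - U x t + (f x t + U x t)) =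
        fun x v t => L x v t + f x t := by
      funext x v t; ring
    rw [e2] at key
    exact key

end Pool.Agent.J6H35.TL
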