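import Pool.Agent.J6H35.TL.Dense6
import Pool.Agent.J6H35.TL.FinK

/-!
# Density in `C^k` for `n ≥ k + 1`
-/

set_option autoImplicit false

namespace Pool.Agent.J6H35.TL

open Pool.Agent.N980.TL

theorem denseK_of {k r : ℕ} (hk : 2 ≤ k) (hkr : k ≤ r + 1) {δ : ℝ} (hδ0 : 0 < δ)
    (hδ : δ < (r + 2 - k) / ((r + 1) * (k + 1))) : DenseK k r δ := by
  intro Vmin f₀ hf₀ ε hε
  obtain ⟨f, γ, h1, h2, h3, h4, h5, h6⟩ := dense6 k r hk hkr δ hδ0 hδ Vmin f₀ hf₀.1 hf₀.2 ε hε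
  exact ⟨f, γ, ⟨h1, h2⟩, h3, h4, h5, h6⟩

end Pool.Agent.J6H35.TL
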