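import Pool.Agent.J6H35.TL.Main7
import Pool.Agent.J6H35.TL.AllA
import Pool.Agent.J6H59.AD.Fin
import Pool.Agent.J6H59.AD.D5

/-!
# Density in `C^k` for `2 ≤ k ≤ n`
-/

set_option autoImplicit false

open Set Filter Topology
open scoped ContDiff

namespace Pool.Agent.J6H35.TL

open Pool.Agent.N980.TL Pool.Agent.J6H70.AD

theorem DenseK.mono {k r : ℕ} {δ δ' : ℝ} (h0 : 0 < δ') (h : δ' ≤ δ) (hD : DenseK k r δ) : DenseK k r δ' := by
  intro Vmin f₀ hf₀ ε hε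
  obtain ⟨f, γ, h1, h2, ⟨c, hc, h3⟩, h4, h5⟩ := hD (max Vmin 1) f₀ hf₀ ε hε
  refine ⟨f, γ, h1, h2, ⟨min c 1, lt_min hc one_pos, fun t ht => ?_⟩,
    fun t ht => lt_of_le_of_lt (le_max_left _ _) (h4 t ht),
    fun L hL => h5 L fun x v t hv => hL x v t ((le_max_left _ _).trans hv)⟩
  rcases le_total t 1 with h' | h'
  · have e1 : t ^ δ' ≤ 1 := Real.rpow_le_one ht h' h0.le
    have e2 : 0 ≤ t ^ δ' := Real.rpow_nonneg ht _
    have e3 := h4 t ht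
    have e4 : (1 : ℝ) ≤ max Vmin 1 := le_max_right _ _
    have e5 : min c 1 ≤ 1 := min_le_right _ _
    have e6 : 0 < min c 1 := lt_min hc one_pos
    nlinarith
  · refine le_trans ?_ (h3 t ht)
    have e1 : t ^ δ' ≤ t ^ δ := Real.rpow_le_rpow_of_exponent_le h' h
    have e2 : 0 ≤ t ^ δ' := Real.rpow_nonneg ht _
    have e5 : min c 1 ≤ c := min_le_left _ _
    exact mul_le_mul e5 e1 e2 hc.le

theorem denseK_top {k r : ℕ} (hr : 1 ≤ r) (hkr : k ≤ r + 2) : DenseK k r (1 / (25 * (r + 1) ^ 2)) := by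
  obtain ⟨x, x', γ, τ, hpar⟩ := params7 r hr
  intro Vmin f₀ hf₀ ε hε
  obtain ⟨f, γ, h1, h2, h3, h4⟩ := dense_of (k := k) (r := r) (Q := fun γ f =>
      (∃ c > 0, ∀ t, 0 ≤ t → c * t ^ (1 / (25 * ((r : ℝ) + 1) ^ 2)) ≤ ‖deriv γ t‖) ∧
      (∀ t, 0 ≤ t → Vmin < ‖deriv γ t‖) ∧
      ∀ L : (Fin (r + 2) → ℝ) → (Fin (r + 2) → ℝ) → ℝ → ℝ,
        (∀ x v t, Vmin ≤ ‖v‖ → L x v t = (∑ i, v i ^ 2) / 2) →
        ∀ t, 0 < t → EulerLagrange (fun x v t => L x v t + f x t) γ t)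
    (fun N0 D0 ε hε => by
      obtain ⟨F, γ, g1, g2, g3, g4⟩ := main7 fn_all (bnd6_all fn_all) per3_all sum_all nrm_all lam_all uu_all
        dio_all avg6_all (Gam6.gam6_all fn_all cls_all) (Pool.Agent.J6H75.AD.col5_all fn_all) (r + 2) r rfl hpar
        N0 D0 ε hε Vmin
      exact ⟨F, γ, g1.of_le (by exact_mod_cast hkr), g2, fun i hi q => g3 i (hi.trans hkr) q, g4⟩)
    f₀ hf₀.1 hf₀.2 ε hε
  exact ⟨f, γ, ⟨h1, h2⟩, h3, h4⟩

theorem denseK_two : DenseK 2 0 (1 / 25) := by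
  intro Vmin f₀ hf₀ ε hε
  obtain ⟨f, γ, h1, h2, h3, h4, h5, h6⟩ :=
    Pool.Agent.J6H59.AD.dense5 Pool.Agent.J6H59.AD.main5_all 0 f₀ hf₀.1 hf₀.2 ε hε Vmin
  exact ⟨f, γ, ⟨h1, h2⟩, h3, h4, h5, h6⟩

/-- density in `C^k` for `2 ≤ k ≤ n` -/
theorem denseK_all {k r : ℕ} (hk : 2 ≤ k) (hkr : k ≤ r + 2) {δ : ℝ} (hδ0 : 0 < δ)
    (hδ : δ < (r + 2 - k) / ((r + 1) * (k + 1)) ∨ δ ≤ 1 / (25 * (r + 1) ^ 2)) : DenseK k r δ := by
  rcases hδ with hδ | hδ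
  · refine denseK_of hk ?_ hδ0 hδ
    by_contra hc
    have hk' : k = r + 2 := by omega
    have e : (k : ℝ) = r + 2 := by rw [hk']; push_cast; ring
    rw [e, sub_self, zero_div] at hδ
    linarith
  · rcases Nat.eq_zero_or_pos r with hr | hr
    · subst hr
      obtain rfl : k = 2 := by omega
      refine denseK_two.mono hδ0 (hδ.trans ?_)
      norm_num
    · exact (denseK_top hr hkr).mono hδ0 hδ

end Pool.Agent.J6H35.TL
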