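import Pool.Agent.J6H35.TL.Lag7
import Pool.Agent.N980.TL.Sep

/-!
# The steps at which a collision is possible, and their number
-/

set_option autoImplicit false

open Set Filter Topology

noncomputable section

namespace Pool.Agent.J6H35.TL

open Pool.Agent.N980.TL

theorem poly_geom (m : ℕ) (q : ℝ) (h0 : 0 ≤ q) (h1 : q < 1) :
    Tendsto (fun l : ℕ => ((l : ℝ) + 4) ^ m * q ^ l) atTop (𝓝 0) := by
  rcases h0.eq_or_lt with h0 | h0
  · subst h0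
    refine tendsto_const_nhds.congr' ?_
    filter_upwards [eventually_ge_atTop 1] with l hl
    rw [zero_pow (by omega), mul_zero]
  have h2 := tendsto_pow_const_mul_const_pow_of_lt_one m h0.le h1
  have h3 := (h2.comp (tendsto_add_atTop_nat 4)).mul_const ((q ^ 4)⁻¹)
  rw [zero_mul] at h3
  refine h3.congr fun l => ?_
  simp only [Function.comp, pow_add]
  push_cast
  field_simp

theorem ev_le (m : ℕ) {A B : ℝ} (C : ℝ) (hA : 0 ≤ A) (hAB : A < B) :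
    ∀ᶠ l : ℕ in atTop, C * ((l : ℝ) + 4) ^ m * A ^ l ≤ B ^ l := by
  have hB : 0 < B := lt_of_le_of_lt hA hAB
  have hq0 : 0 ≤ A / B := by positivity
  have hq1 : A / B < 1 := by rwa [div_lt_one hB]
  have h1 : Tendsto (fun l : ℕ => C * (((l : ℝ) + 4) ^ m * (A / B) ^ l)) atTop (𝓝 0) := by
    have := (poly_geom m (A / B) hq0 hq1).const_mul C
    rwa [mul_zero] at this
  filter_upwards [h1.eventually_le_const one_pos] with l hl
  have hBl : 0 < B ^ l := by positivity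
  rw [div_pow] at hl
  have e : C * ((l : ℝ) + 4) ^ m * A ^ l = (C * (((l : ℝ) + 4) ^ m * (A ^ l / B ^ l))) * B ^ l := by
    field_simp
  rw [e]
  exact mul_le_of_le_one_left hBl.le hl

theorem ev_le0 {A B : ℝ} (C : ℝ) (hA : 0 ≤ A) (hAB : A < B) : ∀ᶠ l : ℕ in atTop, C * A ^ l ≤ B ^ l := by
  filter_upwards [ev_le 0 C hA hAB] with l hl
  simpa using hl

/-! ### the profile -/

theorem Vs_mono {a : ℝ} (ha : 0 < a) : Monotone (Vs a) :=
  monotone_nat_of_le_succ fun j => by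
    rw [Vs_succ]
    have : 0 < a ^ (Nat.log 2 j) := by positivity
    linarith

theorem Vs_diff (a : ℝ) (i g : ℕ) : Vs a (i + g) - Vs a i = ∑ t ∈ Finset.Ico i (i + g), a ^ (Nat.log 2 t) := by
  induction g with
  | zero => simp
  | succ g ih =>
    rw [show i + (g + 1) = i + g + 1 by ring, Vs_succ, Finset.sum_Ico_succ_top (by omega), ← ih]
    ring

theorem Vs_diff_bd {a : ℝ} (ha : 0 < a) (ha1 : a < 1) {i g l1 l2 : ℕ} (h1 : 2 ^ l1 ≤ i) (h2 : i + g ≤ 2 ^ (l2 + 1)) :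
    g * a ^ l2 ≤ Vs a (i + g) - Vs a i ∧ Vs a (i + g) - Vs a i ≤ g * a ^ l1 := by
  rw [Vs_diff]
  have hc : (Finset.Ico i (i + g)).card = g := by rw [Nat.card_Ico]; omega
  have key : ∀ t ∈ Finset.Ico i (i + g), a ^ l2 ≤ a ^ (Nat.log 2 t) ∧ a ^ (Nat.log 2 t) ≤ a ^ l1 := by
    intro t ht
    rw [Finset.mem_Ico] at ht
    have ht0 : t ≠ 0 := by
      have := Nat.one_le_two_pow (n := l1)
      omega
    have k1 : l1 ≤ Nat.log 2 t := (Nat.le_log_iff_pow_le (by norm_num) ht0).2 (by omega)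
    have k2 : Nat.log 2 t ≤ l2 := Nat.lt_succ_iff.1 (Nat.log_lt_of_lt_pow ht0 (by
      show t < 2 ^ (l2 + 1)
      omega))
    exact ⟨pow_le_pow_of_le_one ha.le ha1.le k2, pow_le_pow_of_le_one ha.le ha1.le k1⟩
  constructor
  · have := Finset.card_nsmul_le_sum (Finset.Ico i (i + g)) (fun t => a ^ (Nat.log 2 t)) (a ^ l2)
      fun t ht => (key t ht).1
    rwa [hc, nsmul_eq_mul] at this
  · have := Finset.sum_le_card_nsmul (Finset.Ico i (i + g)) (fun t => a ^ (Nat.log 2 t)) (a ^ l1)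
      fun t ht => (key t ht).2
    rwa [hc, nsmul_eq_mul] at this

theorem Vs_lo {a : ℝ} (ha : 0 < a) (ha1 : a < 1) {l j : ℕ} (hl : 1 ≤ l) (hj : 2 ^ l ≤ j) :
    (2 * a) ^ (l - 1) ≤ Vs a j := by
  obtain ⟨l', rfl⟩ : ∃ l', l = l' + 1 := ⟨l - 1, by omega⟩
  rw [Nat.add_sub_cancel]
  have e : 2 ^ l' + 2 ^ l' = 2 ^ (l' + 1) := by ring
  have h1 := (Vs_diff_bd ha ha1 (i := 2 ^ l') (g := 2 ^ l') (l1 := l') (l2 := l') le_rfl (le_of_eq e)).1
  rw [e] at h1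
  have h2 := Vs_mono ha hj
  have h3 : 0 ≤ Vs a (2 ^ l') := by
    unfold Vs
    positivity
  push_cast at h1
  rw [mul_pow]
  linarith

theorem Vs_hi {a : ℝ} (ha : 1 / 2 < a) (ha1 : a < 1) {l j : ℕ} (hj : j ≤ 2 ^ (l + 1)) :
    Vs a j ≤ (2 + 2 / (2 * a - 1)) * (2 * a) ^ l := by
  have ha0 : 0 < a := by linarith
  have h2a : 0 < 2 * a - 1 := by linarith
  have key : ∀ l : ℕ, Vs a (2 ^ l) ≤ 2 + (2 * a) ^ l / (2 * a - 1) := by
    intro l
    induction l with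
    | zero =>
      have : 0 < 1 / (2 * a - 1) := by positivity
      simp only [Vs, pow_zero, Finset.sum_range_one, Nat.log_zero_right]
      linarith
    | succ l ih =>
      have e : 2 ^ l + 2 ^ l = 2 ^ (l + 1) := by ring
      have h1 := (Vs_diff_bd ha0 ha1 (i := 2 ^ l) (g := 2 ^ l) (l1 := l) (l2 := l) le_rfl (le_of_eq e)).2
      rw [e] at h1
      push_cast at h1
      rw [← mul_pow] at h1
      have h2 : (2 * a) ^ (l + 1) / (2 * a - 1) = (2 * a) ^ l / (2 * a - 1) + (2 * a) ^ l := by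
        rw [pow_succ]
        field_simp
        ring
      linarith
  refine (Vs_mono ha0 hj).trans ((key (l + 1)).trans ?_)
  have h1 : 1 ≤ (2 * a) ^ l := one_le_pow₀ (by linarith)
  have h2 : (2 * a) ^ (l + 1) / (2 * a - 1) ≤ 2 / (2 * a - 1) * (2 * a) ^ l := by
    rw [pow_succ, div_mul_eq_mul_div, div_le_div_iff_of_pos_right h2a]
    nlinarith
  linarith

/-- the sum of the profile over `[i, i+g)` -/
def Sg (a : ℝ) (g i : ℕ) : ℝ := ∑ t ∈ Finset.range g, Vs a (i + t)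

theorem Sg_succ (a : ℝ) (g i : ℕ) : Sg a g (i + 1) - Sg a g i = Vs a (i + g) - Vs a i := by
  unfold Sg
  have h1 := Finset.sum_range_succ (fun t => Vs a (i + t)) g
  have h2 := Finset.sum_range_succ' (fun t => Vs a (i + t)) g
  have h3 : ∀ t, Vs a (i + 1 + t) = Vs a (i + (t + 1)) := fun t => by rw [show i + 1 + t = i + (t + 1) by ring]
  simp only [h3]
  simp only [add_zero] at h2
  linarith

/-! ### bad steps -/

/-- a collision between the steps `i` and `i + g` is possible -/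
def Coll {r : ℕ} (a ρ Γ κ0 : ℝ) (w : Fin r → ℝ) (g i : ℕ) : Prop :=
  1 ≤ g ∧ (g : ℝ) ≤ Γ ^ (Nat.log 2 i) ∧
    (∀ m, |Real.sin (Real.pi * (g * w m))| ≤ κ0 * ρ ^ (Nat.log 2 i)) ∧
    ∃ b : ℤ, |Sg a g i - b| ≤ 16 * (Γ * a) ^ (Nat.log 2 i)

/-- bad steps -/
def BadS {r : ℕ} (L0 : ℕ) (a ρ Γ κ0 : ℝ) (w : Fin r → ℝ) (j : ℕ) : Prop :=
  2 ^ L0 ≤ j ∧ ((∃ g, Coll a ρ Γ κ0 w g j) ∨ ∃ g i, j = i + g ∧ 2 ^ L0 ≤ i ∧ Coll a ρ Γ κ0 w g i)

open Classical in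
/-- the dangerous numbers of steps -/
def Dg {r : ℕ} (ρ Γ κ0 : ℝ) (w : Fin r → ℝ) (l : ℕ) : Finset ℕ :=
  (Finset.Icc 1 ⌊Γ ^ (l + 1)⌋₊).filter fun g => ∀ m, |Real.sin (Real.pi * (g * w m))| ≤ κ0 * ρ ^ (l - 1)

/-- the hypotheses on the parameters -/
structure Hyp {r : ℕ} (a ρ Γ τ c1 κ0 : ℝ) (w : Fin r → ℝ) : Prop where
  ha : 1 / 2 < a
  ha1 : a < 1
  hρ0 : 0 < ρ
  hρ1 : ρ < 1
  hΓ1 : 1 < Γ
  hΓ2 : Γ < 2
  hΓa : Γ * a < 1
  hτ : 0 < τ
  hc1 : 0 < c1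
  hκ : 0 < κ0
  hD : ∀ l : ℕ, 1 ≤ l → ∃ i, c1 * (l : ℝ) ^ (-τ) ≤ |Real.sin (Real.pi * (l * w i))|

variable {r : ℕ} {a ρ Γ τ c1 κ0 : ℝ} {w : Fin r → ℝ}

/-- the growth rate of the smallest dangerous number -/
def et7 (ρ τ : ℝ) : ℝ := ρ ^ (-(1 / τ))

/-- the constant -/
def cH (ρ τ c1 κ0 : ℝ) : ℝ := (c1 * ρ / (2 * κ0)) ^ (1 / τ)

theorem et7_pos (hρ0 : 0 < ρ) : 0 < et7 ρ τ := Real.rpow_pos_of_pos hρ0 _

theorem cH_pos (hρ0 : 0 < ρ) (hc1 : 0 < c1) (hκ : 0 < κ0) : 0 < cH ρ τ c1 κ0 :=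
  Real.rpow_pos_of_pos (by positivity) _

/-- a number of steps with small `‖g w‖` is large -/
theorem gap_of (h : Hyp a ρ Γ τ c1 κ0 w) {l g : ℕ} (hl : 1 ≤ l) (hg : 1 ≤ g)
    (hs : ∀ m, |Real.sin (Real.pi * (g * w m))| ≤ 2 * (κ0 * ρ ^ (l - 1))) :
    cH ρ τ c1 κ0 * et7 ρ τ ^ l ≤ g := by
  obtain ⟨m, hm⟩ := h.hD g hg
  have hg0 : (0 : ℝ) < g := by exact_mod_cast (by omega : 0 < g)
  have h0 := h.hρ0
  have hc := h.hc1
  have hk := h.hκ
  have hτ := h.hτ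
  have h1 := hm.trans (hs m)
  have hgt : (0 : ℝ) < (g : ℝ) ^ τ := Real.rpow_pos_of_pos hg0 _
  rw [Real.rpow_neg hg0.le] at h1
  have h2 : c1 * ρ / (2 * κ0) * (ρ ^ l)⁻¹ ≤ (g : ℝ) ^ τ := by
    have h3 : c1 ≤ 2 * (κ0 * ρ ^ (l - 1)) * (g : ℝ) ^ τ := by
      have := mul_le_mul_of_nonneg_right h1 hgt.le
      rwa [mul_assoc, inv_mul_cancel₀ hgt.ne', mul_one] at this
    have h4 : ρ ^ l = ρ ^ (l - 1) * ρ := by
      obtain ⟨l', rfl⟩ : ∃ l', l = l' + 1 := ⟨l - 1, by omega⟩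
      rw [Nat.add_sub_cancel, pow_succ]
    rw [h4]
    have h5 : 0 < ρ ^ (l - 1) := by positivity
    rw [div_mul_eq_mul_div, mul_inv_rev, div_le_iff₀ (by positivity)]
    have e : c1 * ρ * (ρ⁻¹ * (ρ ^ (l - 1))⁻¹) = c1 * (ρ ^ (l - 1))⁻¹ := by
      field_simp
    rw [e, mul_inv_le_iff₀ h5]
    linarith
  have h6 : (c1 * ρ / (2 * κ0) * (ρ ^ l)⁻¹) ^ (1 / τ) ≤ ((g : ℝ) ^ τ) ^ (1 / τ) :=
    Real.rpow_le_rpow (by positivity) h2 (by positivity)
  rw [← Real.rpow_mul hg0.le, mul_one_div_cancel hτ.ne', Real.rpow_one,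
    Real.mul_rpow (by positivity) (by positivity)] at h6
  have e2 : ((ρ ^ l)⁻¹) ^ (1 / τ) = et7 ρ τ ^ l := by
    unfold et7
    rw [← Real.rpow_natCast, ← Real.rpow_natCast, ← Real.rpow_neg h0.le, ← Real.rpow_mul h0.le,
      ← Real.rpow_mul h0.le]
    congr 1
    ring
  rw [e2] at h6
  exact h6

theorem card_Dg (h : Hyp a ρ Γ τ c1 κ0 w) {l : ℕ} (hl : 1 ≤ l) :
    ((Dg ρ Γ κ0 w l).card : ℝ) ≤ Γ ^ (l + 1) / (cH ρ τ c1 κ0 * et7 ρ τ ^ l) + 1 := by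
  classical
  have hcH := cH_pos (τ := τ) h.hρ0 h.hc1 h.hκ
  have het := et7_pos (τ := τ) h.hρ0
  have hΓ := h.hΓ1
  refine card_gap (by positivity) (by positivity) ?_ ?_
  · intro g hg
    rw [Dg, Finset.mem_filter, Finset.mem_Icc] at hg
    exact (Nat.le_floor_iff (by positivity)).1 hg.1.2
  · intro g hg g' hg' hlt
    rw [Dg, Finset.mem_filter, Finset.mem_Icc] at hg hg'
    have := gap_of h (l := l) (g := g' - g) hl (by omega) (by
      intro m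
      have e : Real.pi * (((g' - g : ℕ) : ℝ) * w m) = Real.pi * (g' * w m) - Real.pi * (g * w m) := by
        rw [Nat.cast_sub hlt.le]; ring
      rw [e]
      refine (abs_sin_sub_le _ _).trans ?_
      linarith [hg.2 m, hg'.2 m])
    rwa [Nat.cast_sub hlt.le] at this

/-- the bound of the number of bad steps -/
theorem bad_count (h : Hyp a ρ Γ τ c1 κ0 w) {L0 l m R : ℕ} (hl : 2 ≤ l) (hΓl : Γ ^ (l + 1) ≤ 2 ^ (l - 1))
    (hm : Nat.log 2 m = l) (hR : R ≤ 2 ^ l) :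
    (nb (BadS L0 a ρ Γ κ0 w) m R : ℝ) ≤
      2 * (Γ ^ (l + 1) / (cH ρ τ c1 κ0 * et7 ρ τ ^ l) + 1) *
        ((Γ ^ (l + 1) * a ^ (l - 1) * R + 2) *
          (2 * (16 * (Γ * a) ^ (l - 1)) / (cH ρ τ c1 κ0 * et7 ρ τ ^ l * a ^ (l + 2)) + 1)) := by
  classical
  have hcH := cH_pos (τ := τ) h.hρ0 h.hc1 h.hκ
  have het := et7_pos (τ := τ) h.hρ0
  have hΓ := h.hΓ1
  have ha := h.ha
  have ha0 : 0 < a := by linarith
  have ha1 := h.ha1
  have hΓa := h.hΓa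
  have hΓa0 : 0 < Γ * a := by positivity
  have hm0 : m ≠ 0 := by
    intro h0
    rw [h0, Nat.log_zero_right] at hm
    omega
  have hm1 : 2 ^ l ≤ m := by rw [← hm]; exact Nat.pow_log_le_self 2 hm0
  have hm2 : m < 2 ^ (l + 1) := by rw [← hm]; exact Nat.lt_pow_succ_log_self (by norm_num) m
  set F := Γ ^ (l + 1) with hF
  set s := cH ρ τ c1 κ0 * et7 ρ τ ^ l * a ^ (l + 2) with hs
  set S := Γ ^ (l + 1) * a ^ (l - 1) with hS
  set ζ := 16 * (Γ * a) ^ (l - 1) with hζ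
  have hs0 : 0 < s := by positivity
  have hζ0 : 0 ≤ ζ := by positivity
  have p1 : 2 ^ l = 2 ^ (l - 1) + 2 ^ (l - 1) := by
    obtain ⟨l', rfl⟩ : ∃ l', l = l' + 1 := ⟨l - 1, by omega⟩
    simp only [Nat.add_sub_cancel]; ring
  have p2 : 2 ^ (l + 1) = 2 * 2 ^ l := by ring
  have p3 : 2 ^ (l + 2) = 4 * 2 ^ l := by ring
  have p4 : 2 ^ (l + 2 + 1) = 8 * 2 ^ l := by ring
  have hgle : ∀ g ∈ Dg ρ Γ κ0 w l, 1 ≤ g ∧ g ≤ 2 ^ (l - 1) ∧ (g : ℝ) ≤ F ∧ cH ρ τ c1 κ0 * et7 ρ τ ^ l ≤ g := by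
    intro g hg
    rw [Dg, Finset.mem_filter, Finset.mem_Icc] at hg
    have h1 : (g : ℝ) ≤ F := (Nat.le_floor_iff (by positivity)).1 hg.1.2
    refine ⟨hg.1.1, ?_, h1, gap_of h (by omega) hg.1.1 fun m => ?_⟩
    · have : (g : ℝ) ≤ ((2 ^ (l - 1) : ℕ) : ℝ) := by push_cast; linarith
      exact_mod_cast this
    · have h2 := hg.2 m
      have h3 : 0 ≤ κ0 * ρ ^ (l - 1) := by have := h.hρ0; have := h.hκ; positivity
      linarith
  -- increments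
  have hinc : ∀ g ∈ Dg ρ Γ κ0 w l, ∀ i, 2 ^ (l - 1) ≤ i → i + g ≤ 2 ^ (l + 2 + 1) →
      s ≤ Sg a g (i + 1) - Sg a g i ∧ Sg a g (i + 1) - Sg a g i ≤ S := by
    intro g hg i h1 h2
    obtain ⟨g1, g2, g3, g4⟩ := hgle g hg
    rw [Sg_succ]
    obtain ⟨k1, k2⟩ := Vs_diff_bd ha0 ha1 (i := i) (g := g) (l1 := l - 1) (l2 := l + 2) h1 h2
    constructor
    · refine le_trans ?_ k1
      rw [hs]
      exact mul_le_mul_of_nonneg_right g4 (by positivity)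
    · refine k2.trans ?_
      rw [hS]
      exact mul_le_mul_of_nonneg_right g3 (by positivity)
  -- the two families
  set A1 : ℕ → Finset ℕ := fun g => (Finset.Ico m (m + R)).filter fun i => ∃ b : ℤ, |Sg a g i - b| ≤ ζ with hA1
  set A2 : ℕ → Finset ℕ := fun g => (Finset.Ico m (m + R)).filter fun i => ∃ b : ℤ, |Sg a g (i - g) - b| ≤ ζ
    with hA2
  have c1' : ∀ g ∈ Dg ρ Γ κ0 w l, ((A1 g).card : ℝ) ≤ (S * R + 2) * (2 * ζ / s + 1) := by
    intro g hg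
    refine count_near hs0 hζ0 fun i h1 h2 => ?_
    have := (hgle g hg).2.1
    exact hinc g hg i (by omega) (by omega)
  have c2' : ∀ g ∈ Dg ρ Γ κ0 w l, ((A2 g).card : ℝ) ≤ (S * R + 2) * (2 * ζ / s + 1) := by
    intro g hg
    refine count_near (x := fun i => Sg a g (i - g)) hs0 hζ0 fun i h1 h2 => ?_
    have := (hgle g hg).2.1
    have e : i + 1 - g = i - g + 1 := by omega
    simp only [e]
    exact hinc g hg (i - g) (by omega) (by omega)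
  have hsub : ((Finset.Ico m (m + R)).filter fun t => BadS L0 a ρ Γ κ0 w t) ⊆
      (Dg ρ Γ κ0 w l).biUnion fun g => A1 g ∪ A2 g := by
    intro j hj
    rw [Finset.mem_filter, Finset.mem_Ico] at hj
    obtain ⟨⟨j1, j2⟩, j3, j4⟩ := hj
    have hlogj := log_range hm (by omega) hR j1 j2
    rw [Finset.mem_biUnion]
    rcases j4 with ⟨g, g1, g2, g3, b, hb⟩ | ⟨g, i, rfl, hi, g1, g2, g3, b, hb⟩
    · refine ⟨g, ?_, Finset.mem_union_left _ ?_⟩
      · rw [Dg, Finset.mem_filter, Finset.mem_Icc]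
        refine ⟨⟨g1, (Nat.le_floor_iff (by positivity)).2 (g2.trans ?_)⟩, fun m => (g3 m).trans ?_⟩
        · exact pow_le_pow_right₀ hΓ.le hlogj.2
        · refine mul_le_mul_of_nonneg_left ?_ h.hκ.le
          exact pow_le_pow_of_le_one h.hρ0.le h.hρ1.le (by omega)
      · rw [hA1, Finset.mem_filter, Finset.mem_Ico]
        refine ⟨⟨j1, j2⟩, b, hb.trans ?_⟩
        rw [hζ]
        refine mul_le_mul_of_nonneg_left ?_ (by norm_num)
        exact pow_le_pow_of_le_one hΓa0.le hΓa.le (by omega)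
    · -- the earlier step of the pair
      have hli : Nat.log 2 i ≤ l + 1 := (Nat.log_mono_right (by omega)).trans hlogj.2
      have hg5 : (g : ℝ) ≤ F := g2.trans (pow_le_pow_right₀ hΓ.le hli)
      have hg6 : g ≤ 2 ^ (l - 1) := by
        have : (g : ℝ) ≤ ((2 ^ (l - 1) : ℕ) : ℝ) := by push_cast; linarith
        exact_mod_cast this
      have hi2 : 2 ^ (l - 1) ≤ i := by omega
      have hli2 : l - 1 ≤ Nat.log 2 i := (Nat.le_log_iff_pow_le (by norm_num) (by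
        have := Nat.one_le_two_pow (n := l - 1); omega)).2 hi2
      refine ⟨g, ?_, Finset.mem_union_right _ ?_⟩
      · rw [Dg, Finset.mem_filter, Finset.mem_Icc]
        refine ⟨⟨g1, (Nat.le_floor_iff (by positivity)).2 hg5⟩, fun m => (g3 m).trans ?_⟩
        refine mul_le_mul_of_nonneg_left ?_ h.hκ.le
        exact pow_le_pow_of_le_one h.hρ0.le h.hρ1.le hli2
      · rw [hA2, Finset.mem_filter, Finset.mem_Ico]
        refine ⟨⟨j1, j2⟩, b, ?_⟩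
        rw [Nat.add_sub_cancel]
        refine hb.trans ?_
        rw [hζ]
        refine mul_le_mul_of_nonneg_left ?_ (by norm_num)
        exact pow_le_pow_of_le_one hΓa0.le hΓa.le hli2
  have hcard : (nb (BadS L0 a ρ Γ κ0 w) m R : ℝ) ≤ ∑ g ∈ Dg ρ Γ κ0 w l, (((A1 g).card : ℝ) + (A2 g).card) := by
    have h1 : nb (BadS L0 a ρ Γ κ0 w) m R ≤ ∑ g ∈ Dg ρ Γ κ0 w l, ((A1 g).card + (A2 g).card) := by
      unfold nb
      refine (Finset.card_le_card hsub).trans (Finset.card_biUnion_le.trans ?_)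
      exact Finset.sum_le_sum fun g _ => Finset.card_union_le _ _
    exact_mod_cast h1
  refine hcard.trans ?_
  set Q := (S * R + 2) * (2 * ζ / s + 1) with hQ
  have hS0 : 0 ≤ S := by positivity
  have hQ0 : 0 ≤ Q := by positivity
  calc ∑ g ∈ Dg ρ Γ κ0 w l, (((A1 g).card : ℝ) + (A2 g).card)
      ≤ ∑ g ∈ Dg ρ Γ κ0 w l, (Q + Q) := Finset.sum_le_sum fun g hg => add_le_add (c1' g hg) (c2' g hg)
    _ = ((Dg ρ Γ κ0 w l).card : ℝ) * (2 * Q) := by rw [Finset.sum_const, nsmul_eq_mul]; ring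
    _ ≤ (Γ ^ (l + 1) / (cH ρ τ c1 κ0 * et7 ρ τ ^ l) + 1) * (2 * Q) :=
        mul_le_mul_of_nonneg_right (card_Dg h (by omega)) (by positivity)
    _ = _ := by ring

end Pool.Agent.J6H35.TL
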