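import Mathlib

/-!
# Counting lemmas
-/

set_option autoImplicit false

open Set Filter Topology

noncomputable section

namespace Pool.Agent.J6H35.TL

theorem diff_ge {x : ℕ → ℝ} {m R : ℕ} {s : ℝ}
    (h : ∀ i, m ≤ i → i < m + R → s ≤ x (i + 1) - x i) {i j : ℕ} (hi : m ≤ i) (hij : i ≤ j) (hj : j ≤ m + R) :
    s * ((j : ℝ) - i) ≤ x j - x i := by
  induction j, hij using Nat.le_induction with
  | base => simp
  | succ j hij ih =>
    have h1 := ih (by omega)
    have h2 := h j (by omega) (by omega)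
    push_cast
    linarith

theorem diff_le {x : ℕ → ℝ} {m R : ℕ} {S : ℝ}
    (h : ∀ i, m ≤ i → i < m + R → x (i + 1) - x i ≤ S) {j : ℕ} (hj : j ≤ R) :
    x (m + j) - x m ≤ S * j := by
  induction j with
  | zero => simp
  | succ j ih =>
    have h1 := ih (by omega)
    have h2 := h (m + j) (by omega) (by omega)
    rw [show m + (j + 1) = m + j + 1 by ring]
    push_cast
    linarith

theorem card_spaced {T : Finset ℕ} {x : ℕ → ℝ} {s α β : ℝ} (hs : 0 < s) (hαβ : α ≤ β)
    (hx : ∀ i ∈ T, ∀ j ∈ T, i ≤ j → s * ((j : ℝ) - i) ≤ x j - x i) (hα : ∀ i ∈ T, α ≤ x i ∧ x i ≤ β) :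
    (T.card : ℝ) ≤ (β - α) / s + 1 := by
  rcases T.eq_empty_or_nonempty with rfl | hT
  · have : 0 ≤ (β - α) / s := div_nonneg (by linarith) hs.le
    simp only [Finset.card_empty, Nat.cast_zero]
    linarith
  · have h1 : T ⊆ Finset.Icc (T.min' hT) (T.max' hT) := fun i hi =>
      Finset.mem_Icc.2 ⟨T.min'_le i hi, T.le_max' i hi⟩
    have h2 := Finset.card_le_card h1
    rw [Nat.card_Icc] at h2
    have h3 := hx _ (T.min'_mem hT) _ (T.max'_mem hT) (T.min'_le _ (T.max'_mem hT))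
    have h4 := (hα _ (T.min'_mem hT)).1
    have h5 := (hα _ (T.max'_mem hT)).2
    have h6 : T.min' hT ≤ T.max' hT := T.min'_le _ (T.max'_mem hT)
    have h7 : (T.card : ℝ) ≤ (T.max' hT : ℝ) - T.min' hT + 1 := by
      have : T.card + T.min' hT ≤ T.max' hT + 1 := by omega
      have h8 : ((T.card + T.min' hT : ℕ) : ℝ) ≤ ((T.max' hT + 1 : ℕ) : ℝ) := by exact_mod_cast this
      push_cast at h8
      linarith
    have h9 : (T.max' hT : ℝ) - T.min' hT ≤ (β - α) / s := by
      rw [le_div_iff₀ hs]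
      linarith
    linarith

open Classical in
theorem count_near {x : ℕ → ℝ} {m R : ℕ} {s S ζ : ℝ} (hs : 0 < s) (hζ : 0 ≤ ζ)
    (h : ∀ i, m ≤ i → i < m + R → s ≤ x (i + 1) - x i ∧ x (i + 1) - x i ≤ S) :
    (((Finset.Ico m (m + R)).filter fun i => ∃ b : ℤ, |x i - b| ≤ ζ).card : ℝ) ≤
      (S * R + 2) * (2 * ζ / s + 1) := by
  set T := (Finset.Ico m (m + R)).filter fun i => ∃ b : ℤ, |x i - b| ≤ ζ with hT
  set f : ℕ → ℤ := fun i => round (x i) with hf
  have hmem : ∀ i ∈ T, m ≤ i ∧ i < m + R ∧ |x i - f i| ≤ ζ := by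
    intro i hi
    rw [hT, Finset.mem_filter, Finset.mem_Ico] at hi
    obtain ⟨⟨h1, h2⟩, b, hb⟩ := hi
    exact ⟨h1, h2, (round_le (x i) b).trans hb⟩
  have hd1 : ∀ i j, m ≤ i → i ≤ j → j ≤ m + R → s * ((j : ℝ) - i) ≤ x j - x i := fun i j h1 h2 h3 =>
    diff_ge (fun i h1 h2 => (h i h1 h2).1) h1 h2 h3
  have hmono : ∀ i j, m ≤ i → i ≤ j → j ≤ m + R → x i ≤ x j := by
    intro i j h1 h2 h3
    have h4 := hd1 i j h1 h2 h3
    have h5 : (i : ℝ) ≤ j := by exact_mod_cast h2
    nlinarith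
  have himg : T.image f ⊆ Finset.Icc (round (x m)) (round (x (m + R))) := by
    intro b hb
    obtain ⟨i, hi, rfl⟩ := Finset.mem_image.1 hb
    obtain ⟨h1, h2, -⟩ := hmem i hi
    rw [Finset.mem_Icc, hf]
    simp only [round_eq]
    exact ⟨Int.floor_mono (by linarith [hmono m i le_rfl h1 (by omega)]),
      Int.floor_mono (by linarith [hmono i (m + R) h1 h2.le le_rfl])⟩
  have hR := diff_le (fun i h1 h2 => (h i h1 h2).2) (le_refl R)
  have hx0 := hmono m (m + R) le_rfl (by omega) le_rfl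
  have hcard : ((T.image f).card : ℝ) ≤ S * R + 2 := by
    have h1 := Finset.card_le_card himg
    rw [Int.card_Icc] at h1
    have h2 : ((T.image f).card : ℝ) ≤ ((round (x (m + R)) + 1 - round (x m)).toNat : ℝ) := by exact_mod_cast h1
    have h3 : round (x m) ≤ round (x (m + R)) := by
      rw [round_eq, round_eq]
      exact Int.floor_mono (by linarith)
    have h4 : ((round (x (m + R)) + 1 - round (x m)).toNat : ℝ) =
        ((round (x (m + R)) + 1 - round (x m) : ℤ) : ℝ) := by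
      rw [← Int.cast_natCast, Int.toNat_of_nonneg (by omega)]
    rw [h4] at h2
    push_cast at h2
    have h5 := abs_le.1 (abs_sub_round (x m))
    have h6 := abs_le.1 (abs_sub_round (x (m + R)))
    linarith [h5.1, h5.2, h6.1, h6.2]
  have hfib : ∀ b ∈ T.image f, ((T.filter fun i => f i = b).card : ℝ) ≤ 2 * ζ / s + 1 := by
    intro b _
    have := card_spaced (T := T.filter fun i => f i = b) (x := x) (s := s) (α := b - ζ) (β := b + ζ) hs
      (by linarith) (by
        intro i hi j hj hij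
        rw [Finset.mem_filter] at hi hj
        exact hd1 i j (hmem i hi.1).1 hij (hmem j hj.1).2.1.le) (by
        intro i hi
        rw [Finset.mem_filter] at hi
        have h1 := abs_le.1 (hmem i hi.1).2.2
        rw [hi.2] at h1
        constructor <;> linarith [h1.1, h1.2])
    have e : (b : ℝ) + ζ - (b - ζ) = 2 * ζ := by ring
    rwa [e] at this
  have hsum : (T.card : ℝ) = ∑ b ∈ T.image f, ((T.filter fun i => f i = b).card : ℝ) := by
    have := Finset.card_eq_sum_card_image f T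
    exact_mod_cast this
  rw [hsum]
  refine (Finset.sum_le_sum hfib).trans ?_
  rw [Finset.sum_const, nsmul_eq_mul]
  refine mul_le_mul_of_nonneg_right hcard ?_
  have : 0 ≤ 2 * ζ / s := by positivity
  linarith

theorem card_gap {T : Finset ℕ} {H G : ℝ} (hH : 0 < H) (hG : 0 ≤ G) (hT : ∀ g ∈ T, (g : ℝ) ≤ G)
    (hgap : ∀ g ∈ T, ∀ g' ∈ T, g < g' → H ≤ (g' : ℝ) - g) : (T.card : ℝ) ≤ G / H + 1 := by
  have hinj : Set.InjOn (fun g : ℕ => ⌊(g : ℝ) / H⌋₊) (T : Set ℕ) := by
    have key : ∀ g ∈ T, ∀ g' ∈ T, g < g' → ⌊(g : ℝ) / H⌋₊ < ⌊(g' : ℝ) / H⌋₊ := by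
      intro g hg g' hg' hlt
      have h1 := hgap g hg g' hg' hlt
      have h2 : (g : ℝ) / H + 1 ≤ (g' : ℝ) / H := by
        rw [div_add_one hH.ne', div_le_div_iff_of_pos_right hH]
        linarith
      have h3 : ⌊(g : ℝ) / H + 1⌋₊ = ⌊(g : ℝ) / H⌋₊ + 1 := Nat.floor_add_one (by positivity)
      have h4 := Nat.floor_mono h2
      omega
    intro g hg g' hg' he
    simp only at he
    rcases lt_trichotomy g g' with h | h | h
    · exact absurd he (key g hg g' hg' h).ne
    · exact h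
    · exact absurd he.symm (key g' hg' g hg h).ne
  have hmaps : ∀ g ∈ T, ⌊(g : ℝ) / H⌋₊ ∈ Finset.range (⌊G / H⌋₊ + 1) := by
    intro g hg
    rw [Finset.mem_range, Nat.lt_succ_iff]
    exact Nat.floor_mono (div_le_div_of_nonneg_right (hT g hg) hH.le)
  have h1 := Finset.card_le_card_of_injOn _ hmaps hinj
  rw [Finset.card_range] at h1
  have h2 : (T.card : ℝ) ≤ ((⌊G / H⌋₊ + 1 : ℕ) : ℝ) := by exact_mod_cast h1
  push_cast at h2
  have h3 := Nat.floor_le (show 0 ≤ G / H by positivity)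
  linarith

end Pool.Agent.J6H35.TL
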