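import Pool.Agent.J6H35.TL.Stm6
import Pool.Agent.N980.TL.DENS

/-!
# Trigonometric polynomials are dense in `C^k`
-/

set_option autoImplicit false

open Set Filter Topology MeasureTheory
open scoped ContDiff

noncomputable section

namespace Pool.Agent.J6H35.TL

open Pool.Agent.N980.TL Pool.Agent.N980.TL.Dens

theorem cv_iter {n : ℕ} (i : ℕ) : ∀ {E : Type} [NormedAddCommGroup E] [NormedSpace ℝ E] [CompleteSpace E]
    {φ : Z n → E}, Per φ → ContDiff ℝ i φ → ∀ ε > 0, ∀ᶠ m in atTop, ∀ q : Z n,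
      ‖iteratedFDeriv ℝ i (fun q => φ q - cv m φ q) q‖ ≤ ε := by
  induction i with
  | zero =>
    intro E _ _ _ φ hφ hc ε hε
    filter_upwards [approx hφ hc.continuous ε hε] with m hm q
    rw [norm_iteratedFDeriv_zero]
    exact hm q
  | succ i ih =>
    intro E _ _ _ φ hφ hc ε hε
    have hc1 : ContDiff ℝ 1 φ := hc.of_le (by exact_mod_cast Nat.succ_le_succ (Nat.zero_le i))
    have hf1 : ContDiff ℝ i (fderiv ℝ φ) := hc.fderiv_right (m := i) (by norm_cast)
    filter_upwards [ih (per_fderiv hφ) hf1 ε hε] with m hm q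
    have e1 : fderiv ℝ (fun q => φ q - cv m φ q) = fun q => fderiv ℝ φ q - cv m (fderiv ℝ φ) q :=
      funext fun q => (((hc1.differentiable (by norm_num)) q).hasFDerivAt.sub (cv_fderiv m hφ hc1 q)).fderiv
    rw [← norm_iteratedFDeriv_fderiv, e1]
    exact hm q

theorem dens6_all : S_DENS6 := by
  intro k n f hf hper ε hε
  have hP : Per f := hper
  have h : ∀ᶠ m in atTop, ∀ i ∈ Finset.range (k + 1), ∀ q : Z n,
      ‖iteratedFDeriv ℝ i (fun q => f q - cv m f q) q‖ ≤ ε := by
    rw [Filter.eventually_all_finset]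
    intro i hi
    have hik : i ≤ k := by simpa [Nat.lt_succ_iff] using hi
    exact cv_iter i hP (hf.of_le (by exact_mod_cast hik)) ε hε
  obtain ⟨m, hm⟩ := h.exists
  obtain ⟨N, D, hD⟩ := cv_TT m hP hf.continuous
  refine ⟨N, D, fun i hi q => ?_⟩
  have hfun : (fun q : Z n => f q - D.val q.1 q.2) = fun q => f q - cv m f q := by
    funext q
    rw [hD]
  rw [hfun]
  exact hm i (Finset.mem_range.2 (by omega)) q

end Pool.Agent.J6H35.TL
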