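import Pool.Agent.J6H35.TL.Main6
import Pool.Agent.J6H35.TL.Gam6
import Pool.Agent.J6H35.TL.Bnd6
import Pool.Agent.J6H35.TL.Dens6
import Pool.Agent.J6H33.AD.Ana4
import Pool.Agent.J6H70.AD.Avg5
import Pool.Agent.N980.TL.Dense3

/-!
# Density in `C^k` of the potentials with escaping orbits
-/

set_option autoImplicit false

open Filter Topology Set
open scoped ContDiff

noncomputable section

namespace Pool.Agent.J6H35.TL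

open Pool.Agent.N980.TL Pool.Agent.J6H70.AD Pool.Agent.J6H33.AD

theorem ana6_all : S_ANA6 := by
  intro n N D K X h1 h2 h3
  obtain ⟨S, h⟩ := ana_allM n N D K X h1 h2 h3
  exact ⟨S, (h 0).per, fun k => (h k).xi, fun k => (h k).lip, (h 0).cont⟩

theorem avg6_all : S_AVG6 := avg6_of alg_all ana6_all

/-- from trigonometric polynomials to all potentials -/
theorem dense_of {k r : ℕ} {Q : (ℝ → Fin (r + 2) → ℝ) → ((Fin (r + 2) → ℝ) → ℝ → ℝ) → Prop}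
    (h : ∀ (N0 : ℕ) (D0 : Trig (r + 2) N0) (ε : ℝ), 0 < ε → ∃ (F : Z (r + 2) → ℝ) (γ : ℝ → Fin (r + 2) → ℝ),
      ContDiff ℝ k F ∧ Periodic (fun x t => F (x, t)) ∧ (∀ i ≤ k, ∀ q, ‖iteratedFDeriv ℝ i F q‖ ≤ ε) ∧
      Q γ (fun x t => D0.val x t + F (x, t)))
    (f₀ : (Fin (r + 2) → ℝ) → ℝ → ℝ)
    (hf₀ : ContDiff ℝ k (fun q : (Fin (r + 2) → ℝ) × ℝ => f₀ q.1 q.2)) (hper : Periodic f₀)
    (ε : ℝ) (hε : 0 < ε) :
    ∃ (f : (Fin (r + 2) → ℝ) → ℝ → ℝ) (γ : ℝ → Fin (r + 2) → ℝ),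
      ContDiff ℝ k (fun q : (Fin (r + 2) → ℝ) × ℝ => f q.1 q.2) ∧ Periodic f ∧
      (∀ i ≤ k, ∀ q, ‖iteratedFDeriv ℝ i
        (fun q : (Fin (r + 2) → ℝ) × ℝ => f q.1 q.2 - f₀ q.1 q.2) q‖ ≤ ε) ∧ Q γ f := by
  obtain ⟨N, D, hD⟩ := dens6_all k (r + 2) (fun q => f₀ q.1 q.2) hf₀
    (fun x t k l => hper x t k l) (ε / 2) (half_pos hε)
  obtain ⟨F, γ, h1, h2, h3, h4⟩ := h N D (ε / 2) (half_pos hε)
  have hDs : ContDiff ℝ k (fun q : Z (r + 2) => D.val q.1 q.2) := (contDiff_infty.1 (val_smooth D)) k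
  refine ⟨fun x t => D.val x t + F (x, t), γ, hDs.add h1, ?_, ?_, h4⟩
  · intro x t k l
    have e1 := val_periodic D x t k l
    have e2 := h2 x t k l
    simp only at e2
    show D.val (fun i => x i + k i) (t + l) + F ((fun i => x i + k i), t + l) = D.val x t + F (x, t)
    rw [e1, e2]
  · intro i hi q
    have hi' : (i : WithTop ℕ∞) ≤ k := by exact_mod_cast hi
    have e : (fun q : (Fin (r + 2) → ℝ) × ℝ => D.val q.1 q.2 + F (q.1, q.2) - f₀ q.1 q.2) =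
        F - fun q : Z (r + 2) => f₀ q.1 q.2 - D.val q.1 q.2 := by
      funext q
      show D.val q.1 q.2 + F (q.1, q.2) - f₀ q.1 q.2 = F q - (f₀ q.1 q.2 - D.val q.1 q.2)
      ring
    show ‖iteratedFDeriv ℝ i (fun q : (Fin (r + 2) → ℝ) × ℝ => D.val q.1 q.2 + F (q.1, q.2) - f₀ q.1 q.2) q‖ ≤ ε
    have hn : ContDiff ℝ k (-fun q : Z (r + 2) => f₀ q.1 q.2 - D.val q.1 q.2) := (hf₀.sub hDs).neg
    rw [e, sub_eq_add_neg, iteratedFDeriv_add_apply (h1.of_le hi').contDiffAt (hn.of_le hi').contDiffAt,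
      iteratedFDeriv_neg_apply]
    refine (norm_add_le _ _).trans ?_
    rw [norm_neg]
    linarith [h3 i hi q, hD i hi q]

theorem dense6 (k r : ℕ) (hk : 2 ≤ k) (hkr : k ≤ r + 1) (δ : ℝ) (hδ0 : 0 < δ)
    (hδ : δ < (r + 2 - k) / ((r + 1) * (k + 1))) (Vmin : ℝ) (f₀ : (Fin (r + 2) → ℝ) → ℝ → ℝ)
    (hf₀ : ContDiff ℝ k (fun q : (Fin (r + 2) → ℝ) × ℝ => f₀ q.1 q.2)) (hper : Periodic f₀)
    (ε : ℝ) (hε : 0 < ε) :
    ∃ (f : (Fin (r + 2) → ℝ) → ℝ → ℝ) (γ : ℝ → Fin (r + 2) → ℝ),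
      ContDiff ℝ k (fun q : (Fin (r + 2) → ℝ) × ℝ => f q.1 q.2) ∧ Periodic f ∧
      (∀ i ≤ k, ∀ q, ‖iteratedFDeriv ℝ i
        (fun q : (Fin (r + 2) → ℝ) × ℝ => f q.1 q.2 - f₀ q.1 q.2) q‖ ≤ ε) ∧
      (∃ c > 0, ∀ t, 0 ≤ t → c * t ^ δ ≤ ‖deriv γ t‖) ∧ (∀ t, 0 ≤ t → Vmin < ‖deriv γ t‖) ∧
      ∀ L : (Fin (r + 2) → ℝ) → (Fin (r + 2) → ℝ) → ℝ → ℝ,
        (∀ x v t, Vmin ≤ ‖v‖ → L x v t = (∑ i, v i ^ 2) / 2) →
        ∀ t, 0 < t → EulerLagrange (fun x v t => L x v t + f x t) γ t :=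
  dense_of (Q := fun γ f => (∃ c > 0, ∀ t, 0 ≤ t → c * t ^ δ ≤ ‖deriv γ t‖) ∧
      (∀ t, 0 ≤ t → Vmin < ‖deriv γ t‖) ∧
      ∀ L : (Fin (r + 2) → ℝ) → (Fin (r + 2) → ℝ) → ℝ → ℝ,
        (∀ x v t, Vmin ≤ ‖v‖ → L x v t = (∑ i, v i ^ 2) / 2) →
        ∀ t, 0 < t → EulerLagrange (fun x v t => L x v t + f x t) γ t)
    (fun N0 D0 ε hε => main6 fn_all (bnd6_all fn_all) per3_all sum_all nrm_all lam_all uu_all seq_all dio_all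
      avg6_all (Gam6.gam6_all fn_all cls_all) (Pool.Agent.J6H75.AD.col5_all fn_all) k r hk hkr δ hδ0 hδ N0 D0 ε hε
      Vmin) f₀ hf₀ hper ε hε

end Pool.Agent.J6H35.TL
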