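import Pool.Agent.N980.TL.Dfn

/-!
# Potentials of class `C^k`; Lagrangians which are mechanical near infinity
-/

set_option autoImplicit false

noncomputable section

namespace Pool.Agent.J6H35.TL

open Pool.Agent.N980.TL

/-- `f` is a potential of class `C^k` on `𝕋^n × 𝕋` -/
def PotK {n : ℕ} (k : ℕ) (f : (Fin n → ℝ) → ℝ → ℝ) : Prop :=
  ContDiff ℝ k (fun q : (Fin n → ℝ) × ℝ => f q.1 q.2) ∧ Periodic f

/-- all derivatives of `g - f` of order at most `k` are bounded by `ε` -/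
def CloseK {n : ℕ} (k : ℕ) (ε : ℝ) (f g : (Fin n → ℝ) → ℝ → ℝ) : Prop :=
  ∀ i ≤ k, ∀ q, ‖iteratedFDeriv ℝ i (fun q : (Fin n → ℝ) × ℝ => g q.1 q.2 - f q.1 q.2) q‖ ≤ ε

/-- `O` is an open and dense set in the space of the potentials of class `C^k` -/
def OpenDenseK {n : ℕ} (k : ℕ) (O : Set ((Fin n → ℝ) → ℝ → ℝ)) : Prop :=
  (∀ f ∈ O, PotK k f ∧ ∃ η > 0, ∀ g, PotK k g → CloseK k η f g → g ∈ O) ∧
  ∀ f, PotK k f → ∀ ε > 0, ∃ g ∈ O, CloseK k ε f g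

/-- `L(x,v,t) = |v|²/2 + U(x,t)` for all `v` with `‖v‖` large -/
def MechInf {n : ℕ} (U : (Fin n → ℝ) → ℝ → ℝ) (L : (Fin n → ℝ) → (Fin n → ℝ) → ℝ → ℝ) : Prop :=
  ∃ R : ℝ, ∀ x v t, R ≤ ‖v‖ → L x v t = (∑ i, v i ^ 2) / 2 + U x t

end Pool.Agent.J6H35.TL
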