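import Pool.Agent.J6H35.TL.Stm6
import Pool.Agent.N980.TL.Eng

/-!
# The sum of the bump potentials around a path (`C^k` version of `N980/TL/Eng.lean`)
-/

set_option autoImplicit false

open Set Filter Topology MeasureTheory
open scoped ContDiff

noncomputable section

namespace Pool.Agent.J6H35.TL

open Pool.Agent.N980.TL

variable {n N : ℕ}

theorem engine6 {k : ℕ} (hk : 1 ≤ k) (hf : S_FN) (hPer : S_PER3) (hSum : S_SUM) (D : Trig n N) (G : ℕ → ℝ → E n) (d : ℕ → ℝ)
    (l0 : ℕ) (BB : ℕ → ℝ) (ε : ℝ)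
    (hGs : ∀ j, 2 ^ l0 ≤ j → ∀ i, ContDiff ℝ ∞ (fun s => G j s i))
    (hglue : ∀ j s, 3 / 4 ≤ s → s ≤ 5 / 4 → G j s = G (j + 1) (s - 1))
    (hd : ∀ j, 0 < d j)
    (hdisj : ∀ i j, 2 ^ l0 ≤ i → i < j → ∀ σ : ℝ, -1 ≤ σ → σ ≤ 1 → ∀ x : E n,
      (∀ m, |Real.sin (Real.pi * (x m - G i σ m))| ≤ d i) →
      (∀ m, |Real.sin (Real.pi * (x m - G j σ m))| ≤ d j) → False)
    (hA : ∀ l, l0 ≤ l → ∀ j ∈ Finset.Ico (2 ^ l) (2 ^ (l + 1)),
      ContDiff ℝ ∞ (Hg chA (G j) (Fo D (G j)) (d j)) ∧ ∀ i ≤ k, ∀ q,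
        ‖iteratedFDeriv ℝ i (Hg chA (G j) (Fo D (G j)) (d j)) q‖ ≤ BB l)
    (hB : ∀ l, l0 ≤ l → ∀ j ∈ Finset.Ico (2 ^ l) (2 ^ (l + 1)),
      ContDiff ℝ ∞ (Hg chB (G j) (Fo D (G j)) (d j)) ∧ ∀ i ≤ k, ∀ q,
        ‖iteratedFDeriv ℝ i (Hg chB (G j) (Fo D (G j)) (d j)) q‖ ≤ BB l)
    (hBB : ∀ l, 0 ≤ BB l) (hBs : Summable BB) (htail : ∑' l, BB (l + l0) ≤ ε / 2) :
    ∃ F : Z n → ℝ, ContDiff ℝ k F ∧ Periodic (fun x t => F (x, t)) ∧
      (∀ i ≤ k, ∀ q, ‖iteratedFDeriv ℝ i F q‖ ≤ ε) ∧
      ∀ j, 2 ^ l0 ≤ j → ∀ t : ℝ, ∀ i,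
        fderiv ℝ F (G j (Int.fract t), t) (Pi.single i 1, 0) = Fo D (G j) (Int.fract t) i := by
  have hmemlog : ∀ j, 2 ^ l0 ≤ j → l0 ≤ Nat.log 2 j ∧ j ∈ Finset.Ico (2 ^ Nat.log 2 j) (2 ^ (Nat.log 2 j + 1)) := by
    intro j hj
    have hj0 : j ≠ 0 := by have : 0 < 2 ^ l0 := by positivity
                           omega
    exact ⟨(Nat.le_log_iff_pow_le (by norm_num) hj0).2 hj,
      Finset.mem_Ico.2 ⟨Nat.pow_log_le_self 2 hj0, Nat.lt_pow_succ_log_self (by norm_num) j⟩⟩
  have hAs : ∀ j, 2 ^ l0 ≤ j → ContDiff ℝ ∞ (Hg chA (G j) (Fo D (G j)) (d j)) := fun j hj =>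
    (hA _ (hmemlog j hj).1 j (hmemlog j hj).2).1
  have hBsm : ∀ j, 2 ^ l0 ≤ j → ContDiff ℝ ∞ (Hg chB (G j) (Fo D (G j)) (d j)) := fun j hj =>
    (hB _ (hmemlog j hj).1 j (hmemlog j hj).2).1
  have pA := fun j (hj : 2 ^ l0 ≤ j) => hPer n (Hg chA (G j) (Fo D (G j)) (d j)) (hAs j hj) (by
    intro q hq
    simp only [Hg]
    rw [chA_zero (by rcases hq with h | h; · left; linarith
                     · right; linarith)]
    ring)
  have pB := fun j (hj : 2 ^ l0 ≤ j) => perB_all hPer (Hg chB (G j) (Fo D (G j)) (d j)) (hBsm j hj) (by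
    intro q hq
    simp only [Hg]
    rw [chB_zero hq]
    ring)
  set hA' : ℕ → Z n → ℝ := fun j => if 2 ^ l0 ≤ j then per (Hg chA (G j) (Fo D (G j)) (d j)) else fun _ => 0
    with hA'd
  set hB' : ℕ → Z n → ℝ := fun j => if 2 ^ l0 ≤ j then perB (Hg chB (G j) (Fo D (G j)) (d j)) else fun _ => 0
    with hB'd
  set SA : ℕ → Set (Z n) := fun j => {q | 2 ^ l0 ≤ j ∧
    ∑ i, Real.sin (Real.pi * (q.1 i - G j (Int.fract q.2) i)) ^ 2 ≤ d j ^ 2} with hSA
  set SB : ℕ → Set (Z n) := fun j => {q | 2 ^ l0 ≤ j ∧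
    ∑ i, Real.sin (Real.pi * (q.1 i - G j (sB q.2) i)) ^ 2 ≤ d j ^ 2} with hSB
  have eA : ∀ j, 2 ^ l0 ≤ j → hA' j = per (Hg chA (G j) (Fo D (G j)) (d j)) := fun j hj => by
    simp only [hA'd, if_pos hj]
  have eB : ∀ j, 2 ^ l0 ≤ j → hB' j = perB (Hg chB (G j) (Fo D (G j)) (d j)) := fun j hj => by
    simp only [hB'd, if_pos hj]
  have zA : ∀ j, ¬ 2 ^ l0 ≤ j → hA' j = fun _ => 0 := fun j hj => by
    simp only [hA'd, if_neg hj]
  have zB : ∀ j, ¬ 2 ^ l0 ≤ j → hB' j = fun _ => 0 := fun j hj => by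
    simp only [hB'd, if_neg hj]
  have iz : ∀ (i : ℕ) (q : Z n), iteratedFDeriv ℝ i (fun _ : Z n => (0 : ℝ)) q = 0 := by
    intro i q
    rw [iteratedFDeriv_fun_zero]; rfl
  have hlog : ∀ l, ∀ j ∈ Finset.Ico (2 ^ l) (2 ^ (l + 1)), 2 ^ l0 ≤ j → l0 ≤ l := by
    intro l j hj hj'
    rw [Finset.mem_Ico] at hj
    have h1 : 2 ^ l0 < 2 ^ (l + 1) := lt_of_le_of_lt hj' hj.2
    have h2 := (Nat.pow_lt_pow_iff_right (by norm_num : 1 < 2)).1 h1
    omega
  obtain ⟨a1, a2, -, a4⟩ := hSum n k hk hA' SA BB l0 (by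
      intro j
      by_cases hj : 2 ^ l0 ≤ j
      · rw [eA j hj]; exact (pA j hj).1
      · rw [zA j hj]; exact contDiff_const) (by
      intro j q hq i _
      by_cases hj : 2 ^ l0 ≤ j
      · rw [eA j hj, (pA j hj).2 i q]
        refine Hg_zero hf (fun i => (hGs j hj i).continuous) (hd j) ?_ i
        by_contra hc
        exact hq ⟨hj, not_lt.1 hc⟩
      · rw [zA j hj]; exact iz i q) (by
      intro i j _ hij
      rw [Set.disjoint_left]
      rintro q ⟨hq1, hq2⟩ ⟨_, hq4⟩
      exact hdisj i j hq1 hij (Int.fract q.2) (by linarith [Int.fract_nonneg q.2]) (Int.fract_lt_one _).le q.1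
        (abs_le_of_sum_sq (hd i).le hq2) (abs_le_of_sum_sq (hd j).le hq4)) (by
      intro l j hj i hi q
      by_cases hj' : 2 ^ l0 ≤ j
      · rw [eA j hj', (pA j hj').2 i q]
        exact (hA l (hlog l j hj hj') j hj).2 i hi _
      · rw [zA j hj', iz, norm_zero]; exact hBB l) hBB hBs
  obtain ⟨b1, b2, -, b4⟩ := hSum n k hk hB' SB BB l0 (by
      intro j
      by_cases hj : 2 ^ l0 ≤ j
      · rw [eB j hj]; exact (pB j hj).1
      · rw [zB j hj]; exact contDiff_const) (by
      intro j q hq i _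
      by_cases hj : 2 ^ l0 ≤ j
      · rw [eB j hj, (pB j hj).2 i q]
        refine Hg_zero hf (fun i => (hGs j hj i).continuous) (hd j) ?_ i
        by_contra hc
        exact hq ⟨hj, not_lt.1 hc⟩
      · rw [zB j hj]; exact iz i q) (by
      intro i j _ hij
      rw [Set.disjoint_left]
      rintro q ⟨hq1, hq2⟩ ⟨_, hq4⟩
      have hs := sB_mem q.2
      exact hdisj i j hq1 hij (sB q.2) (by linarith [hs.1]) (by linarith [hs.2]) q.1
        (abs_le_of_sum_sq (hd i).le hq2) (abs_le_of_sum_sq (hd j).le hq4)) (by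
      intro l j hj i hi q
      by_cases hj' : 2 ^ l0 ≤ j
      · rw [eB j hj', (pB j hj').2 i q]
        exact (hB l (hlog l j hj hj') j hj).2 i hi _
      · rw [zB j hj', iz, norm_zero]; exact hBB l) hBB hBs
  have a1' : ContDiff ℝ k (blk hA' l0) := a1
  have b1' : ContDiff ℝ k (blk hB' l0) := b1
  refine ⟨fun q => blk hA' l0 q + blk hB' l0 q, a1'.add b1', ?_, ?_, ?_⟩
  · intro x t k' l
    have pA' : ∀ j, hA' j ((fun i => x i + k' i), t + l) = hA' j (x, t) := by
      intro j
      by_cases hj : 2 ^ l0 ≤ j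
      · rw [eA j hj]; exact per_int _ (fun x s k => Hg_periodic x s k) x t k' l
      · rw [zA j hj]
    have pB' : ∀ j, hB' j ((fun i => x i + k' i), t + l) = hB' j (x, t) := by
      intro j
      by_cases hj : 2 ^ l0 ≤ j
      · rw [eB j hj]; exact perB_int _ (fun x s k => Hg_periodic x s k) x t k' l
      · rw [zB j hj]
    simp only [blk, pA', pB']
  · intro i hi q
    have hi' : (i : WithTop ℕ∞) ≤ k := by exact_mod_cast hi
    rw [fun_iteratedFDeriv_add_apply (a1'.of_le hi').contDiffAt (b1'.of_le hi').contDiffAt]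
    refine (norm_add_le _ _).trans ?_
    linarith [a2 i hi q, b2 i hi q]
  · intro j hj t i
    set s := Int.fract t with hs
    have hs0 : 0 ≤ s := Int.fract_nonneg t
    have hs1 : s < 1 := Int.fract_lt_one t
    have dA : DifferentiableAt ℝ (blk hA' l0) (G j s, t) := a1'.differentiable (by exact_mod_cast (by omega : k ≠ 0)) _
    have dB : DifferentiableAt ℝ (blk hB' l0) (G j s, t) := b1'.differentiable (by exact_mod_cast (by omega : k ≠ 0)) _
    have hfd : fderiv ℝ (fun q => blk hA' l0 q + blk hB' l0 q) (G j s, t) =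
        fderiv ℝ (blk hA' l0) (G j s, t) + fderiv ℝ (blk hB' l0) (G j s, t) := fderiv_fun_add dA dB
    rw [hfd]
    show fderiv ℝ (blk hA' l0) (G j s, t) (Pi.single i 1, 0) + fderiv ℝ (blk hB' l0) (G j s, t) (Pi.single i 1, 0) = _
    -- the first family
    have hqA : ((G j s, t) : Z n) ∈ SA j := by
      refine ⟨hj, ?_⟩
      have : ∑ i, Real.sin (Real.pi * ((G j s, t).1 i - G j (Int.fract (G j s, t).2) i)) ^ 2 = 0 := by
        simp [hs]
      rw [this]; positivity
    have fA : fderiv ℝ (blk hA' l0) (G j s, t) (Pi.single i 1, 0) = chA s * Fo D (G j) s i := by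
      have e1 := a4 j hj _ hqA
      rw [eA j hj] at e1
      have e2 := fderiv_of_iter ((pA j hj).2 1 (G j s, t))
      exact forceG_eq hf (hAs j hj) (e1.trans e2) i
    rw [fA]
    -- the second family
    rcases le_or_gt s (1 / 4) with h14 | h14
    · have hsb : sB t = s := by
        have h1 : Int.fract (t + 1 / 2) = s + 1 / 2 := by
          rw [Int.fract_eq_iff]
          refine ⟨by linarith, by linarith, ⌊t⌋, ?_⟩
          have := Int.floor_add_fract t
          rw [← hs] at this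
          linarith
        unfold sB; rw [h1]; ring
      have hqB : ((G j s, t) : Z n) ∈ SB j := by
        refine ⟨hj, ?_⟩
        have : ∑ i, Real.sin (Real.pi * ((G j s, t).1 i - G j (sB (G j s, t).2) i)) ^ 2 = 0 := by
          simp only [hsb]; simp
        rw [this]; positivity
      have fB : fderiv ℝ (blk hB' l0) (G j s, t) (Pi.single i 1, 0) = chB s * Fo D (G j) s i := by
        have e1 := b4 j hj _ hqB
        rw [eB j hj] at e1
        have e2 := fderiv_of_iter ((pB j hj).2 1 (G j s, t))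
        simp only [hsb] at e2
        exact forceG_eq hf (hBsm j hj) (e1.trans e2) i
      rw [fB, ← add_mul, ch_low hs0 h14, one_mul]
    rcases lt_or_ge s (3 / 4) with h34 | h34
    · have hz : blk hB' l0 =ᶠ[𝓝 ((G j s, t) : Z n)] fun _ => (0 : ℝ) := by
        have ht : (⌊t⌋ : ℝ) + s = t := by rw [hs]; exact Int.floor_add_fract t
        have hopen : ∀ᶠ q : Z n in 𝓝 ((G j s, t) : Z n), (⌊t⌋ : ℝ) + 1 / 4 < q.2 ∧ q.2 < ⌊t⌋ + 3 / 4 := by
          have hc : Tendsto (fun q : Z n => q.2) (𝓝 ((G j s, t) : Z n)) (𝓝 t) := continuous_snd.tendsto _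
          exact (hc.eventually (lt_mem_nhds (by linarith))).and (hc.eventually (gt_mem_nhds (by linarith)))
        filter_upwards [hopen] with q hq
        have hch : chB (sB q.2) = 0 := by
          rcases lt_or_ge (q.2) ((⌊t⌋ : ℝ) + 1 / 2) with h | h
          · have h1 : Int.fract (q.2 + 1 / 2) = q.2 + 1 / 2 - ⌊t⌋ := by
              rw [Int.fract_eq_iff]
              refine ⟨by linarith, by linarith, ⌊t⌋, ?_⟩
              ring
            refine chB_zero (Or.inr ?_)
            unfold sB; rw [h1]; linarith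
          · have h1 : Int.fract (q.2 + 1 / 2) = q.2 + 1 / 2 - (⌊t⌋ + 1) := by
              rw [Int.fract_eq_iff]
              refine ⟨by linarith, by linarith, ⌊t⌋ + 1, ?_⟩
              push_cast
              ring
            refine chB_zero (Or.inl ?_)
            unfold sB; rw [h1]; linarith
        have hz' : ∀ m, hB' m q = 0 := by
          intro m
          by_cases hm : 2 ^ l0 ≤ m
          · rw [eB m hm]
            simp only [perB, Hg, hch]
            ring
          · rw [zB m hm]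
        simp only [blk, hz', Finset.sum_const_zero, tsum_zero]
      have fB : fderiv ℝ (blk hB' l0) (G j s, t) = 0 := by
        rw [hz.fderiv_eq]; simp
      rw [fB, ch_mid h14.le h34.le]
      simp
    · have hsb : sB t = s - 1 := by
        have h1 : Int.fract (t + 1 / 2) = s - 1 / 2 := by
          rw [Int.fract_eq_iff]
          refine ⟨by linarith, by linarith, ⌊t⌋ + 1, ?_⟩
          have := Int.floor_add_fract t
          rw [← hs] at this
          push_cast
          linarith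
        unfold sB; rw [h1]; ring
      have hGG : G j s = G (j + 1) (s - 1) := hglue j s h34 (by linarith)
      have hj1 : 2 ^ l0 ≤ j + 1 := by omega
      have hqB : ((G (j + 1) (s - 1), t) : Z n) ∈ SB (j + 1) := by
        refine ⟨hj1, ?_⟩
        have : ∑ i, Real.sin (Real.pi * ((G (j + 1) (s - 1), t).1 i -
            G (j + 1) (sB (G (j + 1) (s - 1), t).2) i)) ^ 2 = 0 := by
          simp only [hsb]; simp
        rw [this]; positivity
      have fB : fderiv ℝ (blk hB' l0) (G (j + 1) (s - 1), t) (Pi.single i 1, 0) =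
          chB (s - 1) * Fo D (G (j + 1)) (s - 1) i := by
        have e1 := b4 (j + 1) hj1 _ hqB
        rw [eB (j + 1) hj1] at e1
        have e2 := fderiv_of_iter ((pB (j + 1) hj1).2 1 (G (j + 1) (s - 1), t))
        simp only [hsb] at e2
        exact forceG_eq hf (hBsm (j + 1) hj1) (e1.trans e2) i
      rw [hGG, fB]
      rcases h34.eq_or_lt with h | h
      · rw [← h, ch_mid (by norm_num) le_rfl, chB_zero (Or.inl (by norm_num))]
        simp
      · have hev : ∀ᶠ u in 𝓝 s, G j u = G (j + 1) (u - 1) := by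
          filter_upwards [lt_mem_nhds h, gt_mem_nhds (show s < 5 / 4 by linarith)] with u h1 h2
          exact hglue j u h1.le h2.le
        have hFo : Fo D (G (j + 1)) (s - 1) i = Fo D (G j) s i := by
          simp only [Fo]
          have k1 : (fun u => G j u i) =ᶠ[𝓝 s] fun u => (fun u => G (j + 1) u i) (u - 1) := by
            filter_upwards [hev] with u hu
            rw [hu]
          have k2 : deriv (fun u => G j u i) =ᶠ[𝓝 s] fun u => deriv (fun u => G (j + 1) u i) (u - 1) := by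
            filter_upwards [k1.eventually_nhds] with u hu
            have hu' : (fun u => G j u i) =ᶠ[𝓝 u] fun u => (fun u => G (j + 1) u i) (u - 1) := hu
            rw [hu'.deriv_eq]
            exact deriv_comp_sub_const (f := fun u => G (j + 1) u i) 1 u
          rw [k2.deriv_eq]
          have k3 : deriv (fun u => deriv (fun u => G (j + 1) u i) (u - 1)) s =
              deriv (deriv fun u => G (j + 1) u i) (s - 1) :=
            deriv_comp_sub_const (f := deriv fun u => G (j + 1) u i) 1 s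
          rw [k3, hGG]
          have k4 := grad_time D (G (j + 1) (s - 1)) (s - 1) 1 i
          have k5 : s - 1 + ((1 : ℤ) : ℝ) = s := by push_cast; ring
          rw [k5] at k4
          rw [k4]
        rw [hFo, ← add_mul, ch_high h34 hs1.le, one_mul]

end Pool.Agent.J6H35.TL
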