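import Pool.Agent.J6H35.TL.Cnt7

/-!
# A velocity which follows a profile and is constant at bad steps
-/

set_option autoImplicit false

open Set Filter Topology

noncomputable section

namespace Pool.Agent.J6H35.TL

/-- the profile -/
def Vs (a : ℝ) (j : ℕ) : ℝ := 1 + ∑ t ∈ Finset.range j, a ^ (Nat.log 2 t)

open Classical in
/-- the velocity -/
def Vr (a : ℝ) (Bad : ℕ → Prop) : ℕ → ℝ
  | 0 => 1
  | j + 1 => if Bad j then Vr a Bad j else min (Vs a (j + 1)) (Vr a Bad j + 2 * a ^ (Nat.log 2 j))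

/-- the lag -/
def lag (a : ℝ) (Bad : ℕ → Prop) (j : ℕ) : ℝ := Vs a j - Vr a Bad j

open Classical in
/-- the number of bad steps in `[m, m+R)` -/
def nb (Bad : ℕ → Prop) (m R : ℕ) : ℕ := ((Finset.Ico m (m + R)).filter fun t => Bad t).card

variable {a : ℝ} {Bad : ℕ → Prop}

theorem Vs_succ (a : ℝ) (j : ℕ) : Vs a (j + 1) = Vs a j + a ^ (Nat.log 2 j) := by
  unfold Vs
  rw [Finset.sum_range_succ]
  ring

theorem lag_nonneg (ha : 0 < a) (j : ℕ) : 0 ≤ lag a Bad j := by
  induction j with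
  | zero => simp [lag, Vs, Vr]
  | succ j ih =>
    unfold lag at ih ⊢
    have h0 : 0 < a ^ (Nat.log 2 j) := by positivity
    rw [Vs_succ, Vr]
    split_ifs with h
    · linarith
    · have := min_le_left (Vs a (j + 1)) (Vr a Bad j + 2 * a ^ (Nat.log 2 j))
      rw [Vs_succ] at this ⊢
      linarith

theorem Vr_bad {j : ℕ} (h : Bad j) : Vr a Bad (j + 1) = Vr a Bad j := by
  rw [Vr, if_pos h]

theorem Vr_step (ha : 0 < a) (j : ℕ) : 0 ≤ Vr a Bad (j + 1) - Vr a Bad j ∧
    Vr a Bad (j + 1) - Vr a Bad j ≤ 2 * a ^ (Nat.log 2 j) := by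
  have h0 : 0 < a ^ (Nat.log 2 j) := by positivity
  have h1 := lag_nonneg (Bad := Bad) ha j
  unfold lag at h1
  rw [Vr]
  split_ifs with h
  · constructor <;> linarith
  · constructor
    · have : Vr a Bad j ≤ min (Vs a (j + 1)) (Vr a Bad j + 2 * a ^ (Nat.log 2 j)) := by
        rw [Vs_succ]
        exact le_min (by linarith) (by linarith)
      linarith
    · have := min_le_right (Vs a (j + 1)) (Vr a Bad j + 2 * a ^ (Nat.log 2 j))
      linarith

open Classical in
/-- the change of the lag -/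
def ep (a : ℝ) (Bad : ℕ → Prop) (t : ℕ) : ℝ := if Bad t then a ^ (Nat.log 2 t) else -a ^ (Nat.log 2 t)

theorem lag_step (j : ℕ) : lag a Bad (j + 1) = 0 ∨ lag a Bad (j + 1) = lag a Bad j + ep a Bad j := by
  unfold lag ep
  rw [Vs_succ, Vr]
  split_ifs with h
  · right; ring
  · rcases min_choice (Vs a (j + 1)) (Vr a Bad j + 2 * a ^ (Nat.log 2 j)) with h1 | h1
    · left
      rw [h1, Vs_succ]; ring
    · right
      rw [h1]; ring

theorem lag_excursion (j : ℕ) : ∃ i ≤ j, lag a Bad i = 0 ∧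
    ∀ j', i ≤ j' → j' ≤ j → lag a Bad j' ≤ ∑ t ∈ Finset.Ico i j', ep a Bad t := by
  induction j with
  | zero =>
    refine ⟨0, le_rfl, by simp [lag, Vs, Vr], fun j' _ h => ?_⟩
    obtain rfl : j' = 0 := by omega
    simp [lag, Vs, Vr]
  | succ j ih =>
    rcases lag_step (a := a) (Bad := Bad) j with h | h
    · refine ⟨j + 1, le_rfl, h, fun j' h1 h2 => ?_⟩
      obtain rfl : j' = j + 1 := by omega
      rw [h]; simp
    · obtain ⟨i, hi, h0, hs⟩ := ih
      refine ⟨i, by omega, h0, fun j' h1 h2 => ?_⟩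
      rcases Nat.lt_or_ge j' (j + 1) with h3 | h3
      · exact hs j' h1 (by omega)
      · obtain rfl : j' = j + 1 := by omega
        rw [h, Finset.sum_Ico_succ_top hi]
        linarith [hs j hi le_rfl]

theorem log_range {l i t R : ℕ} (hl : Nat.log 2 i = l) (hi : 1 ≤ i) (hR : R ≤ 2 ^ l) (h1 : i ≤ t) (h2 : t < i + R) :
    l ≤ Nat.log 2 t ∧ Nat.log 2 t ≤ l + 1 := by
  constructor
  · rw [← hl]; exact Nat.log_mono_right h1
  · have h3 : i < 2 ^ (l + 1) := by rw [← hl]; exact Nat.lt_pow_succ_log_self (by norm_num) i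
    have h4 : t < 2 ^ (l + 1 + 1) := by
      have : 2 ^ (l + 1 + 1) = 2 ^ (l + 1) + 2 ^ l + 2 ^ l := by ring
      omega
    exact Nat.lt_succ_iff.1 (Nat.log_lt_of_lt_pow (by omega) h4)

open Classical in
theorem sum_ep_le (ha1 : a < 1) (ha : 1 / 2 < a) {l i R : ℕ} (hl : Nat.log 2 i = l) (hi : 1 ≤ i)
    (hR : R ≤ 2 ^ l) :
    ∑ t ∈ Finset.Ico i (i + R), ep a Bad t ≤ a ^ l * nb Bad i R - a ^ (l + 1) * (R - nb Bad i R) := by
  have ha0 : 0 < a := by linarith
  have h1 : ∀ t ∈ Finset.Ico i (i + R), ep a Bad t ≤ if Bad t then a ^ l else -a ^ (l + 1) := by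
    intro t ht
    rw [Finset.mem_Ico] at ht
    obtain ⟨h2, h3⟩ := log_range hl hi hR ht.1 ht.2
    unfold ep
    split_ifs
    · exact pow_le_pow_of_le_one ha0.le ha1.le h2
    · exact neg_le_neg (pow_le_pow_of_le_one ha0.le ha1.le h3)
  refine (Finset.sum_le_sum h1).trans (le_of_eq ?_)
  rw [Finset.sum_ite, Finset.sum_const, Finset.sum_const, nsmul_eq_mul, nsmul_eq_mul]
  have h4 := Finset.card_filter_add_card_filter_not (s := Finset.Ico i (i + R)) (fun t => Bad t)
  rw [Nat.card_Ico] at h4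
  have h5 : ((((Finset.Ico i (i + R)).filter fun t => Bad t).card : ℕ) : ℝ) +
      ((((Finset.Ico i (i + R)).filter fun t => ¬ Bad t).card : ℕ) : ℝ) = R := by
    have : i + R - i = R := by omega
    rw [this] at h4
    exact_mod_cast h4
  unfold nb
  have h6 : ((((Finset.Ico i (i + R)).filter fun t => ¬ Bad t).card : ℕ) : ℝ) =
      R - ((((Finset.Ico i (i + R)).filter fun t => Bad t).card : ℕ) : ℝ) := by linarith
  rw [h6]
  ring

/-- excursions are short -/
theorem lag_short (ha1 : a < 1) (ha : 1 / 2 < a) {L0 : ℕ} {Rl : ℕ → ℕ} (hlow : ∀ j, Bad j → 2 ^ L0 ≤ j)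
    (hR : ∀ l, L0 ≤ l → Rl l ≤ 2 ^ l)
    (hb : ∀ i, 2 ^ L0 ≤ i → 3 * nb Bad i (Rl (Nat.log 2 i)) < Rl (Nat.log 2 i)) (j : ℕ) :
    ∃ i ≤ j, (i = j ∨ 2 ^ L0 ≤ i) ∧ (i = j ∨ j < i + Rl (Nat.log 2 i)) ∧
      lag a Bad j ≤ a ^ (Nat.log 2 i) * nb Bad i (j - i) := by
  classical
  have ha0 : 0 < a := by linarith
  obtain ⟨i, hij, h0, hs⟩ := lag_excursion (a := a) (Bad := Bad) j
  rcases hij.eq_or_lt with h | h
  · refine ⟨i, hij, Or.inl h, Or.inl h, ?_⟩
    rw [← h, h0]
    positivity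
  -- the step `i` is bad
  have hBi : Bad i := by
    by_contra hc
    have h1 := hs (i + 1) (by omega) (by omega)
    rw [Finset.sum_Ico_succ_top le_rfl, Finset.Ico_self, Finset.sum_empty, zero_add] at h1
    have h2 := lag_nonneg (Bad := Bad) ha0 (i + 1)
    unfold ep at h1
    rw [if_neg hc] at h1
    have h3 : 0 < a ^ (Nat.log 2 i) := by positivity
    linarith
  have hiL := hlow i hBi
  have hi1 : 1 ≤ i := Nat.one_le_two_pow.trans hiL
  set l := Nat.log 2 i with hl
  have hlL : L0 ≤ l := (Nat.le_log_iff_pow_le (by norm_num) (by omega)).2 hiL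
  have hRl := hR l hlL
  have hal : 0 < a ^ l := by positivity
  have hshort : j < i + Rl l := by
    by_contra hc
    push Not at hc
    have h1 := hs (i + Rl l) (by omega) hc
    have h2 := sum_ep_le (Bad := Bad) ha1 ha hl.symm hi1 hRl
    have h3 := lag_nonneg (Bad := Bad) ha0 (i + Rl l)
    have h4 := hb i hiL
    have h5 : (3 : ℝ) * nb Bad i (Rl l) < Rl l := by exact_mod_cast h4
    have h6 : a ^ (l + 1) = a ^ l * a := pow_succ a l
    rw [h6] at h2
    have h7 : a ^ l * nb Bad i (Rl l) - a ^ l * a * (Rl l - nb Bad i (Rl l)) =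
        a ^ l * (nb Bad i (Rl l) * (1 + a) - a * Rl l) := by ring
    rw [h7] at h2
    have h8 : (nb Bad i (Rl l) : ℝ) * (1 + a) - a * Rl l < 0 := by
      have h9 : (0 : ℝ) ≤ Rl l := by positivity
      nlinarith
    have := mul_neg_of_pos_of_neg hal h8
    linarith
  refine ⟨i, hij, Or.inr hiL, Or.inr hshort, ?_⟩
  have h1 := hs j hij le_rfl
  have e : i + (j - i) = j := by omega
  have h2 := sum_ep_le (Bad := Bad) ha1 ha (R := j - i) hl.symm hi1 (by omega)
  rw [e] at h2
  have h3 : (nb Bad i (j - i) : ℝ) ≤ ((j - i : ℕ) : ℝ) := by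
    have : nb Bad i (j - i) ≤ j - i := by
      unfold nb
      refine (Finset.card_filter_le _ _).trans ?_
      rw [Nat.card_Ico]
      omega
    exact_mod_cast this
  have h4 : 0 ≤ a ^ (l + 1) * (((j - i : ℕ) : ℝ) - nb Bad i (j - i)) :=
    mul_nonneg (by positivity) (by linarith)
  linarith

/-- the sum of the lags -/
theorem lag_sum (ha1 : a < 1) (ha : 1 / 2 < a) {L0 : ℕ} {Rl : ℕ → ℕ} (hlow : ∀ j, Bad j → 2 ^ L0 ≤ j)
    (hR : ∀ l, L0 ≤ l → Rl l ≤ 2 ^ l)
    (hb : ∀ i, 2 ^ L0 ≤ i → 3 * nb Bad i (Rl (Nat.log 2 i)) < Rl (Nat.log 2 i))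
    {l g i0 R' : ℕ} (hl : 1 ≤ l) (hi0 : 2 ^ l ≤ i0) (hi1 : i0 + g ≤ 2 ^ (l + 2)) (hR' : R' ≤ 2 ^ (l - 1))
    (hRR : ∀ l' ≤ l + 1, Rl l' ≤ R') {Bm : ℝ} (hBm : 0 ≤ Bm)
    (hm : ∀ m, i0 - R' ≤ m → m ≤ i0 → (nb Bad m g : ℝ) ≤ Bm) :
    ∑ j ∈ Finset.Ico i0 (i0 + g), lag a Bad j ≤ a ^ (l - 1) * (R' * Bm) := by
  classical
  have ha0 : 0 < a := by linarith
  have h2l : 2 ^ l = 2 ^ (l - 1) + 2 ^ (l - 1) := by
    obtain ⟨l', rfl⟩ : ∃ l', l = l' + 1 := ⟨l - 1, by omega⟩
    simp only [Nat.add_sub_cancel]; ring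
  have hal : 0 < a ^ (l - 1) := by positivity
  -- one lag
  have h1 : ∀ j ∈ Finset.Ico i0 (i0 + g), lag a Bad j ≤
      a ^ (l - 1) * ∑ t ∈ Finset.Icc 1 R', if Bad (j - t) then (1 : ℝ) else 0 := by
    intro j hj
    rw [Finset.mem_Ico] at hj
    obtain ⟨i, hij, c1, c2, c3⟩ := lag_short (a := a) ha1 ha hlow hR hb j
    rcases hij.eq_or_lt with h | h
    · subst h
      have : lag a Bad i ≤ 0 := by
        refine c3.trans (le_of_eq ?_)
        simp [nb]
      refine this.trans (mul_nonneg hal.le (Finset.sum_nonneg fun t _ => ?_))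
      split_ifs <;> norm_num
    · have hlog : Nat.log 2 i ≤ l + 1 := by
        refine Nat.lt_succ_iff.1 (Nat.log_lt_of_lt_pow ?_ ?_)
        · rcases c1 with h' | h'
          · omega
          · have := Nat.one_le_two_pow (n := L0); omega
        · show i < 2 ^ (l + 1 + 1)
          have : 2 ^ (l + 1 + 1) = 2 ^ (l + 2) := by ring
          omega
      have hjR : j < i + R' := by
        rcases c2 with h' | h'
        · omega
        · have := hRR _ hlog; omega
      have hi2 : 2 ^ (l - 1) ≤ i := by omega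
      have hli : l - 1 ≤ Nat.log 2 i := (Nat.le_log_iff_pow_le (by norm_num) (by
        have := Nat.one_le_two_pow (n := l - 1); omega)).2 hi2
      have hai : a ^ (Nat.log 2 i) ≤ a ^ (l - 1) := pow_le_pow_of_le_one ha0.le ha1.le hli
      refine c3.trans ?_
      have hnb : (nb Bad i (j - i) : ℝ) ≤ ∑ t ∈ Finset.Icc 1 R', if Bad (j - t) then (1 : ℝ) else 0 := by
        rw [Finset.sum_boole]
        unfold nb
        have e : i + (j - i) = j := by omega
        rw [e]
        have : ((Finset.Ico i j).filter fun t => Bad t).card ≤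
            ((Finset.Icc 1 R').filter fun t => Bad (j - t)).card := by
          refine Finset.card_le_card_of_injOn (fun t => j - t) ?_ ?_
          · intro t ht
            rw [Finset.mem_coe, Finset.mem_filter, Finset.mem_Ico] at ht
            show j - t ∈ (((Finset.Icc 1 R').filter fun t => Bad (j - t)) : Finset ℕ)
            rw [Finset.mem_filter, Finset.mem_Icc]
            have e2 : j - (j - t) = t := by omega
            refine ⟨by omega, ?_⟩
            rw [e2]
            exact ht.2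
          · intro t ht t' ht' he
            rw [Finset.mem_coe, Finset.mem_filter, Finset.mem_Ico] at ht ht'
            have he' : j - t = j - t' := he
            omega
        exact_mod_cast this
      calc a ^ (Nat.log 2 i) * (nb Bad i (j - i) : ℝ) ≤ a ^ (l - 1) * (nb Bad i (j - i) : ℝ) := by gcongr
        _ ≤ _ := mul_le_mul_of_nonneg_left hnb hal.le
  refine (Finset.sum_le_sum h1).trans ?_
  rw [← Finset.mul_sum]
  refine mul_le_mul_of_nonneg_left ?_ hal.le
  rw [Finset.sum_comm]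
  have h2 : ∀ t ∈ Finset.Icc 1 R', (∑ j ∈ Finset.Ico i0 (i0 + g), if Bad (j - t) then (1 : ℝ) else 0) ≤ Bm := by
    intro t ht
    rw [Finset.mem_Icc] at ht
    rw [Finset.sum_boole]
    refine le_trans ?_ (hm (i0 - t) (by omega) (by omega))
    unfold nb
    have : ((Finset.Ico i0 (i0 + g)).filter fun j => Bad (j - t)).card ≤
        ((Finset.Ico (i0 - t) (i0 - t + g)).filter fun t => Bad t).card := by
      refine Finset.card_le_card_of_injOn (fun j => j - t) ?_ ?_
      · intro j hj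
        rw [Finset.mem_coe, Finset.mem_filter, Finset.mem_Ico] at hj
        show j - t ∈ (((Finset.Ico (i0 - t) (i0 - t + g)).filter fun t => Bad t) : Finset ℕ)
        rw [Finset.mem_filter, Finset.mem_Ico]
        exact ⟨by omega, hj.2⟩
      · intro j hj j' hj' he
        rw [Finset.mem_coe, Finset.mem_filter, Finset.mem_Ico] at hj hj'
        have he' : j - t = j' - t := he
        omega
    exact_mod_cast this
  refine (Finset.sum_le_sum h2).trans ?_
  rw [Finset.sum_const, Nat.card_Icc, nsmul_eq_mul]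
  have : R' + 1 - 1 = R' := by omega
  rw [this]

end Pool.Agent.J6H35.TL
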