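import Pool.Agent.J6H35.TL.Stm6
import Pool.Agent.J6H27.AD.Sep5

/-!
# The uncorrected paths are separated: `r ≥ 1` directions with constant velocities (uses lemmas of helper27)
-/

set_option autoImplicit false

open Set Filter Topology

namespace Pool.Agent.J6H35.TL

open Pool.Agent.N980.TL Pool.Agent.J6H70.AD Pool.Agent.J6H27.AD

/-- the numerical facts for a large scale -/
structure Num6 (a ρ τ c1 B0 : ℝ) (l : ℕ) : Prop where
  n1 : 3072 * B0 * ((l : ℝ) + 4) ^ 2 * (1 / (2 * a)) ^ l < 1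
  n2 : 3 * B0 * (ρ ^ l + (1 / (2 * a)) ^ l) * (128 * ((l : ℝ) + 4) ^ 2) < 1
  n3 : 13 * B0 * ρ ^ l * (1024 * B0 * (2 * ρ) ^ l * ((l : ℝ) + 4) ^ 2) ^ τ < c1

theorem num6_large {a ρ τ c1 B0 : ℝ} (ha : 1 / 2 < a) (hρ0 : 0 < ρ) (hρ1 : ρ < 1) (hτ : 0 < τ) (hc1 : 0 < c1)
    (hB : 1 ≤ B0) (h : ρ * (2 * ρ) ^ τ < 1) : ∃ L : ℕ, ∀ l, L ≤ l → Num6 a ρ τ c1 B0 l := by
  have hq0 : 0 < 1 / (2 * a) := by positivity
  have hq1 : 1 / (2 * a) < 1 := by
    rw [div_lt_one (by linarith)]; linarith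
  -- polynomial times geometric tends to zero
  have key : ∀ (m : ℕ) (q : ℝ), 0 ≤ q → q < 1 →
      Tendsto (fun l : ℕ => ((l : ℝ) + 4) ^ m * q ^ l) atTop (𝓝 0) := by
    intro m q h0 h1
    rcases h0.eq_or_lt with h0 | h0
    · subst h0
      refine tendsto_const_nhds.congr' ?_
      filter_upwards [eventually_ge_atTop 1] with l hl
      rw [zero_pow (by omega), mul_zero]
    have h2 := tendsto_pow_const_mul_const_pow_of_lt_one m h0.le h1
    have h3 := (h2.comp (tendsto_add_atTop_nat 4)).mul_const ((q ^ 4)⁻¹)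
    rw [zero_mul] at h3
    refine h3.congr fun l => ?_
    simp only [Function.comp, pow_add]
    push_cast
    field_simp
  have t1 := (key 2 _ hq0.le hq1).const_mul (3072 * B0)
  have t2 := ((key 2 _ hq0.le hq1).add (key 2 ρ hρ0.le hρ1)).const_mul (3 * B0 * 128)
  rw [mul_zero] at t1
  rw [add_zero, mul_zero] at t2
  obtain ⟨N, hN⟩ := exists_nat_ge (2 * τ)
  have hs0 : 0 ≤ ρ * (2 * ρ) ^ τ := by positivity
  have t3 := (key N _ hs0 h).const_mul (13 * B0 * (1024 * B0) ^ τ)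
  rw [mul_zero] at t3
  have e := ((t1.eventually_lt_const one_pos).and (t2.eventually_lt_const one_pos)).and
    (t3.eventually_lt_const hc1)
  obtain ⟨L, hL⟩ := eventually_atTop.1 e
  refine ⟨L, fun l hl => ?_⟩
  obtain ⟨⟨h1, h2⟩, h3⟩ := hL l hl
  refine ⟨by linarith, by linarith, ?_⟩
  refine lt_of_le_of_lt ?_ h3
  have hl4 : (1 : ℝ) ≤ (l : ℝ) + 4 := by
    have : (0 : ℝ) ≤ l := Nat.cast_nonneg l
    linarith
  have e1 : (1024 * B0 * (2 * ρ) ^ l * ((l : ℝ) + 4) ^ 2) ^ τ =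
      (1024 * B0) ^ τ * ((2 * ρ) ^ τ) ^ l * (((l : ℝ) + 4) ^ 2) ^ τ := by
    rw [Real.mul_rpow (by positivity) (by positivity), Real.mul_rpow (by positivity) (by positivity)]
    congr 2
    rw [← Real.rpow_natCast, ← Real.rpow_natCast, ← Real.rpow_mul (by positivity), ← Real.rpow_mul (by positivity)]
    congr 1
    ring
  have e2 : (((l : ℝ) + 4) ^ 2) ^ τ ≤ ((l : ℝ) + 4) ^ N := by
    rw [← Real.rpow_natCast, ← Real.rpow_natCast, ← Real.rpow_mul (by positivity)]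
    refine Real.rpow_le_rpow_of_exponent_le hl4 ?_
    push_cast
    linarith
  rw [e1]
  calc 13 * B0 * ρ ^ l * ((1024 * B0) ^ τ * ((2 * ρ) ^ τ) ^ l * (((l : ℝ) + 4) ^ 2) ^ τ)
      ≤ 13 * B0 * ρ ^ l * ((1024 * B0) ^ τ * ((2 * ρ) ^ τ) ^ l * ((l : ℝ) + 4) ^ N) := by gcongr
    _ = 13 * B0 * (1024 * B0) ^ τ * (((l : ℝ) + 4) ^ N * (ρ * (2 * ρ) ^ τ) ^ l) := by
        rw [mul_pow]; ring

theorem sep6 {r : ℕ} {a ρ τ c1 B0 : ℝ} (ha : 1 / 2 < a) (ha1 : a < 1) (hρ0 : 0 < ρ) (hρ1 : ρ < 1) (hτ : 0 < τ)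
    (hc1 : 0 < c1) (hB : 1 ≤ B0) (h : ρ * (2 * ρ) ^ τ < 1) (w : Fin r → ℝ)
    (hD : ∀ l : ℕ, 1 ≤ l → ∃ i, c1 * (l : ℝ) ^ (-τ) ≤ |Real.sin (Real.pi * (l * w i))|) :
    ∃ L : ℕ, ∀ (P U A : ℕ → E (r + 2)), (∀ j, U (j + 1) = U j + A j) →
      (∀ j, P (j + 1) = P j + U j + kap • A j) →
      (∀ l, ∀ j ∈ Finset.Ico (2 ^ l) (2 ^ (l + 1)), 0 ≤ A j 0 ∧ A j 0 ≤ a ^ l) →
      (∀ j, U j 1 = uu (1 / 32) j) → P 0 1 = 0 → (∀ (i : Fin r) (j : ℕ), U j i.succ.succ = w i) →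
      ∀ i j, 2 ^ L ≤ i → i < j → ∀ σ : ℝ, -1 ≤ σ → σ ≤ 1 →
        let z := pos (P j) (U j) (A j) σ - pos (P i) (U i) (A i) σ
        let Δ := B0 * (ρ ^ (Nat.log 2 i) + ρ ^ (Nat.log 2 j) +
          min 1 (‖U j - U i‖ + ‖A i‖ + ‖A j‖) / ((2 * a) ^ (Nat.log 2 i)) ^ 2)
        ¬ ∀ m, ∃ b : ℤ, |z m - b| ≤ Δ := by
  obtain ⟨L, hL⟩ := num6_large ha hρ0 hρ1 hτ hc1 hB h
  have hf := fn_all
  obtain ⟨hu1, hu2, hu3, hu4, hu5, -⟩ := uu_all (1 / 32) (by norm_num) (by norm_num)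
  have huz := uu_zero_le (c0 := 1 / 32) (by norm_num)
  have huanti := uu_anti (c0 := 1 / 32) (by norm_num)
  have hB0 : 0 < B0 := by linarith
  have ha0 : 0 < a := by linarith
  refine ⟨L, ?_⟩
  intro P U A hU hP hA0 hU1 hP1 hUr i j hi hij σ hσ0 hσ1 z Δ
  obtain ⟨t1, t2, t3⟩ := th_bd hf hσ0 hσ1
  have hk := kap_le hf
  -- componentwise recursions
  have U1 : ∀ m j, U (j + 1) m = U j m + A j m := fun m j => by rw [hU]; rfl
  have P1 : ∀ m j, P (j + 1) m = P j m + U j m + kap * A j m := fun m j => by rw [hP]; rfl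
  have A1e : ∀ j, A j 1 = uu (1 / 32) (j + 1) - uu (1 / 32) j := fun j => by
    have := U1 1 j
    rw [hU1, hU1] at this
    linarith
  have A1 : ∀ j, A j 1 ≤ 0 := fun j => by
    rw [A1e]
    linarith [hu1 j]
  have Ar : ∀ (i : Fin r) (j : ℕ), A j i.succ.succ = 0 := fun i j => by
    have := U1 i.succ.succ j
    rw [hUr, hUr] at this
    linarith
  -- the scale
  have hi0 : 1 ≤ i := le_trans Nat.one_le_two_pow hi
  set l := Nat.log 2 i with hl
  have hl1 : 2 ^ l ≤ i := Nat.pow_log_le_self 2 (by omega)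
  have hl2 : i < 2 ^ (l + 1) := Nat.lt_pow_succ_log_self (by norm_num) i
  have hll : L ≤ l := (Nat.le_log_iff_pow_le (by norm_num) (by omega)).2 hi
  have hnum := hL l hll
  have hl0 : (0 : ℝ) ≤ l := Nat.cast_nonneg l
  have hpos4 : (0 : ℝ) < ((l : ℝ) + 4) ^ 2 := by positivity
  -- scales of later indices
  have hlater : ∀ k, i ≤ k → l ≤ Nat.log 2 k ∧
      k ∈ Finset.Ico (2 ^ (Nat.log 2 k)) (2 ^ (Nat.log 2 k + 1)) := by
    intro k hk
    refine ⟨Nat.log_mono_right hk, ?_⟩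
    rw [Finset.mem_Ico]
    exact ⟨Nat.pow_log_le_self 2 (by omega), Nat.lt_pow_succ_log_self (by norm_num) k⟩
  have A0b : ∀ k, i ≤ k → 0 ≤ A k 0 ∧ A k 0 ≤ a ^ l := fun k hk => by
    obtain ⟨h1, h2⟩ := hlater k hk
    obtain ⟨h3, h4⟩ := hA0 _ k h2
    exact ⟨h3, h4.trans (pow_le_pow_of_le_one ha0.le ha1.le h1)⟩
  have A1b : ∀ k, i ≤ k → uu (1 / 32) k - uu (1 / 32) (k + 1) ≤ a ^ l := fun k hk => by
    obtain ⟨h1, h2⟩ := hlater k hk
    have h3 := hu4 k (by omega)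
    refine h3.trans ?_
    have h4 : ww (1 / 32) (Nat.log 2 k) ≤ 1 := by
      unfold ww
      rw [div_le_one (by positivity)]
      have h5 : (1 : ℝ) ≤ 2 ^ (Nat.log 2 k) := one_le_pow₀ (by norm_num)
      have h6 : (1 : ℝ) ≤ ((Nat.log 2 k : ℝ) + 1) ^ 2 := by
        apply one_le_pow₀
        have : (0 : ℝ) ≤ (Nat.log 2 k : ℝ) := by positivity
        linarith
      nlinarith
    have h7 : (1 : ℝ) / 2 ^ (Nat.log 2 k) ≤ a ^ (Nat.log 2 k) := by
      rw [← one_div_pow]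
      exact pow_le_pow_left₀ (by norm_num) ha.le _
    calc ww (1 / 32) (Nat.log 2 k) / 2 ^ (Nat.log 2 k) ≤ 1 / 2 ^ (Nat.log 2 k) := by gcongr
      _ ≤ a ^ (Nat.log 2 k) := h7
      _ ≤ a ^ l := pow_le_pow_of_le_one ha0.le ha1.le h1
  have hal : 0 < a ^ l := by positivity
  have hAn : ∀ k, i ≤ k → ‖A k‖ ≤ a ^ l := by
    intro k hk
    rw [pi_norm_le_iff_of_nonneg hal.le]
    intro m
    rw [Real.norm_eq_abs]
    refine Fin.cases ?_ (fun m => ?_) m
    · rw [abs_of_nonneg (A0b k hk).1]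
      exact (A0b k hk).2
    · refine Fin.cases ?_ (fun m => ?_) m
      · have e1 : (Fin.succ (0 : Fin (r + 1))) = (1 : Fin (r + 2)) := rfl
        rw [e1, A1e, abs_sub_comm, abs_of_nonneg (by linarith [hu1 k])]
        exact A1b k hk
      · rw [Ar, abs_zero]
        exact hal.le
  -- the slow coordinate
  obtain ⟨g, rfl⟩ : ∃ g, j = i + g := ⟨j - i, by omega⟩
  have hg0 : 1 ≤ g := by omega
  have hg1 : (1 : ℝ) ≤ g := by exact_mod_cast hg0
  have slow : ∀ g : ℕ, (g : ℝ) * uu (1 / 32) (i + g + 1) ≤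
      pos (P (i + g)) (U (i + g)) (A (i + g)) σ 1 - pos (P i) (U i) (A i) σ 1 := by
    intro g
    have := slow_sep5 hf (P := fun j => P j 1) (U := fun j => U j 1) (A := fun j => A j 1)
      (U1 1) (P1 1) A1 hσ0 hσ1 i g
    simp only [hU1 (i + g + 1)] at this
    exact this
  have hmono : Monotone (fun j => pos (P j) (U j) (A j) σ 1) := by
    refine monotone_nat_of_le_succ fun j => ?_
    have := slow_step5 hf (P := fun j => P j 1) (U := fun j => U j 1) (A := fun j => A j 1)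
      (U1 1) (P1 1) A1 hσ0 hσ1 j
    have h0 : 0 ≤ U (j + 2) 1 := by rw [hU1]; exact (hu2 _).1.le
    simp only [pos]
    linarith
  have slowP : ∀ j, 0 ≤ P j 1 ∧ P j 1 ≤ ∑ i ∈ Finset.range j, uu (1 / 32) i := by
    intro j
    induction j with
    | zero => simp [hP1]
    | succ j ih =>
      rw [P1, Finset.sum_range_succ, hU1]
      have a1 := A1 j
      have a2 : 0 ≤ uu (1 / 32) j + A j 1 := by
        have := U1 1 j
        rw [hU1, hU1] at this
        linarith [(hu2 (j + 1)).1]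
      have a3 : kap * A j 1 ≤ 0 := mul_nonpos_of_nonneg_of_nonpos hk.1 a1
      have a4 : A j 1 ≤ kap * A j 1 := by nlinarith
      constructor <;> linarith [ih.1, ih.2]
  have hz1 : z 1 = pos (P (i + g)) (U (i + g)) (A (i + g)) σ 1 - pos (P i) (U i) (A i) σ 1 := rfl
  have hz1nn : 0 ≤ z 1 := by
    rw [hz1]
    exact sub_nonneg.2 (hmono (by omega))
  have hz1le : z 1 ≤ 1 / 2 := by
    rw [hz1]
    have hup : ∀ j, pos (P j) (U j) (A j) σ 1 ≤ 1 / 4 := by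
      intro j
      have b1 := (slowP j).2
      have b2 := hu5 (j + 1)
      rw [Finset.sum_range_succ] at b2
      have b3 := (hu2 j).1
      have b4 : th σ * A j 1 ≤ 0 := mul_nonpos_of_nonneg_of_nonpos t1 (A1 j)
      simp only [pos, hU1]
      nlinarith
    have hlo : ∀ j, -(1 / 8) ≤ pos (P j) (U j) (A j) σ 1 := by
      intro j
      have b1 := (slowP j).1
      have b3 := (hu2 j).1
      have b5 : uu (1 / 32) j ≤ 1 / 16 := by
        have := huanti (Nat.zero_le j)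
        linarith
      have b6 : -uu (1 / 32) j ≤ A j 1 := by
        have := U1 1 j
        rw [hU1, hU1] at this
        linarith [(hu2 (j + 1)).1]
      have b7 : A j 1 ≤ th σ * A j 1 := by nlinarith [A1 j]
      simp only [pos, hU1]
      nlinarith
    linarith [hup (i + g), hlo i]
  intro hall
  -- consequence for the slow coordinate
  have hz1Δ : z 1 ≤ Δ := by
    obtain ⟨b, hb⟩ := hall 1
    rcases le_or_gt b 0 with hb0 | hb0
    · have h1 : (b : ℝ) ≤ 0 := by exact_mod_cast hb0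
      have := (abs_le.1 hb).2
      linarith
    · have h1 : (1 : ℝ) ≤ b := by exact_mod_cast hb0
      have := (abs_le.1 hb).1
      linarith
  -- the velocity differences
  have f := fast_sep5 hf (P := fun j => P j 0) (U := fun j => U j 0) (A := fun j => A j 0)
    (U1 0) (P1 0) A0b hσ0 hσ1 g
  obtain ⟨⟨f1, f2⟩, f3⟩ := f
  have huu : ∀ g : ℕ, uu (1 / 32) i - uu (1 / 32) (i + g) ≤ g * a ^ l := by
    intro g
    induction g with
    | zero => simp
    | succ g ih =>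
      have h1 := A1b (i + g) (by omega)
      rw [show i + (g + 1) = i + g + 1 by ring]
      push_cast
      linarith
  have hnorm : ‖U (i + g) - U i‖ ≤ g * a ^ l := by
    rw [pi_norm_le_iff_of_nonneg (by positivity)]
    intro m
    rw [Pi.sub_apply, Real.norm_eq_abs]
    refine Fin.cases ?_ (fun m => ?_) m
    · rw [abs_of_nonneg f1]
      exact f2
    · refine Fin.cases ?_ (fun m => ?_) m
      · have e1 : (Fin.succ (0 : Fin (r + 1))) = (1 : Fin (r + 2)) := rfl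
        rw [e1, hU1, hU1, abs_sub_comm, abs_of_nonneg (by linarith [huanti (by omega : i ≤ i + g)])]
        exact huu g
      · rw [hUr, hUr, sub_self, abs_zero]
        positivity
  -- the radii
  obtain ⟨hj1, hj3⟩ := hlater (i + g) (by omega)
  set l' := Nat.log 2 (i + g) with hl'
  have hρl : 0 < ρ ^ l := by positivity
  have hρl' : ρ ^ l' ≤ ρ ^ l := pow_le_pow_of_le_one hρ0.le hρ1.le hj1
  have hV0 : 0 < ((2 * a) ^ l) ^ 2 := by positivity
  set q : ℝ := (1 / (2 * a)) ^ l with hq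
  have hq0 : 0 < q := by positivity
  have hq1 : q ≤ 1 := pow_le_one₀ (by positivity) (by rw [div_le_one (by linarith)]; linarith)
  have hVq : 1 / ((2 * a) ^ l) ^ 2 = q ^ 2 := by
    rw [hq, one_div_pow, one_div_pow]
  have hmin1 : min 1 (‖U (i + g) - U i‖ + ‖A i‖ + ‖A (i + g)‖) / ((2 * a) ^ l) ^ 2 ≤ q := by
    have : min 1 (‖U (i + g) - U i‖ + ‖A i‖ + ‖A (i + g)‖) ≤ 1 := min_le_left _ _
    calc _ ≤ 1 / ((2 * a) ^ l) ^ 2 := by gcongr
      _ = q ^ 2 := hVq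
      _ ≤ q := by nlinarith
  have haq : a ^ l / ((2 * a) ^ l) ^ 2 = q / 2 ^ l := by
    rw [hq, one_div_pow, mul_pow]
    field_simp
  have hmin2 : min 1 (‖U (i + g) - U i‖ + ‖A i‖ + ‖A (i + g)‖) / ((2 * a) ^ l) ^ 2 ≤ 3 * g * (q / 2 ^ l) := by
    have h1 : min 1 (‖U (i + g) - U i‖ + ‖A i‖ + ‖A (i + g)‖) ≤ 3 * g * a ^ l := by
      refine (min_le_right _ _).trans ?_
      have a1 := hAn i le_rfl
      have a2 := hAn (i + g) (by omega)
      nlinarith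
    calc _ ≤ (3 * g * a ^ l) / ((2 * a) ^ l) ^ 2 := by gcongr
      _ = 3 * g * (a ^ l / ((2 * a) ^ l) ^ 2) := by ring
      _ = _ := by rw [haq]
  have hΔ : Δ = B0 * (ρ ^ l + ρ ^ l' +
      min 1 (‖U (i + g) - U i‖ + ‖A i‖ + ‖A (i + g)‖) / ((2 * a) ^ l) ^ 2) := rfl
  have hw3 : ww (1 / 32) (l + 3) = 1 / (256 * 2 ^ l * ((l : ℝ) + 4) ^ 2) := by
    unfold ww
    have e : (2 : ℝ) ^ (l + 3) = 8 * 2 ^ l := by ring
    have e2 : (((l + 3 : ℕ) : ℝ) + 1) = (l : ℝ) + 4 := by push_cast; ring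
    rw [e, e2]
    field_simp
    norm_num
  have hw0 : 0 < ww (1 / 32) (l + 3) := by unfold ww; positivity
  by_cases hfar : 2 ^ (l + 2) < i + g
  · -- far away
    have s1 := slow (2 ^ (l + 2) - i)
    have e1 : i + (2 ^ (l + 2) - i) = 2 ^ (l + 2) := by
      have : 2 ^ (l + 2) = 2 * 2 ^ (l + 1) := by ring
      omega
    rw [e1] at s1
    have s2 : ww (1 / 32) (l + 3) ≤ uu (1 / 32) (2 ^ (l + 2) + 1) := by
      refine hu3 (l + 2) _ ?_
      have h1 : 2 ^ (l + 2 + 1) = 2 * 2 ^ (l + 2) := by ring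
      have h2 : 2 ≤ 2 ^ (l + 2) := by
        calc 2 = 2 ^ 1 := by norm_num
          _ ≤ 2 ^ (l + 2) := Nat.pow_le_pow_right (by norm_num) (by omega)
      omega
    have s3 : (2 : ℝ) ^ (l + 1) ≤ ((2 ^ (l + 2) - i : ℕ) : ℝ) := by
      have h1 : 2 ^ (l + 1) ≤ 2 ^ (l + 2) - i := by
        have : 2 ^ (l + 2) = 2 * 2 ^ (l + 1) := by ring
        omega
      exact_mod_cast h1
    have s4 : pos (P (2 ^ (l + 2))) (U (2 ^ (l + 2))) (A (2 ^ (l + 2))) σ 1 ≤
        pos (P (i + g)) (U (i + g)) (A (i + g)) σ 1 := hmono hfar.le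
    have s5 : 2 ^ (l + 1) * ww (1 / 32) (l + 3) ≤ z 1 := by
      rw [hz1]
      have : (2 : ℝ) ^ (l + 1) * ww (1 / 32) (l + 3) ≤
          ((2 ^ (l + 2) - i : ℕ) : ℝ) * uu (1 / 32) (2 ^ (l + 2) + 1) :=
        mul_le_mul s3 s2 hw0.le (by positivity)
      linarith
    have s6 : (2 : ℝ) ^ (l + 1) * ww (1 / 32) (l + 3) = 1 / (128 * ((l : ℝ) + 4) ^ 2) := by
      rw [hw3, pow_succ]
      field_simp
      norm_num
    have s7 : Δ ≤ 3 * B0 * (ρ ^ l + q) := by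
      rw [hΔ]
      calc B0 * (ρ ^ l + ρ ^ l' + min 1 (‖U (i + g) - U i‖ + ‖A i‖ + ‖A (i + g)‖) / ((2 * a) ^ l) ^ 2)
          ≤ B0 * (ρ ^ l + ρ ^ l + q) := by
            apply mul_le_mul_of_nonneg_left _ hB0.le
            linarith
        _ ≤ 3 * B0 * (ρ ^ l + q) := by nlinarith
    have s8 := hnum.n2
    rw [← hq] at s8
    have s9 : 3 * B0 * (ρ ^ l + q) < 1 / (128 * ((l : ℝ) + 4) ^ 2) := by
      rw [lt_div_iff₀ (by positivity)]
      exact s8
    linarith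
  push Not at hfar
  have s1 := slow g
  have s2 : ww (1 / 32) (l + 3) ≤ uu (1 / 32) (i + g + 1) := by
    refine hu3 (l + 2) _ ?_
    have h1 : 2 ^ (l + 2 + 1) = 2 * 2 ^ (l + 2) := by ring
    have h2 : 2 ≤ 2 ^ (l + 2) := by
      calc 2 = 2 ^ 1 := by norm_num
        _ ≤ 2 ^ (l + 2) := Nat.pow_le_pow_right (by norm_num) (by omega)
    omega
  have s4 : (g : ℝ) * ww (1 / 32) (l + 3) ≤ z 1 := by
    rw [hz1]
    have h2 : (g : ℝ) * ww (1 / 32) (l + 3) ≤ g * uu (1 / 32) (i + g + 1) :=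
      mul_le_mul_of_nonneg_left s2 (by linarith)
    linarith
  -- the correction term is smaller than the drift
  have hn1 : B0 * (3 * g * (q / 2 ^ l)) ≤ g * ww (1 / 32) (l + 3) / 4 := by
    have h1 := hnum.n1
    rw [← hq] at h1
    have h2 : B0 * (3 * (q / 2 ^ l)) ≤ ww (1 / 32) (l + 3) / 4 := by
      have h3 : B0 * (3 * (q / 2 ^ l)) =
          (3072 * B0 * ((l : ℝ) + 4) ^ 2 * q) * (1 / (1024 * 2 ^ l * ((l : ℝ) + 4) ^ 2)) := by
        field_simp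
        norm_num
      have h4 : ww (1 / 32) (l + 3) / 4 = 1 * (1 / (1024 * 2 ^ l * ((l : ℝ) + 4) ^ 2)) := by
        rw [hw3]
        field_simp
        norm_num
      rw [h3, h4]
      exact mul_le_mul_of_nonneg_right h1.le (by positivity)
    calc B0 * (3 * g * (q / 2 ^ l)) = g * (B0 * (3 * (q / 2 ^ l))) := by ring
      _ ≤ g * (ww (1 / 32) (l + 3) / 4) := mul_le_mul_of_nonneg_left h2 (by linarith)
      _ = _ := by ring
  have hΔ2 : Δ ≤ 2 * (B0 * ρ ^ l) + g * ww (1 / 32) (l + 3) / 4 := by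
    rw [hΔ]
    calc B0 * (ρ ^ l + ρ ^ l' + min 1 (‖U (i + g) - U i‖ + ‖A i‖ + ‖A (i + g)‖) / ((2 * a) ^ l) ^ 2)
        ≤ B0 * (ρ ^ l + ρ ^ l + 3 * g * (q / 2 ^ l)) := by
          apply mul_le_mul_of_nonneg_left _ hB0.le
          linarith
      _ = 2 * (B0 * ρ ^ l) + B0 * (3 * g * (q / 2 ^ l)) := by ring
      _ ≤ _ := by linarith
  have hBρ : 0 < B0 * ρ ^ l := by positivity
  -- few steps
  have hg4 : (g : ℝ) * ww (1 / 32) (l + 3) ≤ 4 * (B0 * ρ ^ l) := by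
    by_contra hc
    push Not at hc
    linarith
  have hΔ3 : Δ ≤ 4 * (B0 * ρ ^ l) := by linarith
  have hgle : (g : ℝ) ≤ 1024 * B0 * (2 * ρ) ^ l * ((l : ℝ) + 4) ^ 2 := by
    rw [hw3, mul_one_div, div_le_iff₀ (by positivity)] at hg4
    refine hg4.trans (le_of_eq ?_)
    rw [mul_pow]
    ring
  obtain ⟨m, hm⟩ := hD g hg0
  obtain ⟨b, hb⟩ := hall m.succ.succ
  have hzm : z m.succ.succ = g * w m := by
    have hPr : ∀ j : ℕ, P j m.succ.succ = P 0 m.succ.succ + j * w m := by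
      intro j
      induction j with
      | zero => simp
      | succ j ih =>
        rw [P1, ih, hUr, Ar]
        push_cast
        ring
    show pos (P (i + g)) (U (i + g)) (A (i + g)) σ m.succ.succ - pos (P i) (U i) (A i) σ m.succ.succ = _
    simp only [pos]
    rw [hPr (i + g), hPr i, hUr, hUr, Ar, Ar]
    push_cast
    ring
  have hsin : |Real.sin (Real.pi * (g * w m))| ≤ Real.pi * Δ := by
    rw [← hzm]
    have e1 : Real.sin (Real.pi * z m.succ.succ) =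
        (-1) ^ b * Real.sin (Real.pi * (z m.succ.succ - b)) := by
      have e2 : Real.pi * (z m.succ.succ - b) = Real.pi * z m.succ.succ - b * Real.pi := by ring
      rw [e2, Real.sin_sub_int_mul_pi, ← mul_assoc, ← mul_zpow]
      norm_num
    rw [e1, abs_mul, abs_zpow, abs_neg, abs_one, one_zpow, one_mul]
    refine (Real.abs_sin_le_abs (x := Real.pi * (z m.succ.succ - b))).trans ?_
    rw [abs_mul, abs_of_pos Real.pi_pos]
    exact mul_le_mul_of_nonneg_left hb Real.pi_pos.le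
  have hgp : (0 : ℝ) < g := by linarith
  have k1 : c1 ≤ 13 * B0 * ρ ^ l * (g : ℝ) ^ τ := by
    have h1 : c1 * (g : ℝ) ^ (-τ) ≤ Real.pi * (4 * (B0 * ρ ^ l)) :=
      (hm.trans hsin).trans (mul_le_mul_of_nonneg_left hΔ3 Real.pi_pos.le)
    have h2 : Real.pi * (4 * (B0 * ρ ^ l)) ≤ 13 * (B0 * ρ ^ l) := by nlinarith [Real.pi_lt_d2]
    have h3 : (0 : ℝ) < (g : ℝ) ^ τ := Real.rpow_pos_of_pos hgp _
    rw [Real.rpow_neg hgp.le] at h1
    have h4 : c1 * ((g : ℝ) ^ τ)⁻¹ * (g : ℝ) ^ τ = c1 := by field_simp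
    rw [← h4]
    have h5 := mul_le_mul_of_nonneg_right (h1.trans h2) h3.le
    linarith
  have k2 : (g : ℝ) ^ τ ≤ (1024 * B0 * (2 * ρ) ^ l * ((l : ℝ) + 4) ^ 2) ^ τ :=
    Real.rpow_le_rpow hgp.le hgle hτ.le
  have k3 : 13 * B0 * ρ ^ l * (g : ℝ) ^ τ ≤
      13 * B0 * ρ ^ l * (1024 * B0 * (2 * ρ) ^ l * ((l : ℝ) + 4) ^ 2) ^ τ :=
    mul_le_mul_of_nonneg_left k2 (by positivity)
  linarith [hnum.n3]

end Pool.Agent.J6H35.TL
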