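import Pool.Agent.J6H35.TL.Seq6
import Pool.Agent.J6H35.TL.Sep6
import Pool.Agent.J6H35.TL.Eng6

/-!
# Main theorem for trigonometric polynomials, `C^k` (adapted from `J6H59/AD/M5.lean` of helper59)
-/

set_option autoImplicit false

open Set Filter Topology MeasureTheory
open scoped ContDiff

noncomputable section

namespace Pool.Agent.J6H35.TL

open Pool.Agent.N980.TL Pool.Agent.J6H70.AD Pool.Agent.J6H59.AD

theorem nrs_mono {n S : ℕ} {c1 C1 V V' : ℝ} {w : Fin n → ℝ} (hc : 0 ≤ c1) (h : NRS S c1 C1 V' w)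
    (hV : V ≤ V') (hw : ‖w‖ ≤ C1 * V) : NRS S c1 C1 V w :=
  ⟨fun k m hk h1 h2 => (mul_le_mul_of_nonneg_left hV hc).trans (h.1 k m hk h1 h2), hw⟩

theorem main6 (hf : S_FN) (hBND : S_BND6) (hPer : S_PER3) (hSum : S_SUM) (hNrm : S_NRM) (hLam : S_LAM)
    (hUU : S_UU) (hSeq : S_SEQ) (hDio : S_DIO) (hAVG : S_AVG6) (hGAM : S_GAM6) (hCOL : S_COL5)
    (k r : ℕ) (hk2 : 2 ≤ k) (hkr : k ≤ r + 1) (δ : ℝ) (hδ0 : 0 < δ)
    (hδ : δ < (r + 2 - k) / ((r + 1) * (k + 1)))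
    (N0 : ℕ) (D0 : Trig (r + 2) N0) (ε : ℝ) (hε : 0 < ε) (Vmin : ℝ) :
    ∃ (F : Z (r + 2) → ℝ) (γ : ℝ → Fin (r + 2) → ℝ),
      ContDiff ℝ k F ∧ Periodic (fun x t => F (x, t)) ∧ (∀ i ≤ k, ∀ q, ‖iteratedFDeriv ℝ i F q‖ ≤ ε) ∧
      (∃ c > 0, ∀ t, 0 ≤ t → c * t ^ δ ≤ ‖deriv γ t‖) ∧ (∀ t, 0 ≤ t → Vmin < ‖deriv γ t‖) ∧
      ∀ L : (Fin (r + 2) → ℝ) → (Fin (r + 2) → ℝ) → ℝ → ℝ,
        (∀ x v t, Vmin ≤ ‖v‖ → L x v t = (∑ i, v i ^ 2) / 2) →
        ∀ t, 0 < t → EulerLagrange (fun x v t => L x v t + (D0.val x t + F (x, t))) γ t := by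
  obtain ⟨tau, tau', htau, htau1, htau', hrt, htt, hneg⟩ := params6 hk2 hkr hδ0 hδ
  have hk' : (2 : ℝ) ≤ k := by exact_mod_cast hk2
  have hδ1 : δ < 1 := by nlinarith
  obtain ⟨w, c1, hc1, hD⟩ := hDio r tau' hrt
  obtain ⟨N, D, M0, g, hM1, hpos, -, hval⟩ := hNrm (r + 2) N0 D0
  have hk : ∀ μ, D.k μ ≠ 0 := by
    intro μ h
    have h1 := hpos μ
    rw [h] at h1
    simp at h1
  set ρ : ℝ := 2 ^ (-tau) with hρ
  set a : ℝ := 2 ^ (δ - 1) with ha
  have hρ0 : 0 < ρ := by positivity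
  have ha0 : 0 < a := by positivity
  have hρ1 : ρ < 1 := Real.rpow_lt_one_of_one_lt_of_neg (by norm_num) (by linarith)
  have h2a : 2 * a = 2 ^ δ := by
    rw [ha, Real.rpow_sub_one (by norm_num)]; ring
  have ha1 : a < 1 := Real.rpow_lt_one_of_one_lt_of_neg (by norm_num) (by linarith)
  have h2a1 : 1 < 2 * a := by rw [h2a]; exact Real.one_lt_rpow (by norm_num) hδ0
  have ha2 : 1 / 2 < a := by linarith
  have hρτ : ρ * (2 * ρ) ^ tau' < 1 := by
    have e1 : 2 * ρ = 2 ^ (1 - tau) := by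
      rw [hρ, Real.rpow_sub (by norm_num), Real.rpow_one, Real.rpow_neg (by norm_num)]; ring
    rw [e1, ← Real.rpow_mul (by norm_num), hρ, ← Real.rpow_add (by norm_num)]
    exact Real.rpow_lt_one_of_one_lt_of_neg (by norm_num) (by linarith)
  obtain ⟨K', hK'⟩ := exists_nat_ge (1 / δ)
  have hKa : (1 / (2 * a)) ^ K' ≤ a := by
    rw [one_div, h2a, ← Real.rpow_neg (by norm_num), ← Real.rpow_natCast, ← Real.rpow_mul (by norm_num), ha]
    refine Real.rpow_le_rpow_of_exponent_le (by norm_num) ?_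
    rw [div_le_iff₀ hδ0] at hK'
    nlinarith
  obtain ⟨S, X, hX⟩ := hAVG (r + 2) N D hk K'
  obtain ⟨Λ, CL, hCL1, hΛ0, hΛ, hΛs, hΛn⟩ := hLam r (2 * S + 1)
  have hCL0 : 0 < CL := by linarith
  have hkap : 0 ≤ kap ∧ kap ≤ 1 := by
    obtain ⟨-, -, -, -, -, -, -, -, -, h, -⟩ := hf
    exact h
  obtain ⟨P, U, A, C, hC1, hU, hP, hU1, hP0, hU2, hA, hUW⟩ := seq6 hSeq hUU r w ha2 ha1
  set W0 : ℝ := 2 + ‖w‖ with hW0
  have hW00 : 0 ≤ W0 := by rw [hW0]; positivity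
  set KK : ℝ := 4 * C + 1 with hKK
  have hKK0 : 0 ≤ KK := by rw [hKK]; linarith
  obtain ⟨V1, hNR⟩ := nrs_of Λ hΛs hΛn W0 KK hW00 hKK0 hCL0.le
  set C1 : ℝ := CL * (KK + W0) + 2 with hC1d
  obtain ⟨Cg, hCg1, hGam⟩ := hGAM k (r + 2) N D K' S X hX (1 / 2) C1 (by norm_num)
  obtain ⟨Cc, hCc1, hCol⟩ := hCOL (r + 2) N D K' S X hX.toCorr (1 / 2) C1 (by norm_num)
  obtain ⟨CA, hCA1, hBA⟩ := hBND k (r + 2) chA Cg chA_smooth (by
    intro s hs
    have hs' : s < 1 / 8 ∨ 7 / 8 < s := by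
      by_contra hc
      push Not at hc
      exact hs ⟨by linarith [hc.1], by linarith [hc.2]⟩
    rcases hs' with h | h
    · filter_upwards [gt_mem_nhds h] with s' hs'
      exact chA_zero (Or.inl hs'.le)
    · filter_upwards [lt_mem_nhds h] with s' hs'
      exact chA_zero (Or.inr hs'.le))
  obtain ⟨CB, hCB1, hBB⟩ := hBND k (r + 2) chB Cg chB_smooth (by
    intro s hs
    have hs' : s < -(1 / 4) ∨ 1 / 4 < s := by
      by_contra hc
      push Not at hc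
      exact hs ⟨by linarith [hc.1], by linarith [hc.2]⟩
    rcases hs' with h | h
    · filter_upwards [gt_mem_nhds h] with s' hs'
      exact chB_zero (Or.inl hs'.le)
    · filter_upwards [lt_mem_nhds h] with s' hs'
      exact chB_zero (Or.inr hs'.le))
  have hCg0 : 0 < Cg := by linarith
  have hCc0 : 0 < Cc := by linarith
  set K : ℝ := max CA CB with hK
  have hK1 : 1 ≤ K := hCA1.trans (le_max_left _ _)
  set MM : ℝ := ((2 * S + 1 : ℕ) : ℝ) + 1 with hMM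
  have hMM1 : 1 ≤ MM := by rw [hMM]; push_cast; linarith [(Nat.cast_nonneg S : (0 : ℝ) ≤ S)]
  set B0 : ℝ := MM * (1 + 16 * Cc * CL) with hB0
  have hB01 : 1 ≤ B0 := by
    have : 0 < Cc * CL := by positivity
    nlinarith
  obtain ⟨L1, hSep⟩ := sep6 ha2 ha1 hρ0 hρ1 htau' hc1 hB01 hρτ w hD
  have hSep' := hSep P U A hU hP (fun l j hj => (hA l j hj).2.1) hU1 hP0 hU2
  set V : ℕ → ℝ := fun l => (2 * a) ^ l / 4 with hV
  have hV0 : ∀ l, 0 < V l := fun l => by simp only [hV]; positivity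
  set q : ℝ := a * ρ * ((2 * a) ^ k / ρ ^ k) with hq
  have hq0 : 0 ≤ q := by positivity
  have hq1 : q < 1 := by
    rw [hq, h2a, ha, hρ, ← Real.rpow_natCast, ← Real.rpow_natCast, ← Real.rpow_mul (by norm_num),
      ← Real.rpow_mul (by norm_num), ← Real.rpow_sub (by norm_num), ← Real.rpow_add (by norm_num),
      ← Real.rpow_add (by norm_num)]
    refine Real.rpow_lt_one_of_one_lt_of_neg (by norm_num) ?_
    nlinarith
  set Cb : ℝ := K * Cg * (CL + 4 ^ K') with hCb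
  have hCb0 : 0 ≤ Cb := by positivity
  set BB : ℕ → ℝ := fun l => Cb * q ^ l with hBBd
  have hBB0 : ∀ l, 0 ≤ BB l := fun l => by simp only [hBBd]; positivity
  have hBBs : Summable BB := (summable_geometric_of_lt_one hq0 hq1).mul_left Cb
  -- the choice of `l0`
  obtain ⟨l0, hl00, hl02, hL1, hl01⟩ : ∃ l0 : ℕ, (∀ l, l0 ≤ l →
      max (max V1 Cc) (max (2 * Cg + 1) (2 * |Vmin| + 1)) ≤ V l) ∧ (∀ l, l0 ≤ l → CL * a ^ l ≤ 1) ∧
      L1 ≤ l0 ∧ ∑' l, BB (l + l0) ≤ ε / 2 := by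
    have t1 := (tendsto_sum_nat_add BB).eventually_le_const (half_pos hε)
    have hVt : Tendsto V atTop atTop :=
      (tendsto_pow_atTop_atTop_of_one_lt h2a1).atTop_div_const (by norm_num)
    have t2 := hVt.eventually_ge_atTop (max (max V1 Cc) (max (2 * Cg + 1) (2 * |Vmin| + 1)))
    have t3 : ∀ᶠ l : ℕ in atTop, CL * a ^ l ≤ 1 := by
      have := (tendsto_pow_atTop_nhds_zero_of_lt_one ha0.le ha1).const_mul CL
      rw [mul_zero] at this
      exact this.eventually_le_const one_pos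
    obtain ⟨l1, h1⟩ := eventually_atTop.1 (((t1.and t2).and (eventually_ge_atTop L1)).and t3)
    exact ⟨l1, fun l hl => (h1 l hl).1.1.2, fun l hl => (h1 l hl).2, (h1 l1 le_rfl).1.2, (h1 l1 le_rfl).1.1.1⟩
  have g1 : ∀ l, l0 ≤ l → V1 ≤ V l := fun l hl =>
    ((le_max_left _ _).trans (le_max_left _ _)).trans (hl00 l hl)
  have g3 : ∀ l, l0 ≤ l → Cc ≤ V l := fun l hl =>
    ((le_max_right _ _).trans (le_max_left _ _)).trans (hl00 l hl)
  have g6 : ∀ l, l0 ≤ l → 2 * Cg + 1 ≤ V l := fun l hl =>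
    ((le_max_left _ _).trans (le_max_right _ _)).trans (hl00 l hl)
  have g7 : ∀ l, l0 ≤ l → 2 * |Vmin| + 1 ≤ V l := fun l hl =>
    ((le_max_right _ _).trans (le_max_right _ _)).trans (hl00 l hl)
  have hV1 : ∀ l, l0 ≤ l → 1 ≤ V l := fun l hl => by linarith [g6 l hl]
  set d : ℕ → ℝ := fun j => ρ ^ (Nat.log 2 j) with hd
  have hd0 : ∀ j, 0 < d j := fun j => by simp only [hd]; positivity
  have hdle : ∀ j, d j ≤ 1 := fun j => pow_le_one₀ hρ0.le hρ1.le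
  -- the path
  set G : ℕ → ℝ → E (r + 2) := fun j s => gm X (Λ (P j)) (Λ (U j)) (Λ (A j)) s with hG
  have hΛA1 : ∀ l, ∀ j ∈ Finset.Ico (2 ^ l) (2 ^ (l + 1)), ‖Λ (A j)‖ ≤ CL * a ^ l :=
    fun l j hj => (hΛn _).trans (mul_le_mul_of_nonneg_left (hA l j hj).1 hCL0.le)
  have hΛA3 : ∀ l, l0 ≤ l → ∀ j ∈ Finset.Ico (2 ^ l) (2 ^ (l + 1)), ‖Λ (A j)‖ ≤ 1 :=
    fun l hl j hj => (hΛA1 l j hj).trans (hl02 l hl)
  have hall : ∀ l, l0 ≤ l → ∀ j ∈ Finset.Ico (2 ^ l) (2 ^ (l + 1)),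
      NRS S (1 / 2) C1 (V l) (Λ (U j)) ∧ NRS S (1 / 2) C1 (V l) (Λ (U j) + Λ (A j)) ∧
      ‖Λ (U j)‖ ≤ CL * (KK + W0) * V l := by
    intro l hl j hj
    obtain ⟨-, ⟨b1, b2⟩, b3, b4⟩ := hA l j hj
    have h1 := hV1 l hl
    have hal : a ^ l ≤ 1 := pow_le_one₀ ha0.le ha1.le
    have e : (2 * a) ^ l = 4 * V l := by simp only [hV]; ring
    rw [e] at b3 b4
    have e2 : U (j + 1) 0 = U j 0 + A j 0 := by rw [hU]; rfl
    have a1 := hNR (V l) (U j) (g1 l hl) h1 (by linarith) (by rw [hKK]; nlinarith) (hUW j)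
    have a2 := hNR (V l) (U (j + 1)) (g1 l hl) h1 (by rw [e2]; linarith) (by rw [e2, hKK]; nlinarith)
      (hUW (j + 1))
    refine ⟨a1.1, ?_, a1.2⟩
    rw [← map_add, ← hU]
    exact a2.1
  have hgm : ∀ l, l0 ≤ l → ∀ j ∈ Finset.Ico (2 ^ l) (2 ^ (l + 1)), ∀ i,
      ContDiff ℝ ∞ (fun s => G j s i) ∧ Cls k (V l) (Cg * V l) (deriv fun s => G j s i) ∧
      Cls k (V l) (Cg * (‖Λ (A j)‖ + 1 / V l ^ K')) (fun s => Fo D (G j) s i) ∧
      ∀ s, 0 ≤ s → s ≤ 1 → |deriv (fun s => G j s i) s - (Λ (U j) i + tp s * Λ (A j) i)| ≤ Cg / V l := by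
    intro l hl j hj i
    obtain ⟨k1, k2, k3⟩ := hall l hl j hj
    obtain ⟨m1, m2, m3, m4, m5⟩ := hGam (V l) (Λ (P j)) (Λ (U j)) (Λ (A j)) (hV1 l hl)
      (hΛA3 l hl j hj) k1 k2 i
    exact ⟨m1, m2, m4, m5⟩
  have hglue : ∀ j s, 3 / 4 ≤ s → s ≤ 5 / 4 → G j s = G (j + 1) (s - 1) := by
    intro j s h0 h1
    simp only [hG]
    rw [hP j, hU j]
    simp only [map_add, map_smul]
    exact gm_glue hf X (Λ (P j)) (Λ (U j)) (Λ (A j)) (Λ (A (j + 1))) h0 h1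
  have hGs : ∀ j, 2 ^ l0 ≤ j → ∀ i, ContDiff ℝ ∞ (fun s => G j s i) := fun j hj i =>
    (hgm _ (mem_block hj).1 j (mem_block hj).2 i).1
  have hdisj : ∀ i j, 2 ^ l0 ≤ i → i < j → ∀ σ : ℝ, -1 ≤ σ → σ ≤ 1 → ∀ x : E (r + 2),
      (∀ m, |Real.sin (Real.pi * (x m - G i σ m))| ≤ d i) →
      (∀ m, |Real.sin (Real.pi * (x m - G j σ m))| ≤ d j) → False := by
    intro i j hi hij σ h0 h1 x q1 q2
    have hj : 2 ^ l0 ≤ j := hi.trans hij.le
    obtain ⟨hli, hbi⟩ := mem_block hi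
    obtain ⟨hlj, hbj⟩ := mem_block hj
    have hlij : Nat.log 2 i ≤ Nat.log 2 j := Nat.log_mono_right hij.le
    set li := Nat.log 2 i with hlid
    set lj := Nat.log 2 j with hljd
    have hVij : V li ≤ V lj := by
      simp only [hV]
      have := pow_le_pow_right₀ h2a1.le hlij
      linarith
    obtain ⟨i1, i2, i3⟩ := hall li hli i hbi
    obtain ⟨j1, j2, j3⟩ := hall lj hlj j hbj
    have i4 := hΛA3 li hli i hbi
    have j4 := hΛA3 lj hlj j hbj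
    have hslack : ‖Λ (U j) - Λ (U i)‖ ≤ 1 →
        NRS S (1 / 2) C1 (V li) (Λ (U j)) ∧ NRS S (1 / 2) C1 (V li) (Λ (U j) + Λ (A j)) := by
      intro h
      have n1 : ‖Λ (U j)‖ ≤ ‖Λ (U i)‖ + 1 := by
        have := norm_add_le (Λ (U i)) (Λ (U j) - Λ (U i))
        rw [add_sub_cancel] at this
        linarith
      have n2 : ‖Λ (U j) + Λ (A j)‖ ≤ ‖Λ (U i)‖ + 2 := (norm_add_le _ _).trans (by linarith)
      have n3 := hV1 li hli
      refine ⟨nrs_mono (by norm_num) j1 hVij ?_, nrs_mono (by norm_num) j2 hVij ?_⟩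
      · rw [hC1d]; nlinarith
      · rw [hC1d]; nlinarith
    -- the integers
    choose b hb using fun m => sin_dist (q1 m)
    choose b' hb' using fun m => sin_dist (q2 m)
    have hcol := hCol (V li) (V lj) (Λ (P i)) (Λ (U i)) (Λ (A i)) (Λ (P j)) (Λ (U j)) (Λ (A j))
      (hV1 li hli) hVij (g3 li hli) i4 j4 i1 i2 j1 j2 hslack σ ((d i + d j) / 2) h0 h1 (fun m => b m - b' m) (by
        intro m
        have e : gm X (Λ (P j)) (Λ (U j)) (Λ (A j)) σ m - gm X (Λ (P i)) (Λ (U i)) (Λ (A i)) σ m -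
            ((b m - b' m : ℤ) : ℝ) = (x m - G i σ m - b m) - (x m - G j σ m - b' m) := by
          simp only [hG]
          push_cast
          ring
        rw [e]
        refine (abs_sub _ _).trans ?_
        linarith [hb m, hb' m])
    rw [lam_pos', lam_pos'] at hcol
    set z : E (r + 2) := pos (P j) (U j) (A j) σ - pos (P i) (U i) (A i) σ with hz
    have hΛz : ∀ m, Λ z m = Λ (pos (P j) (U j) (A j) σ) m - Λ (pos (P i) (U i) (A i) σ) m := by
      intro m; rw [hz, map_sub]; rfl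
    set Δ' : ℝ := 2 * ((d i + d j) / 2) + Cc / V li ^ 2 *
      min 1 (‖Λ (U j) - Λ (U i)‖ + ‖Λ (A i)‖ + ‖Λ (A j)‖) with hΔ'
    have hcol' : ∀ m, |Λ z m - ((b m - b' m : ℤ) : ℝ)| ≤ Δ' := by
      intro m
      rw [hΛz]
      exact hcol m
    have hns := hSep' i j ((Nat.pow_le_pow_right (by norm_num) hL1).trans hi) hij σ h0 h1
    apply hns
    intro m
    obtain ⟨e, he⟩ := near_int6 Λ hΛ0 hΛ hcol' m
    refine ⟨e, he.trans ?_⟩
    have b3 : ‖Λ (U j) - Λ (U i)‖ ≤ CL * ‖U j - U i‖ := by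
      rw [← map_sub]; exact hΛn _
    have b4 : ‖Λ (A i)‖ ≤ CL * ‖A i‖ := hΛn _
    have b5 : ‖Λ (A j)‖ ≤ CL * ‖A j‖ := hΛn _
    set y : ℝ := ‖U j - U i‖ + ‖A i‖ + ‖A j‖ with hy
    have hy0 : 0 ≤ y := by rw [hy]; positivity
    have b6 : min 1 (‖Λ (U j) - Λ (U i)‖ + ‖Λ (A i)‖ + ‖Λ (A j)‖) ≤ CL * min 1 y := by
      rcases le_total 1 y with h | h
      · rw [min_eq_left h]
        refine (min_le_left _ _).trans ?_
        linarith
      · rw [min_eq_right h]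
        refine (min_le_right _ _).trans ?_
        rw [hy]
        linarith
    have hm0 : 0 ≤ min 1 y := le_min zero_le_one hy0
    have hVe : V li ^ 2 = ((2 * a) ^ li) ^ 2 / 16 := by simp only [hV]; ring
    have hW : 0 < ((2 * a) ^ li) ^ 2 := by positivity
    have b8 : Cc / V li ^ 2 * (CL * min 1 y) = 16 * Cc * CL * (min 1 y / ((2 * a) ^ li) ^ 2) := by
      rw [hVe]
      field_simp
    have c0 : 0 ≤ Cc / V li ^ 2 := by have := hV0 li; positivity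
    have b9 : Δ' ≤ (d i + d j) + 16 * Cc * CL * (min 1 y / ((2 * a) ^ li) ^ 2) := by
      have := mul_le_mul_of_nonneg_left b6 c0
      rw [b8] at this
      rw [hΔ']
      linarith
    have c1 : 0 ≤ min 1 y / ((2 * a) ^ li) ^ 2 := by positivity
    have c2 := hd0 i
    have c3 := hd0 j
    have c4 : 0 < Cc * CL := by positivity
    show MM * Δ' ≤ B0 * (ρ ^ li + ρ ^ lj + min 1 y / ((2 * a) ^ li) ^ 2)
    have c5 : d i = ρ ^ li := rfl
    have c6 : d j = ρ ^ lj := rfl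
    rw [hB0, ← c5, ← c6, mul_assoc]
    refine mul_le_mul_of_nonneg_left (b9.trans ?_) (by linarith)
    nlinarith [mul_nonneg c4.le (add_pos c2 c3).le]
  have hbdg : ∀ (ch : ℝ → ℝ) (CC : ℝ), CC ≤ K → (∀ (g F : ℝ → Fin (r + 2) → ℝ) (d V ρ : ℝ), 0 < d → d ≤ 1 →
      1 ≤ V → 0 ≤ ρ → (∀ i, ContDiff ℝ ∞ (fun s => g s i)) → (∀ i, Cls k V (Cg * V) (deriv fun s => g s i)) →
      (∀ i, Cls k V ρ (fun s => F s i)) →
      ContDiff ℝ ∞ (Hg ch g F d) ∧ ∀ (i : ℕ), i ≤ k → ∀ q : Z (r + 2),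
        ‖iteratedFDeriv ℝ i (Hg ch g F d) q‖ ≤ CC * ρ * d * (V / d) ^ k) →
      ∀ l, l0 ≤ l → ∀ j ∈ Finset.Ico (2 ^ l) (2 ^ (l + 1)),
      ContDiff ℝ ∞ (Hg ch (G j) (Fo D (G j)) (d j)) ∧ ∀ i ≤ k, ∀ q,
        ‖iteratedFDeriv ℝ i (Hg ch (G j) (Fo D (G j)) (d j)) q‖ ≤ BB l := by
    intro ch CC hCC hh l hl j hj
    have hg := hgm l hl j hj
    have hVl := hV0 l
    have hρn : 0 ≤ Cg * (‖Λ (A j)‖ + 1 / V l ^ K') := by positivity
    obtain ⟨u1, u2⟩ := hh (G j) (Fo D (G j)) (d j) (V l) (Cg * (‖Λ (A j)‖ + 1 / V l ^ K')) (hd0 j)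
      (hdle j) (hV1 l hl) hρn (fun i => (hg i).1) (fun i => (hg i).2.1) (fun i => (hg i).2.2.1)
    refine ⟨u1, fun i hi x => (u2 i hi x).trans ?_⟩
    have e : d j = ρ ^ l := by simp only [hd, log_block hj]
    have h1 := pot6_le (k := k) ha0 hρ0 hKa (hΛA1 l j hj) (norm_nonneg (Λ (A j)))
    rw [e]
    have h2 : 0 ≤ (‖Λ (A j)‖ + 1 / V l ^ K') * ρ ^ l * (V l / ρ ^ l) ^ k := by positivity
    calc CC * (Cg * (‖Λ (A j)‖ + 1 / V l ^ K')) * ρ ^ l * (V l / ρ ^ l) ^ k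
        = CC * Cg * ((‖Λ (A j)‖ + 1 / V l ^ K') * ρ ^ l * (V l / ρ ^ l) ^ k) := by ring
      _ ≤ K * Cg * ((‖Λ (A j)‖ + 1 / V l ^ K') * ρ ^ l * (V l / ρ ^ l) ^ k) := by gcongr
      _ ≤ K * Cg * ((CL + 4 ^ K') * q ^ l) := mul_le_mul_of_nonneg_left h1 (by positivity)
      _ = BB l := by simp only [hBBd, hCb]; ring
  obtain ⟨F, f1, f2, f3, f4⟩ := engine6 (by omega : 1 ≤ k) hf hPer hSum D G d l0 BB ε hGs hglue hd0 hdisj
    (hbdg chA CA (le_max_left _ _) hBA) (hbdg chB CB (le_max_right _ _) hBB) hBB0 hBBs hl01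
  have hj0 : (1 : ℝ) ≤ (2 : ℝ) ^ l0 := one_le_pow₀ (by norm_num)
  have hpos : ∀ t : ℝ, 0 ≤ t → 2 ^ l0 ≤ ⌊t + 2 ^ l0⌋₊ ∧ t + 2 ^ l0 - ⌊t + 2 ^ l0⌋₊ = Int.fract t := by
    intro t ht
    constructor
    · exact Nat.le_floor (by push_cast; linarith)
    · have h1 : ((⌊t + 2 ^ l0⌋₊ : ℕ) : ℝ) = (⌊t + 2 ^ l0⌋ : ℤ) := by
        rw [natCast_floor_eq_intCast_floor (by positivity)]
      rw [h1]
      have h2 : t + 2 ^ l0 - (⌊t + 2 ^ l0⌋ : ℤ) = Int.fract (t + ((2 ^ l0 : ℕ) : ℝ)) := by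
        push_cast
        rfl
      rw [h2, Int.fract_add_natCast]
  have hder : ∀ t : ℝ, 0 ≤ t →
      HasDerivAt (fun t => pathG G (t + 2 ^ l0)) (fun i => deriv (fun s => G ⌊t + 2 ^ l0⌋₊ s i) (Int.fract t)) t ∧
      HasDerivAt (deriv fun t => pathG G (t + 2 ^ l0))
        (fun i => deriv (deriv fun s => G ⌊t + 2 ^ l0⌋₊ s i) (Int.fract t)) t := by
    intro t ht
    have hT : 1 ≤ t + 2 ^ l0 := by linarith
    obtain ⟨h1, h2⟩ := pathG_hasDerivAt hglue hT (hGs _ (hpos t ht).1)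
    rw [(hpos t ht).2] at h1 h2
    refine ⟨h1.comp_add_const t ((2 : ℝ) ^ l0), ?_⟩
    have e : (deriv (fun t => pathG G (t + 2 ^ l0))) = fun x => deriv (pathG G) (x + 2 ^ l0) := by
      funext x
      exact deriv_comp_add_const (f := pathG G) ((2 : ℝ) ^ l0) x
    rw [e]
    exact h2.comp_add_const t ((2 : ℝ) ^ l0)
  -- the velocity
  have hvel : ∀ t : ℝ, 0 ≤ t → V (Nat.log 2 ⌊t + 2 ^ l0⌋₊) / 2 ≤ ‖deriv (fun t => pathG G (t + 2 ^ l0)) t‖ := by
    intro t ht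
    rw [(hder t ht).1.deriv]
    have hjm := (hpos t ht).1
    set j := ⌊t + 2 ^ l0⌋₊ with hj
    obtain ⟨hl, hjI⟩ := mem_block hjm
    set l := Nat.log 2 j with hld
    have hc := (hgm l hl j hjI 0).2.2.2 (Int.fract t) (Int.fract_nonneg t) (Int.fract_lt_one t).le
    have htp : 0 ≤ tp (Int.fract t) := by
      obtain ⟨-, -, -, -, -, -, h01, -⟩ := hf
      exact (h01 _).1
    refine le_trans ?_ (norm_le_pi_norm _ 0)
    refine le_trans ?_ (le_abs_self _)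
    have h1 := (abs_le.1 hc).1
    rw [hΛ0, hΛ0] at h1
    obtain ⟨-, ⟨b1, b2⟩, b3, b4⟩ := hA l j hjI
    have h3 := mul_nonneg htp b1
    have h4 : Cg / V l ≤ V l / 2 := by
      have h5 := g6 l hl
      have h6 := hV1 l hl
      rw [div_le_iff₀ (hV0 l)]
      nlinarith
    have e : (2 * a) ^ l = 4 * V l := by simp only [hV]; ring
    rw [e] at b3
    show V l / 2 ≤ deriv (fun s => G j s 0) (Int.fract t)
    linarith
  have hfast : ∀ t : ℝ, 0 ≤ t → Vmin < ‖deriv (fun t => pathG G (t + 2 ^ l0)) t‖ := by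
    intro t ht
    refine lt_of_lt_of_le ?_ (hvel t ht)
    have hl := (mem_block (hpos t ht).1).1
    have h1 := g7 _ hl
    have h3 := le_abs_self Vmin
    linarith
  refine ⟨F, fun t => pathG G (t + 2 ^ l0), f1, f2, f3, ⟨(2 : ℝ) ^ (-δ) / 8, by positivity,
    fun t ht => ?_⟩, hfast, ?_⟩
  · refine le_trans ?_ (hvel t ht)
    set j := ⌊t + 2 ^ l0⌋₊ with hj
    obtain ⟨hl, hjI⟩ := mem_block (hpos t ht).1
    rw [← hj] at hl hjI
    set l := Nat.log 2 j with hld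
    have n2 : t ≤ 2 ^ (l + 1) := by
      have h1 : t + 2 ^ l0 < j + 1 := Nat.lt_floor_add_one _
      have h2 : (j : ℝ) + 1 ≤ 2 ^ (l + 1) := by
        have := (Finset.mem_Ico.1 hjI).2
        exact_mod_cast this
      linarith
    have n3 : t ^ δ ≤ (2 * a) ^ (l + 1) := by
      calc t ^ δ ≤ ((2 : ℝ) ^ (l + 1)) ^ δ := Real.rpow_le_rpow ht n2 hδ0.le
        _ = (2 * a) ^ (l + 1) := by
          rw [h2a, ← Real.rpow_natCast, ← Real.rpow_natCast, ← Real.rpow_mul (by norm_num),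
            ← Real.rpow_mul (by norm_num), mul_comm]
    have n4 : (2 : ℝ) ^ (-δ) * (2 * a) ^ (l + 1) = (2 * a) ^ l := by
      rw [pow_succ, h2a, Real.rpow_neg (by norm_num)]
      field_simp
    have n5 : (2 : ℝ) ^ (-δ) * t ^ δ ≤ (2 * a) ^ l := by
      rw [← n4]
      exact mul_le_mul_of_nonneg_left n3 (by positivity)
    have e : (2 * a) ^ l = 4 * V l := by simp only [hV]; ring
    rw [e] at n5
    calc 2 ^ (-δ) / 8 * t ^ δ = (2 ^ (-δ) * t ^ δ) / 8 := by ring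
      _ ≤ V l / 2 := by linarith
  · intro L hLag t ht
    obtain ⟨d1, d2⟩ := hder t ht.le
    have hev : ∀ᶠ s in 𝓝 t, Vmin < ‖deriv (fun t => pathG G (t + 2 ^ l0)) s‖ := by
      filter_upwards [lt_mem_nhds ht] with s hs
      exact hfast s (le_of_lt hs)
    refine el_fast (f := fun x t => D0.val x t + F (x, t)) hLag hev d1.differentiableAt d2 ?_
    intro i
    have hp := hpos t ht.le
    have hpath : pathG G (t + 2 ^ l0) = G ⌊t + 2 ^ l0⌋₊ (Int.fract t) := by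
      show G ⌊t + 2 ^ l0⌋₊ (t + 2 ^ l0 - ⌊t + 2 ^ l0⌋₊) = _
      rw [hp.2]
    simp only [hpath]
    have hjm := hp.1
    set j := ⌊t + 2 ^ l0⌋₊ with hj
    set s := Int.fract t with hs
    have g1 : HasDerivAt (fun u => D0.val (Function.update (G j s) i u) t) (D.grad (G j s) t i) (G j s i) := by
      have e : (fun u => D0.val (Function.update (G j s) i u) t) =
          fun u => D.val (Function.update (G j s) i u) t + g t := by
        funext u; exact hval _ _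
      rw [e]
      exact (val_hasDerivAt D (G j s) t i).add_const _
    have g2 : D.grad (G j s) t i = D.grad (G j s) s i := by
      have := grad_time D (G j s) s ⌊t⌋ i
      rw [← this]
      congr 1
      rw [hs]
      have := Int.floor_add_fract t
      linarith
    have g3 : HasDerivAt (fun u => F (Function.update (G j s) i u, t)) (Fo D (G j) s i) (G j s i) := by
      have h1 : HasFDerivAt F (fderiv ℝ F (G j s, t)) (Function.update (G j s) i (G j s i), t) := by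
        rw [Function.update_eq_self]
        exact (f1.differentiable (by exact_mod_cast (by omega : k ≠ 0)) _).hasFDerivAt
      have h2 := h1.comp_hasDerivAt (G j s i) (hasDerivAt_upd (G j s) i t (G j s i))
      rw [f4 j hjm t i] at h2
      exact h2
    refine (g1.add g3).congr_deriv ?_
    rw [g2]
    simp only [Fo]
    ring

end Pool.Agent.J6H35.TL
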