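import Pool.Agent.J6H35.TL.Bad7

/-!
# The velocity: existence
-/

set_option autoImplicit false

open Set Filter Topology

noncomputable section

namespace Pool.Agent.J6H35.TL

open Pool.Agent.N980.TL

/-- the hypotheses on the parameters, with the smallness conditions -/
structure Hyp' {r : ℕ} (a ρ Γ τ c1 κ0 : ℝ) (w : Fin r → ℝ) : Prop extends Hyp a ρ Γ τ c1 κ0 w where
  hμ1 : et7 ρ τ ≤ Γ
  hμa : (Γ / et7 ρ τ) ^ 4 * (Γ * a) < 1
  hμΓ : (Γ / et7 ρ τ) ^ 4 < Γ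

variable {r : ℕ} {a ρ Γ τ c1 κ0 : ℝ} {w : Fin r → ℝ}

/-- the constant of the number of bad steps -/
def C6 (a ρ Γ τ c1 κ0 : ℝ) : ℝ :=
  2 * (Γ / cH ρ τ c1 κ0 + 1) * (32 / (cH ρ τ c1 κ0 * Γ * a ^ 3) + 1)

theorem C6_pos (h : Hyp' a ρ Γ τ c1 κ0 w) : 0 < C6 a ρ Γ τ c1 κ0 := by
  have := cH_pos (τ := τ) h.hρ0 h.hc1 h.hκ
  have := h.ha
  have := h.hΓ1
  have ha0 : 0 < a := by linarith
  have hΓ0 : 0 < Γ := by linarith
  unfold C6
  positivity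

theorem bad_count' (h : Hyp' a ρ Γ τ c1 κ0 w) {L0 l m R : ℕ} (hl : 2 ≤ l) (hΓl : Γ ^ (l + 1) ≤ 2 ^ (l - 1))
    (hm : Nat.log 2 m = l) (hR : R ≤ 2 ^ l) :
    (nb (BadS L0 a ρ Γ κ0 w) m R : ℝ) ≤
      C6 a ρ Γ τ c1 κ0 * (Γ / et7 ρ τ) ^ (2 * l) * (Γ / a * (Γ * a) ^ l * R + 2) := by
  have hcH := cH_pos (τ := τ) h.hρ0 h.hc1 h.hκ
  have het := et7_pos (τ := τ) h.hρ0
  have hΓ := h.hΓ1
  have ha := h.ha
  have ha0 : 0 < a := by linarith
  have hΓ0 : 0 < Γ := by linarith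
  refine (bad_count h.toHyp hl hΓl hm hR).trans ?_
  set η := et7 ρ τ with hη
  set c := cH ρ τ c1 κ0 with hc
  have hμ : 1 ≤ Γ / η := by rw [one_le_div het]; exact h.hμ1
  have hμl : 1 ≤ (Γ / η) ^ l := one_le_pow₀ hμ
  obtain ⟨l', rfl⟩ : ∃ l', l = l' + 1 := ⟨l - 1, by omega⟩
  rw [Nat.add_sub_cancel]
  have e1 : Γ ^ (l' + 1 + 1) / (c * η ^ (l' + 1)) = Γ / c * (Γ / η) ^ (l' + 1) := by
    rw [div_pow, pow_succ]
    field_simp
  have e2 : 2 * (16 * (Γ * a) ^ l') / (c * η ^ (l' + 1) * a ^ (l' + 1 + 2)) =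
      32 / (c * Γ * a ^ 3) * (Γ / η) ^ (l' + 1) := by
    rw [div_pow, mul_pow]
    field_simp
    ring
  have e3 : Γ ^ (l' + 1 + 1) * a ^ l' = Γ / a * (Γ * a) ^ (l' + 1) := by
    rw [mul_pow]
    field_simp
    ring
  rw [e1, e2, e3]
  have k1 : Γ / c * (Γ / η) ^ (l' + 1) + 1 ≤ (Γ / c + 1) * (Γ / η) ^ (l' + 1) := by
    rw [add_mul]; linarith
  have k2 : 32 / (c * Γ * a ^ 3) * (Γ / η) ^ (l' + 1) + 1 ≤ (32 / (c * Γ * a ^ 3) + 1) * (Γ / η) ^ (l' + 1) := by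
    rw [add_mul]; linarith
  have k3 : 0 ≤ Γ / a * (Γ * a) ^ (l' + 1) * R + 2 := by positivity
  calc 2 * (Γ / c * (Γ / η) ^ (l' + 1) + 1) *
      ((Γ / a * (Γ * a) ^ (l' + 1) * R + 2) * (32 / (c * Γ * a ^ 3) * (Γ / η) ^ (l' + 1) + 1))
      ≤ 2 * ((Γ / c + 1) * (Γ / η) ^ (l' + 1)) *
        ((Γ / a * (Γ * a) ^ (l' + 1) * R + 2) * ((32 / (c * Γ * a ^ 3) + 1) * (Γ / η) ^ (l' + 1))) := by gcongr
    _ = _ := by
      unfold C6
      rw [two_mul (l' + 1), pow_add (Γ / η) (l' + 1)]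
      ring

/-- the numerical facts for a large scale -/
structure Num7 (a Γ μ C : ℝ) (l : ℕ) : Prop where
  f1 : Γ ^ (l + 1) ≤ 2 ^ (l - 1)
  f2 : 3 * (C * μ ^ (2 * l) * (Γ / a * (Γ * a) ^ l)) ≤ 1 / 2
  f3 : 13 * C * μ ^ (2 * (l + 1)) + 1 ≤ 2 ^ l / 4
  f5 : a ^ (l - 1) * (13 * C * μ ^ (2 * (l + 1)) + 1) ≤ 1 / 4
  f4 : a ^ (l - 1) * ((13 * C * μ ^ (2 * (l + 1)) + 1) *
    (C * μ ^ (2 * l) * (Γ / a * (Γ * a) ^ (l - 1) * Γ ^ l + 2))) ≤ 4 * (Γ * a) ^ l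

theorem num7_large {μ C : ℝ} (ha : 1 / 2 < a) (ha1 : a < 1) (hΓ1 : 1 < Γ) (hΓ2 : Γ < 2) (hμ : 1 ≤ μ)
    (hμa : μ ^ 4 * (Γ * a) < 1) (hμΓ : μ ^ 4 < Γ) (hC : 0 < C) : ∃ L : ℕ, 2 ≤ L ∧ ∀ l, L ≤ l → Num7 a Γ μ C l := by
  have ha0 : 0 < a := by linarith
  have hΓ0 : 0 < Γ := by linarith
  have hΓa : 0 < Γ * a := by positivity
  have hμ2 : 1 ≤ μ ^ 2 := one_le_pow₀ hμ
  have hμ4 : μ ^ 4 = μ ^ 2 * μ ^ 2 := by ring
  have hμ24 : μ ^ 2 ≤ μ ^ 4 := by rw [hμ4]; nlinarith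
  have i2 : μ ^ 2 * (Γ * a) < 1 := lt_of_le_of_lt (mul_le_mul_of_nonneg_right hμ24 hΓa.le) hμa
  have i3 : μ ^ 2 < 2 := by linarith
  have i5 : a * μ ^ 2 < 1 := by
    refine lt_of_le_of_lt ?_ i2
    nlinarith
  have i6 : μ ^ 4 * a * Γ * (Γ * a) < Γ * a := by
    have := mul_lt_mul_of_pos_right hμa hΓa
    nlinarith
  have i7 : μ ^ 4 * a < Γ * a := mul_lt_mul_of_pos_right hμΓ ha0
  have t1 := ev_le0 (2 * Γ) hΓ0.le hΓ2
  have t2 := ev_le0 (6 * (C * (Γ / a))) (show 0 ≤ μ ^ 2 * (Γ * a) by positivity) i2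
  have t3 := ev_le0 (4 * (13 * C * μ ^ 2 + 1)) (show 0 ≤ μ ^ 2 by positivity) i3
  have t5 := ev_le0 (4 / a * (13 * C * μ ^ 2 + 1)) (show 0 ≤ a * μ ^ 2 by positivity) i5
  have t6 := ev_le0 (1 / 2 * (1 / a * (13 * C * μ ^ 2 + 1) * (C / a ^ 2)))
    (show 0 ≤ μ ^ 4 * a * Γ * (Γ * a) by positivity) i6
  have t7 := ev_le0 (1 / a * (13 * C * μ ^ 2 + 1) * C) (show 0 ≤ μ ^ 4 * a by positivity) i7
  obtain ⟨L, hL⟩ := eventually_atTop.1 (((t1.and t2).and (t3.and t5)).and (t6.and t7))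
  refine ⟨max L 2, le_max_right _ _, fun l hl => ?_⟩
  obtain ⟨⟨⟨h1, h2⟩, h3, h5⟩, h6, h7⟩ := hL l ((le_max_left _ _).trans hl)
  have hl2 : 2 ≤ l := (le_max_right _ _).trans hl
  obtain ⟨l', rfl⟩ : ∃ l', l = l' + 1 := ⟨l - 1, by omega⟩
  have hal : 0 < a ^ l' := by positivity
  have hμl : 1 ≤ μ ^ (2 * (l' + 1)) := one_le_pow₀ hμ
  have e0 : μ ^ (2 * (l' + 1 + 1)) = μ ^ 2 * μ ^ (2 * (l' + 1)) := by ring
  have e00 : (μ ^ 2) ^ (l' + 1) = μ ^ (2 * (l' + 1)) := by rw [← pow_mul]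
  set M := μ ^ (2 * (l' + 1)) with hM
  have kM : 13 * C * (μ ^ 2 * M) + 1 ≤ (13 * C * μ ^ 2 + 1) * M := by
    nlinarith
  have kM0 : 0 ≤ 13 * C * (μ ^ 2 * M) + 1 := by positivity
  refine ⟨?_, ?_, ?_, ?_, ?_⟩
  · rw [Nat.add_sub_cancel]
    have e1 : Γ ^ (l' + 1 + 1) = Γ * Γ ^ (l' + 1) := by ring
    have e2 : (2 : ℝ) ^ (l' + 1) = 2 * 2 ^ l' := by ring
    rw [e2] at h1
    rw [e1]
    linarith
  · rw [one_pow, mul_pow, e00] at h2
    linarith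
  · rw [e0]
    rw [e00] at h3
    linarith
  · rw [Nat.add_sub_cancel, e0]
    rw [one_pow, mul_pow, e00] at h5
    have e1 : a ^ (l' + 1) = a * a ^ l' := by ring
    rw [e1] at h5
    have e2 : 4 / a * (13 * C * μ ^ 2 + 1) * (a * a ^ l' * M) = 4 * (a ^ l' * ((13 * C * μ ^ 2 + 1) * M)) := by
      field_simp
    rw [e2] at h5
    have := mul_le_mul_of_nonneg_left kM hal.le
    linarith
  · rw [Nat.add_sub_cancel, e0]
    have e1 : (μ ^ 4 * a * Γ * (Γ * a)) ^ (l' + 1) = M * M * (a * a ^ l') * Γ ^ (l' + 1) * (Γ * a) ^ (l' + 1) := by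
      rw [mul_pow, mul_pow, mul_pow, hM]
      ring
    have e2 : (μ ^ 4 * a) ^ (l' + 1) = M * M * (a * a ^ l') := by
      rw [mul_pow, hM]
      ring
    rw [e1] at h6
    rw [e2] at h7
    have e3 : (Γ * a) ^ (l' + 1) = Γ * a * (Γ * a) ^ l' := by ring
    have k1 : a ^ l' * ((13 * C * (μ ^ 2 * M) + 1) * (C * M * (Γ / a * (Γ * a) ^ l' * Γ ^ (l' + 1) + 2))) ≤
        a ^ l' * (((13 * C * μ ^ 2 + 1) * M) * (C * M * (Γ / a * (Γ * a) ^ l' * Γ ^ (l' + 1) + 2))) := by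
      gcongr
    refine k1.trans ?_
    have e4 : a ^ l' * (((13 * C * μ ^ 2 + 1) * M) * (C * M * (Γ / a * (Γ * a) ^ l' * Γ ^ (l' + 1) + 2))) =
        2 * (1 / 2 * (1 / a * (13 * C * μ ^ 2 + 1) * (C / a ^ 2)) *
          (M * M * (a * a ^ l') * Γ ^ (l' + 1) * (Γ * a) ^ (l' + 1))) +
        2 * (1 / a * (13 * C * μ ^ 2 + 1) * C * (M * M * (a * a ^ l'))) := by
      rw [e3]
      field_simp
    rw [e4]
    linarith

open Classical in
/-- the length of an excursion -/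
def Rl7 (C μ : ℝ) (l : ℕ) : ℕ := ⌈13 * C * μ ^ (2 * l)⌉₊

theorem v7 (h : Hyp' a ρ Γ τ c1 κ0 w) : ∃ (L : ℕ) (Bad : ℕ → Prop) (V : ℕ → ℝ),
    (∀ j, 0 ≤ V (j + 1) - V j ∧ V (j + 1) - V j ≤ 2 * a ^ (Nat.log 2 j)) ∧
    (∀ j, Bad j → V (j + 1) = V j) ∧
    (∀ l, L ≤ l → ∀ j ∈ Finset.Ico (2 ^ l) (2 ^ (l + 1)), (2 * a) ^ l ≤ 4 * V j) ∧
    (∀ l, ∀ j ∈ Finset.Ico (2 ^ l) (2 ^ (l + 1)), V j ≤ (2 + 2 / (2 * a - 1)) * (2 * a) ^ l) ∧
    ∀ i g : ℕ, 2 ^ L ≤ i → 1 ≤ g → (g : ℝ) ≤ Γ ^ (Nat.log 2 i) →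
      (∀ m, |Real.sin (Real.pi * (g * w m))| ≤ κ0 * ρ ^ (Nat.log 2 i)) →
      (∃ b : ℤ, |∑ t ∈ Finset.range g, V (i + t) - b| ≤ 12 * (Γ * a) ^ (Nat.log 2 i)) → Bad i ∧ Bad (i + g) := by
  classical
  have ha := h.ha
  have ha1 := h.ha1
  have ha0 : 0 < a := by linarith
  have hΓ1 := h.hΓ1
  have hΓ0 : 0 < Γ := by linarith
  have het := et7_pos (τ := τ) h.hρ0
  have hC := C6_pos h
  set C := C6 a ρ Γ τ c1 κ0 with hCd
  set μ := Γ / et7 ρ τ with hμd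
  have hμ : 1 ≤ μ := by rw [hμd, one_le_div het]; exact h.hμ1
  have hμ0 : 0 < μ := by linarith
  obtain ⟨L1, hL1, hN⟩ := num7_large ha ha1 hΓ1 h.hΓ2 hμ h.hμa h.hμΓ hC
  set L0 := L1 + 2 with hL0
  set Bad : ℕ → Prop := BadS L0 a ρ Γ κ0 w with hBad
  set Rl : ℕ → ℕ := Rl7 C μ with hRl
  have hRmono : Monotone Rl := fun x y hxy => Nat.ceil_mono (by
    have : μ ^ (2 * x) ≤ μ ^ (2 * y) := pow_le_pow_right₀ hμ (by omega)
    exact mul_le_mul_of_nonneg_left this (by positivity))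
  have hRle : ∀ l, (Rl l : ℝ) ≤ 13 * C * μ ^ (2 * l) + 1 := fun l =>
    (Nat.ceil_lt_add_one (by positivity)).le
  have hRge : ∀ l, 13 * C * μ ^ (2 * l) ≤ Rl l := fun l => Nat.le_ceil _
  have hRsucc : ∀ l, L1 ≤ l → 4 * Rl (l + 1) ≤ 2 ^ l := by
    intro l hl
    have h1 := (hN l hl).f3
    have h2 := hRle (l + 1)
    have h3 : (4 : ℝ) * Rl (l + 1) ≤ 2 ^ l := by linarith
    exact_mod_cast h3
  have hlow : ∀ j, Bad j → 2 ^ L0 ≤ j := fun j hj => hj.1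
  have hR : ∀ l, L0 ≤ l → Rl l ≤ 2 ^ l := fun l hl => by
    have h1 := hRsucc l (by omega)
    have h2 := hRmono (Nat.le_succ l)
    have h3 : Rl l ≤ Rl (l + 1) := h2
    omega
  have hb : ∀ i, 2 ^ L0 ≤ i → 3 * nb Bad i (Rl (Nat.log 2 i)) < Rl (Nat.log 2 i) := by
    intro i hi
    have hi0 : i ≠ 0 := by
      have := Nat.one_le_two_pow (n := L0)
      omega
    have hl : L0 ≤ Nat.log 2 i := (Nat.le_log_iff_pow_le (by norm_num) hi0).2 hi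
    set l := Nat.log 2 i with hld
    have hn := hN l (by omega)
    have h1 := bad_count' h (L0 := L0) (l := l) (m := i) (R := Rl l) (by omega) hn.f1 hld.symm (hR l hl)
    have h2 := hRge l
    have h3 : (3 : ℝ) * nb Bad i (Rl l) < Rl l := by
      have h4 : (3 : ℝ) * nb Bad i (Rl l) ≤
          3 * (C * μ ^ (2 * l) * (Γ / a * (Γ * a) ^ l)) * Rl l + 6 * (C * μ ^ (2 * l)) := by
        have := mul_le_mul_of_nonneg_left h1 (by norm_num : (0 : ℝ) ≤ 3)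
        refine this.trans (le_of_eq ?_)
        ring
      have h5 : 3 * (C * μ ^ (2 * l) * (Γ / a * (Γ * a) ^ l)) * Rl l ≤ 1 / 2 * Rl l :=
        mul_le_mul_of_nonneg_right hn.f2 (by positivity)
      have h6 : 0 < C * μ ^ (2 * l) := by positivity
      linarith
    exact_mod_cast h3
  -- the size of one lag
  have hlag : ∀ l, L0 ≤ l → ∀ j, 2 ^ l ≤ j → j < 2 ^ (l + 1) → lag a Bad j ≤ 1 / 4 := by
    intro l hl j hj1 hj2
    obtain ⟨i, hij, c1, c2, c3⟩ := lag_short (a := a) ha1 ha hlow hR hb j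
    rcases hij.eq_or_lt with h' | h'
    · subst h'
      refine c3.trans ?_
      simp [nb]
    · have hlog : Nat.log 2 i ≤ l := by
        refine Nat.lt_succ_iff.1 (Nat.log_lt_of_lt_pow ?_ (by
          show i < 2 ^ (l + 1)
          omega))
        rcases c1 with h'' | h''
        · omega
        · have := Nat.one_le_two_pow (n := L0); omega
      have hRi : Rl (Nat.log 2 i) ≤ Rl (l + 1) := hRmono (by omega)
      have hRl1 := hRsucc l (by omega)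
      have e : 2 ^ l = 2 * 2 ^ (l - 1) := by
        obtain ⟨l', rfl⟩ : ∃ l', l = l' + 1 := ⟨l - 1, by omega⟩
        rw [Nat.add_sub_cancel]; ring
      have hji : j - i ≤ Rl (l + 1) := by
        rcases c2 with h'' | h''
        · omega
        · omega
      have hi2 : 2 ^ (l - 1) ≤ i := by omega
      have hli : l - 1 ≤ Nat.log 2 i := (Nat.le_log_iff_pow_le (by norm_num) (by
        have := Nat.one_le_two_pow (n := l - 1); omega)).2 hi2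
      have hnb : (nb Bad i (j - i) : ℝ) ≤ 13 * C * μ ^ (2 * (l + 1)) + 1 := by
        have h1 : nb Bad i (j - i) ≤ j - i := by
          unfold nb
          refine (Finset.card_filter_le _ _).trans ?_
          rw [Nat.card_Ico]
          omega
        have h2 : (nb Bad i (j - i) : ℝ) ≤ Rl (l + 1) := by exact_mod_cast h1.trans hji
        exact h2.trans (hRle _)
      calc lag a Bad j ≤ a ^ (Nat.log 2 i) * nb Bad i (j - i) := c3
        _ ≤ a ^ (l - 1) * (13 * C * μ ^ (2 * (l + 1)) + 1) := by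
          have := pow_le_pow_of_le_one ha0.le ha1.le hli
          gcongr
        _ ≤ 1 / 4 := (hN l (by omega)).f5
  refine ⟨L0, Bad, Vr a Bad, fun j => Vr_step ha0 j, fun j hj => Vr_bad hj, ?_, ?_, ?_⟩
  · intro l hl j hj
    rw [Finset.mem_Ico] at hj
    have h1 := hlag l hl j hj.1 hj.2
    have h2 := Vs_lo ha0 ha1 (l := l) (by omega) hj.1
    unfold lag at h1
    obtain ⟨l', rfl⟩ : ∃ l', l = l' + 1 := ⟨l - 1, by omega⟩
    rw [Nat.add_sub_cancel] at h2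
    have h3 : 1 ≤ (2 * a) ^ l' := one_le_pow₀ (by linarith)
    have h4 : (2 * a) ^ (l' + 1) ≤ 2 * (2 * a) ^ l' := by
      rw [pow_succ]
      nlinarith
    linarith
  · intro l j hj
    rw [Finset.mem_Ico] at hj
    have h1 := lag_nonneg (Bad := Bad) ha0 j
    unfold lag at h1
    have := Vs_hi ha ha1 (l := l) (j := j) (by omega)
    linarith
  · intro i g hi hg hgΓ hs hV
    have hi0 : i ≠ 0 := by
      have := Nat.one_le_two_pow (n := L0)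
      omega
    have hlL : L0 ≤ Nat.log 2 i := (Nat.le_log_iff_pow_le (by norm_num) hi0).2 hi
    set l := Nat.log 2 i with hld
    have hl1 : 2 ^ l ≤ i := Nat.pow_log_le_self 2 hi0
    have hl2 : i < 2 ^ (l + 1) := Nat.lt_pow_succ_log_self (by norm_num) i
    obtain ⟨l', hl'⟩ : ∃ l', l = l' + 1 := ⟨l - 1, by omega⟩
    have hn := hN l (by omega)
    have hg2 : g ≤ 2 ^ (l - 1) := by
      have h1 : (g : ℝ) ≤ ((2 ^ (l - 1) : ℕ) : ℝ) := by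
        push_cast
        refine hgΓ.trans (le_trans ?_ hn.f1)
        exact pow_le_pow_right₀ hΓ1.le (by omega)
      exact_mod_cast h1
    have p1 : 2 ^ l = 2 * 2 ^ (l - 1) := by
      rw [hl', Nat.add_sub_cancel]; ring
    have p2 : 2 ^ (l + 1) = 2 * 2 ^ l := by ring
    have p3 : 2 ^ (l + 2) = 4 * 2 ^ l := by ring
    have hR' := hRsucc l (by omega)
    -- the number of bad steps in a window
    set Bm : ℝ := C * μ ^ (2 * l) * (Γ / a * (Γ * a) ^ (l - 1) * Γ ^ l + 2) with hBm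
    have hBm0 : 0 ≤ Bm := by positivity
    have hwin : ∀ m, i - Rl (l + 1) ≤ m → m ≤ i → (nb Bad m g : ℝ) ≤ Bm := by
      intro m hm1 hm2
      have hm3 : 2 ^ (l - 1) ≤ m := by omega
      have hm0 : m ≠ 0 := by
        have := Nat.one_le_two_pow (n := l - 1)
        omega
      have hlm1 : l - 1 ≤ Nat.log 2 m := (Nat.le_log_iff_pow_le (by norm_num) hm0).2 hm3
      have hlm2 : Nat.log 2 m ≤ l := Nat.log_mono_right hm2
      have hlm3 : 2 ^ (l - 1) ≤ 2 ^ (Nat.log 2 m) := Nat.pow_le_pow_right (by norm_num) hlm1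
      have h1 := bad_count' h (L0 := L0) (l := Nat.log 2 m) (m := m) (R := g) (by omega)
        (hN _ (by omega)).f1 rfl (by omega)
      refine h1.trans ?_
      rw [hBm]
      have k1 : μ ^ (2 * Nat.log 2 m) ≤ μ ^ (2 * l) := pow_le_pow_right₀ hμ (by omega)
      have k2 : (Γ * a) ^ (Nat.log 2 m) ≤ (Γ * a) ^ (l - 1) :=
        pow_le_pow_of_le_one (by positivity) h.hΓa.le hlm1
      gcongr
    have hsum := lag_sum (a := a) (Bad := Bad) ha1 ha hlow hR hb (l := l) (g := g) (i0 := i) (R' := Rl (l + 1))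
      (by omega) hl1 (by omega) (by omega) (fun l' hl' => hRmono hl') hBm0 hwin
    have hsum2 : ∑ j ∈ Finset.Ico i (i + g), lag a Bad j ≤ 4 * (Γ * a) ^ l := by
      refine hsum.trans (le_trans ?_ hn.f4)
      have := hRle (l + 1)
      have hal : 0 < a ^ (l - 1) := by positivity
      gcongr
    have hsum0 : 0 ≤ ∑ j ∈ Finset.Ico i (i + g), lag a Bad j :=
      Finset.sum_nonneg fun j _ => lag_nonneg ha0 j
    have e : ∑ j ∈ Finset.Ico i (i + g), lag a Bad j = Sg a g i - ∑ t ∈ Finset.range g, Vr a Bad (i + t) := by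
      rw [Finset.sum_Ico_eq_sum_range, Nat.add_sub_cancel_left]
      unfold lag Sg
      rw [Finset.sum_sub_distrib]
    obtain ⟨b, hb'⟩ := hV
    have hcoll : Coll a ρ Γ κ0 w g i := by
      refine ⟨hg, hgΓ, hs, b, ?_⟩
      have e2 : Sg a g i - b = (∑ t ∈ Finset.range g, Vr a Bad (i + t) - b) +
          ∑ j ∈ Finset.Ico i (i + g), lag a Bad j := by rw [e]; ring
      rw [e2]
      refine (abs_add_le _ _).trans ?_
      rw [abs_of_nonneg hsum0]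
      linarith
    exact ⟨⟨hi, Or.inl ⟨g, hcoll⟩⟩, ⟨by omega, Or.inr ⟨g, i, rfl, hi, hcoll⟩⟩⟩

end Pool.Agent.J6H35.TL
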