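import Pool.Agent.J6H35.TL.Seq6

/-!
# The sequences of positions and velocities, and the parameters, for the larger smoothness
-/

set_option autoImplicit false

open Set Filter Topology MeasureTheory
open scoped ContDiff

noncomputable section

namespace Pool.Agent.J6H35.TL

open Pool.Agent.N980.TL Pool.Agent.J6H70.AD Pool.Agent.J6H59.AD

/-- the parameters -/
structure Par7 (r : ℕ) (δ x x' γ τ : ℝ) : Prop where
  hδ0 : 0 < δ
  hδ1 : δ < 1
  hx0 : 0 < x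
  hxx : x ≤ x'
  hγ0 : 0 < γ
  hγ1 : γ < 1
  hγδ : γ + δ - 1 < 0
  hτ : 0 < τ
  hrτ : 1 < r * τ
  hμ1 : x / τ ≤ γ
  hμa : 4 * (γ - x / τ) + (γ + δ - 1) < 0
  hμΓ : 4 * (γ - x / τ) < γ
  hx' : -x' + τ * (1 - x') < 0
  h2ρ : 1 - x < γ
  hρΓ : -x < γ + δ - 1
  hgood : ((r : ℝ) + 3) * δ - 1 + (r + 1) * x < 0
  hbad : -2 + ((r : ℝ) + 2) * δ + (r + 1) * x' < 0

theorem params7 (r : ℕ) (hr : 1 ≤ r) : ∃ x x' γ τ : ℝ, Par7 r (1 / (25 * (r + 1) ^ 2)) x x' γ τ := by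
  have hr1 : (1 : ℝ) ≤ r := by exact_mod_cast hr
  obtain ⟨t, ht⟩ : ∃ t : ℝ, t = 1 / (r + 1) := ⟨_, rfl⟩
  have ht0 : 0 < t := by rw [ht]; positivity
  have ht2 : t ≤ 1 / 2 := by
    rw [ht]
    exact one_div_le_one_div_of_le (by norm_num) (by linarith)
  have hrt : r * t = 1 - t := by
    rw [ht]
    field_simp
    ring
  have hrx : r * (t * (1 - t / 8)) = (1 - t) * (1 - t / 8) := by rw [← hrt]; ring
  have hx0 : 0 < t * (1 - t / 8) := by
    have : 0 < 1 - t / 8 := by linarith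
    positivity
  have htt : 0 < t * t := by positivity
  have ht3 : t * t ≤ t / 2 := by nlinarith
  have hden : 0 < r * (t * (1 - t / 8)) - t / 64 := by
    rw [hrx]; nlinarith
  have hxτ : t * (1 - t / 8) / (t * (1 - t / 8) / (r * (t * (1 - t / 8)) - t / 64)) =
      r * (t * (1 - t / 8)) - t / 64 := by
    have := hx0.ne'
    have := hden.ne'
    rw [div_div_eq_mul_div, mul_div_assoc, mul_comm, div_mul_cancel₀ _ hx0.ne']
  have hδ : (1 : ℝ) / (25 * (r + 1) ^ 2) = t ^ 2 / 25 := by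
    rw [ht]
    field_simp
  rw [hδ]
  refine ⟨t * (1 - t / 8), 3 / 2 * t, 1 - t * (1 - t / 8) + t / 64,
    t * (1 - t / 8) / (r * (t * (1 - t / 8)) - t / 64), ?_⟩
  have hτ0 : 0 < t * (1 - t / 8) / (r * (t * (1 - t / 8)) - t / 64) := div_pos hx0 hden
  refine ⟨by positivity, by nlinarith, hx0, by nlinarith, by nlinarith, by nlinarith, by nlinarith, hτ0, ?_,
    ?_, ?_, ?_, ?_, by nlinarith, by nlinarith, ?_, ?_⟩
  · rw [← mul_div_assoc, one_lt_div hden]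
    linarith
  · rw [hxτ, hrx]; nlinarith
  · rw [hxτ, hrx]; nlinarith
  · rw [hxτ, hrx]; nlinarith
  · have h1 : (-(3 / 2 * t) + t * (1 - t / 8) / (r * (t * (1 - t / 8)) - t / 64) * (1 - 3 / 2 * t)) *
        (r * (t * (1 - t / 8)) - t / 64) < 0 := by
      rw [add_mul, mul_right_comm, div_mul_cancel₀ _ hden.ne', hrx]
      nlinarith [mul_pos htt ht0]
    by_contra hc
    push Not at hc
    have := mul_nonneg hc hden.le
    linarith
  · have e : ((r : ℝ) + 3) * (t ^ 2 / 25) = (r * t + 3 * t) * (t / 25) := by ring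
    have e2 : ((r : ℝ) + 1) * (t * (1 - t / 8)) = (r * t + t) * (1 - t / 8) := by ring
    rw [e, e2, hrt]
    nlinarith
  · have e : ((r : ℝ) + 2) * (t ^ 2 / 25) = (r * t + 2 * t) * (t / 25) := by ring
    have e2 : ((r : ℝ) + 1) * (3 / 2 * t) = 3 / 2 * (r * t + t) := by ring
    rw [e, e2, hrt]
    nlinarith

theorem seq7 (hUU : S_UU) (r : ℕ) (w : Fin r → ℝ) {a : ℝ} (ha : 1 / 2 < a) (ha1 : a < 1) {Bad : ℕ → Prop}
    {Vf : ℕ → ℝ} (v1 : ∀ j, 0 ≤ Vf (j + 1) - Vf j ∧ Vf (j + 1) - Vf j ≤ 2 * a ^ (Nat.log 2 j))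
    (v2 : ∀ j, Bad j → Vf (j + 1) = Vf j) :
    ∃ (P U A : ℕ → E (r + 2)), (∀ j, U (j + 1) = U j + A j) ∧
      (∀ j, P (j + 1) = P j + U j + kap • A j) ∧ (∀ j, U j 0 = Vf j) ∧
      (∀ j, U j 1 = uu (1 / 32) j) ∧ P 0 1 = 0 ∧ (∀ (i : Fin r) (j : ℕ), U j i.succ.succ = w i) ∧
      (∀ j, 1 ≤ j → ‖A j‖ ≤ 2 * a ^ (Nat.log 2 j)) ∧
      (∀ j, 1 ≤ j → Bad j → ‖A j‖ ≤ (1 / 4) ^ (Nat.log 2 j)) ∧
      (∀ j, 0 ≤ A j 0 ∧ A j 0 ≤ 2 * a ^ (Nat.log 2 j)) ∧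
      (∀ j, ∀ i, i ≠ 0 → |U j i| ≤ 2 + ‖w‖) := by
  obtain ⟨u1, u2, u3, u4, -, -⟩ := hUU (1 / 32) (by norm_num) (by norm_num)
  set U : ℕ → E (r + 2) := fun j => Fin.cases (Vf j) (Fin.cases (uu (1 / 32) j) (fun i => w i)) with hU
  set A : ℕ → E (r + 2) := fun j => U (j + 1) - U j with hA
  have hU0 : ∀ j, U j 0 = Vf j := fun j => rfl
  have hU1 : ∀ j, U j 1 = uu (1 / 32) j := fun j => rfl
  have hU2 : ∀ (i : Fin r) (j : ℕ), U j i.succ.succ = w i := fun i j => rfl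
  have hA0 : ∀ j, A j 0 = Vf (j + 1) - Vf j := fun j => rfl
  have hA1 : ∀ j, A j 1 = uu (1 / 32) (j + 1) - uu (1 / 32) j := fun j => rfl
  have hA2 : ∀ (i : Fin r) (j : ℕ), A j i.succ.succ = 0 := fun i j => sub_self _
  have ha0 : 0 < a := by linarith
  have c3 : ∀ j, 1 ≤ j → |A j 1| ≤ (1 / 4) ^ (Nat.log 2 j) := by
    intro j hj1
    set l := Nat.log 2 j with hl
    rw [hA1, abs_sub_comm, abs_of_nonneg (by linarith [u1 j])]
    have h1 := u4 j hj1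
    rw [← hl] at h1
    refine h1.trans ?_
    unfold ww
    have h5 : (1 : ℝ) ≤ 2 ^ l := one_le_pow₀ (by norm_num)
    have h6 : (1 : ℝ) ≤ ((l : ℝ) + 1) ^ 2 := by
      apply one_le_pow₀
      have : (0 : ℝ) ≤ (l : ℝ) := by positivity
      linarith
    have h7 : (4 : ℝ) ^ l = 2 ^ l * 2 ^ l := by rw [← mul_pow]; norm_num
    rw [one_div_pow, h7, div_div, div_le_div_iff₀ (by positivity) (by positivity)]
    have h8 : 0 < (2 : ℝ) ^ l * 2 ^ l := by positivity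
    nlinarith [mul_le_mul_of_nonneg_left h6 h8.le]
  refine ⟨fun j => ∑ i ∈ Finset.range j, (U i + kap • A i), U, A, fun j => ?_,
    fun j => ?_, hU0, hU1, ?_, hU2, fun j hj => ?_, fun j hj hb => ?_, fun j => ?_, fun j i hi => ?_⟩
  · simp only [hA]; abel
  · simp only [Finset.sum_range_succ]; abel
  · simp
  · have hal : 0 < a ^ (Nat.log 2 j) := by positivity
    rw [pi_norm_le_iff_of_nonneg (by positivity)]
    intro i
    rw [Real.norm_eq_abs]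
    refine Fin.cases ?_ (fun i => Fin.cases ?_ (fun i => ?_) i) i
    · rw [hA0, abs_of_nonneg (v1 j).1]
      exact (v1 j).2
    · have h1 : ((1 : ℝ) / 4) ^ (Nat.log 2 j) ≤ a ^ (Nat.log 2 j) :=
        pow_le_pow_left₀ (by norm_num) (by linarith) _
      have h2 : |A j (Fin.succ 0)| ≤ (1 / 4) ^ (Nat.log 2 j) := c3 j hj
      linarith
    · rw [hA2, abs_zero]
      positivity
  · rw [pi_norm_le_iff_of_nonneg (by positivity)]
    intro i
    rw [Real.norm_eq_abs]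
    refine Fin.cases ?_ (fun i => Fin.cases ?_ (fun i => ?_) i) i
    · rw [hA0, v2 j hb, sub_self, abs_zero]
      positivity
    · exact c3 j hj
    · rw [hA2, abs_zero]
      positivity
  · rw [hA0]
    exact v1 j
  · refine Fin.cases (fun h => absurd rfl h) (fun i => Fin.cases (fun _ => ?_) (fun i _ => ?_) i) i hi
    · show |U j 1| ≤ _
      rw [hU1, abs_of_pos (u2 j).1]
      linarith [(u2 j).2, norm_nonneg w]
    · rw [hU2]
      have := norm_le_pi_norm w i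
      rw [Real.norm_eq_abs] at this
      linarith

/-- the bound of the potentials -/
theorem pot7_le {a b ρ CL x : ℝ} {k K l : ℕ} (ha0 : 0 < a) (hb0 : 0 < b) (hρ0 : 0 < ρ)
    (hK : (1 / (2 * a)) ^ K ≤ b) (hx : x ≤ CL * b ^ l) (hx0 : 0 ≤ x) :
    (x + 1 / ((2 * a) ^ l / 4) ^ K) * ρ ^ l * ((2 * a) ^ l / 4 / ρ ^ l) ^ k ≤
      (CL + 4 ^ K) * (b * ρ * ((2 * a) ^ k / ρ ^ k)) ^ l := by
  have e1 : 1 / ((2 * a) ^ l / 4) ^ K = 4 ^ K * ((1 / (2 * a)) ^ K) ^ l := by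
    rw [div_pow, one_div_div, ← pow_mul, ← pow_mul, mul_comm K l, one_div_pow, mul_one_div]
  have h1 : 1 / ((2 * a) ^ l / 4) ^ K ≤ 4 ^ K * b ^ l := by
    rw [e1]
    gcongr
  have h2 : ((2 * a) ^ l / 4 / ρ ^ l) ^ k ≤ ((2 * a) ^ l / ρ ^ l) ^ k := by
    have : (2 * a) ^ l / 4 ≤ (2 * a) ^ l := by
      have : 0 < (2 * a) ^ l := by positivity
      linarith
    gcongr
  have e2 : ((2 * a) ^ l / ρ ^ l) ^ k = ((2 * a) ^ k / ρ ^ k) ^ l := by
    rw [div_pow, div_pow, ← pow_mul, ← pow_mul, ← pow_mul, ← pow_mul, mul_comm k l]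
  have h3 : 0 ≤ (CL * b ^ l + 4 ^ K * b ^ l) * ρ ^ l := by
    have : 0 ≤ CL * b ^ l := hx0.trans hx
    positivity
  calc (x + 1 / ((2 * a) ^ l / 4) ^ K) * ρ ^ l * ((2 * a) ^ l / 4 / ρ ^ l) ^ k
      ≤ (CL * b ^ l + 4 ^ K * b ^ l) * ρ ^ l * ((2 * a) ^ l / ρ ^ l) ^ k := by gcongr
    _ = (CL + 4 ^ K) * (b * ρ * ((2 * a) ^ k / ρ ^ k)) ^ l := by
        rw [e2, mul_pow, mul_pow]; ring

end Pool.Agent.J6H35.TL
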