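import Pool.Agent.J6H35.TL.Main6
import Pool.Agent.J6H35.TL.Seq7
import Pool.Agent.J6H35.TL.Sep7

/-!
# Main theorem for trigonometric polynomials, `C^n` in dimension `n = r + 2`
-/

set_option autoImplicit false

open Set Filter Topology MeasureTheory
open scoped ContDiff

noncomputable section

namespace Pool.Agent.J6H35.TL

open Pool.Agent.N980.TL Pool.Agent.J6H70.AD Pool.Agent.J6H59.AD

theorem main7 (hf : S_FN) (hBND : S_BND6) (hPer : S_PER3) (hSum : S_SUM) (hNrm : S_NRM) (hLam : S_LAM)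
    (hUU : S_UU) (hDio : S_DIO) (hAVG : S_AVG6) (hGAM : S_GAM6) (hCOL : S_COL5)
    (k r : ℕ) (hkd : k = r + 2) {δ x x' γ τ : ℝ} (hpar : Par7 r δ x x' γ τ)
    (N0 : ℕ) (D0 : Trig (r + 2) N0) (ε : ℝ) (hε : 0 < ε) (Vmin : ℝ) :
    ∃ (F : Z (r + 2) → ℝ) (γ : ℝ → Fin (r + 2) → ℝ),
      ContDiff ℝ k F ∧ Periodic (fun x t => F (x, t)) ∧
      (∀ i ≤ k, ∀ q, ‖iteratedFDeriv ℝ i F q‖ ≤ ε) ∧
      (∃ c > 0, ∀ t, 0 ≤ t → c * t ^ δ ≤ ‖deriv γ t‖) ∧ (∀ t, 0 ≤ t → Vmin < ‖deriv γ t‖) ∧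
      ∀ L : (Fin (r + 2) → ℝ) → (Fin (r + 2) → ℝ) → ℝ → ℝ,
        (∀ x v t, Vmin ≤ ‖v‖ → L x v t = (∑ i, v i ^ 2) / 2) →
        ∀ t, 0 < t → EulerLagrange (fun x v t => L x v t + (D0.val x t + F (x, t))) γ t := by

  have hkr : (k : ℝ) = r + 2 := by rw [hkd]; push_cast; ring

  have hδ0 := hpar.hδ0
  have hδ1 := hpar.hδ1
  obtain ⟨w, c1, hc1, hD⟩ := hDio r τ hpar.hrτ
  obtain ⟨N, D, M0, g, hM1, hpos, -, hval⟩ := hNrm (r + 2) N0 D0
  have hk : ∀ μ, D.k μ ≠ 0 := by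
    intro μ h
    have h1 := hpos μ
    rw [h] at h1
    simp at h1
  set ρ : ℝ := 2 ^ (-x) with hρ
  set ρ' : ℝ := 2 ^ (-x') with hρ'
  set a : ℝ := 2 ^ (δ - 1) with ha
  set Γ : ℝ := 2 ^ γ with hΓ
  have hρ0 : 0 < ρ := by positivity
  have hρ'0 : 0 < ρ' := by positivity
  have ha0 : 0 < a := by positivity
  have hΓ0 : 0 < Γ := by positivity
  have hx0 := hpar.hx0
  have hρ1 : ρ < 1 := Real.rpow_lt_one_of_one_lt_of_neg (by norm_num) (by linarith)
  have hρ'ρ : ρ' ≤ ρ := Real.rpow_le_rpow_of_exponent_le (by norm_num) (by linarith [hpar.hxx])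
  have h2a : 2 * a = 2 ^ δ := by
    rw [ha, Real.rpow_sub_one (by norm_num)]; ring
  have ha1 : a < 1 := Real.rpow_lt_one_of_one_lt_of_neg (by norm_num) (by linarith)
  have h2a1 : 1 < 2 * a := by rw [h2a]; exact Real.one_lt_rpow (by norm_num) hδ0
  have ha2 : 1 / 2 < a := by linarith
  have hΓ1 : 1 < Γ := Real.one_lt_rpow (by norm_num) hpar.hγ0
  have hΓ2 : Γ < 2 := by
    calc Γ < 2 ^ (1 : ℝ) := Real.rpow_lt_rpow_of_exponent_lt (by norm_num) hpar.hγ1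
      _ = 2 := Real.rpow_one 2
  have hΓae : Γ * a = 2 ^ (γ + δ - 1) := by
    rw [hΓ, ha, ← Real.rpow_add (by norm_num)]
    congr 1
    ring
  have hΓa : Γ * a < 1 := by
    rw [hΓae]
    exact Real.rpow_lt_one_of_one_lt_of_neg (by norm_num) hpar.hγδ
  have het : et7 ρ τ = 2 ^ (x / τ) := by
    unfold et7
    rw [hρ, ← Real.rpow_mul (by norm_num)]
    congr 1
    ring
  have hμe : (Γ / et7 ρ τ) ^ 4 = 2 ^ (4 * (γ - x / τ)) := by
    rw [het, hΓ, ← Real.rpow_sub (by norm_num), ← Real.rpow_natCast, ← Real.rpow_mul (by norm_num)]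
    congr 1
    push_cast
    ring
  have hρτ : ρ' * (2 * ρ') ^ τ < 1 := by
    have e1 : 2 * ρ' = 2 ^ (1 - x') := by
      rw [hρ', Real.rpow_sub (by norm_num), Real.rpow_one, Real.rpow_neg (by norm_num)]; ring
    rw [e1, ← Real.rpow_mul (by norm_num), hρ', ← Real.rpow_add (by norm_num)]
    exact Real.rpow_lt_one_of_one_lt_of_neg (by norm_num) (by linarith [hpar.hx'])
  have h2ρ : 2 * ρ < Γ := by
    have e1 : 2 * ρ = 2 ^ (1 - x) := by
      rw [hρ, Real.rpow_sub (by norm_num), Real.rpow_one, Real.rpow_neg (by norm_num)]; ring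
    rw [e1, hΓ]
    exact Real.rpow_lt_rpow_of_exponent_lt (by norm_num) hpar.h2ρ
  have hρΓ : ρ < Γ * a := by
    rw [hΓae, hρ]
    exact Real.rpow_lt_rpow_of_exponent_lt (by norm_num) hpar.hρΓ
  obtain ⟨K', hK'⟩ := exists_nat_ge (2 / δ)
  have hKb : (1 / (2 * a)) ^ K' ≤ 1 / 4 := by
    have e4 : (1 : ℝ) / 4 = 2 ^ (-(2 : ℝ)) := by
      rw [Real.rpow_neg (by norm_num)]
      norm_num
    rw [one_div, h2a, ← Real.rpow_neg (by norm_num), ← Real.rpow_natCast, ← Real.rpow_mul (by norm_num), e4]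
    refine Real.rpow_le_rpow_of_exponent_le (by norm_num) ?_
    rw [div_le_iff₀ hδ0] at hK'
    linarith
  have hKa : (1 / (2 * a)) ^ K' ≤ a := by linarith
  obtain ⟨S, X, hX⟩ := hAVG (r + 2) N D hk K'
  obtain ⟨Λ, CL, hCL1, hΛ0, hΛ, hΛs, hΛn⟩ := hLam r (2 * S + 1)
  have hCL0 : 0 < CL := by linarith
  have hkap : 0 ≤ kap ∧ kap ≤ 1 := by
    obtain ⟨-, -, -, -, -, -, -, -, -, h, -⟩ := hf
    exact h
  set C : ℝ := 2 + 2 / (2 * a - 1) with hC
  have hC1 : 1 ≤ C := by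
    have : 0 < 2 / (2 * a - 1) := div_pos (by norm_num) (by linarith)
    rw [hC]; linarith
  set W0 : ℝ := 2 + ‖w‖ with hW0
  have hW00 : 0 ≤ W0 := by rw [hW0]; positivity
  set KK : ℝ := 4 * C + 2 with hKK
  have hKK0 : 0 ≤ KK := by rw [hKK]; linarith
  obtain ⟨V1, hNR⟩ := nrs_of Λ hΛs hΛn W0 KK hW00 hKK0 hCL0.le
  set C1 : ℝ := CL * (KK + W0) + 2 with hC1d
  obtain ⟨Cg, hCg1, hGam⟩ := hGAM k (r + 2) N D K' S X hX (1 / 2) C1 (by norm_num)
  obtain ⟨Cc, hCc1, hCol⟩ := hCOL (r + 2) N D K' S X hX.toCorr (1 / 2) C1 (by norm_num)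
  obtain ⟨CA, hCA1, hBA⟩ := hBND k (r + 2) chA Cg chA_smooth (by
    intro s hs
    have hs' : s < 1 / 8 ∨ 7 / 8 < s := by
      by_contra hc
      push Not at hc
      exact hs ⟨by linarith [hc.1], by linarith [hc.2]⟩
    rcases hs' with h | h
    · filter_upwards [gt_mem_nhds h] with s' hs'
      exact chA_zero (Or.inl hs'.le)
    · filter_upwards [lt_mem_nhds h] with s' hs'
      exact chA_zero (Or.inr hs'.le))
  obtain ⟨CB, hCB1, hBB⟩ := hBND k (r + 2) chB Cg chB_smooth (by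
    intro s hs
    have hs' : s < -(1 / 4) ∨ 1 / 4 < s := by
      by_contra hc
      push Not at hc
      exact hs ⟨by linarith [hc.1], by linarith [hc.2]⟩
    rcases hs' with h | h
    · filter_upwards [gt_mem_nhds h] with s' hs'
      exact chB_zero (Or.inl hs'.le)
    · filter_upwards [lt_mem_nhds h] with s' hs'
      exact chB_zero (Or.inr hs'.le))
  have hCg0 : 0 < Cg := by linarith
  have hCc0 : 0 < Cc := by linarith
  set K : ℝ := max CA CB with hK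
  have hK1 : 1 ≤ K := hCA1.trans (le_max_left _ _)
  set MM : ℝ := ((2 * S + 1 : ℕ) : ℝ) + 1 with hMM
  have hMM1 : 1 ≤ MM := by rw [hMM]; push_cast; linarith [(Nat.cast_nonneg S : (0 : ℝ) ≤ S)]
  set B0 : ℝ := MM * (1 + 16 * Cc * CL) with hB0
  have hB01 : 1 ≤ B0 := by
    have : 0 < Cc * CL := by positivity
    nlinarith
  have hyp : Hyp' a ρ Γ τ c1 (13 * B0) w :=
    { ha := ha2, ha1 := ha1, hρ0 := hρ0, hρ1 := hρ1, hΓ1 := hΓ1, hΓ2 := hΓ2, hΓa := hΓa, hτ := hpar.hτ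
      hc1 := hc1, hκ := by positivity, hD := hD
      hμ1 := by
        rw [het, hΓ]
        exact Real.rpow_le_rpow_of_exponent_le (by norm_num) hpar.hμ1
      hμa := by
        rw [hμe, hΓae, ← Real.rpow_add (by norm_num)]
        exact Real.rpow_lt_one_of_one_lt_of_neg (by norm_num) hpar.hμa
      hμΓ := by
        rw [hμe, hΓ]
        exact Real.rpow_lt_rpow_of_exponent_lt (by norm_num) hpar.hμΓ }
  obtain ⟨L1, Bad, Vf, v1, v2, v3, v4, hSep⟩ := sep7 hB01 hyp hρ'0 hρ'ρ hρτ h2ρ hρΓ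
  obtain ⟨P, U, A, hU, hP, hU0, hU1, hP0, hU2, hAn, hAb, hA0, hUW⟩ := seq7 hUU r w ha2 ha1 v1 v2
  have hSep' := hSep P U A hU hP hU0 hU1 hP0 hU2
  set V : ℕ → ℝ := fun l => (2 * a) ^ l / 4 with hV
  have hV0 : ∀ l, 0 < V l := fun l => by simp only [hV]; positivity
  set q : ℝ := a * ρ * ((2 * a) ^ k / ρ ^ k) with hq
  have hq0 : 0 ≤ q := by positivity
  have hq1 : q < 1 := by
    rw [hq, h2a, ha, hρ, ← Real.rpow_natCast, ← Real.rpow_natCast, ← Real.rpow_mul (by norm_num),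
      ← Real.rpow_mul (by norm_num), ← Real.rpow_sub (by norm_num), ← Real.rpow_add (by norm_num),
      ← Real.rpow_add (by norm_num)]
    refine Real.rpow_lt_one_of_one_lt_of_neg (by norm_num) ?_
    rw [hkr]
    have := hpar.hgood
    linarith
  set q' : ℝ := 1 / 4 * ρ' * ((2 * a) ^ k / ρ' ^ k) with hq'
  have hq'0 : 0 ≤ q' := by positivity
  have hq'1 : q' < 1 := by
    have e4 : (1 : ℝ) / 4 = 2 ^ (-(2 : ℝ)) := by
      rw [Real.rpow_neg (by norm_num)]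
      norm_num
    rw [hq', h2a, e4, hρ', ← Real.rpow_natCast, ← Real.rpow_natCast, ← Real.rpow_mul (by norm_num),
      ← Real.rpow_mul (by norm_num), ← Real.rpow_sub (by norm_num), ← Real.rpow_add (by norm_num),
      ← Real.rpow_add (by norm_num)]
    refine Real.rpow_lt_one_of_one_lt_of_neg (by norm_num) ?_
    rw [hkr]
    have := hpar.hbad
    linarith
  set Cb : ℝ := K * Cg * (2 * CL + 4 ^ K') with hCb
  have hCb0 : 0 ≤ Cb := by positivity
  set BB : ℕ → ℝ := fun l => Cb * q ^ l + Cb * q' ^ l with hBBd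
  have hBB0 : ∀ l, 0 ≤ BB l := fun l => by simp only [hBBd]; positivity
  have hBBs : Summable BB := ((summable_geometric_of_lt_one hq0 hq1).mul_left Cb).add
    ((summable_geometric_of_lt_one hq'0 hq'1).mul_left Cb)
  -- the choice of `l0`
  obtain ⟨l0, hl00, hl02, hL1, hl01⟩ : ∃ l0 : ℕ, (∀ l, l0 ≤ l →
      max (max V1 Cc) (max (2 * Cg + 1) (2 * |Vmin| + 1)) ≤ V l) ∧ (∀ l, l0 ≤ l → 2 * CL * a ^ l ≤ 1) ∧
      L1 ≤ l0 ∧ ∑' l, BB (l + l0) ≤ ε / 2 := by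
    have t1 := (tendsto_sum_nat_add BB).eventually_le_const (half_pos hε)
    have hVt : Tendsto V atTop atTop :=
      (tendsto_pow_atTop_atTop_of_one_lt h2a1).atTop_div_const (by norm_num)
    have t2 := hVt.eventually_ge_atTop (max (max V1 Cc) (max (2 * Cg + 1) (2 * |Vmin| + 1)))
    have t3 : ∀ᶠ l : ℕ in atTop, 2 * CL * a ^ l ≤ 1 := by
      have := (tendsto_pow_atTop_nhds_zero_of_lt_one ha0.le ha1).const_mul (2 * CL)
      rw [mul_zero] at this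
      exact this.eventually_le_const one_pos
    obtain ⟨l1, h1⟩ := eventually_atTop.1 (((t1.and t2).and (eventually_ge_atTop L1)).and t3)
    exact ⟨l1, fun l hl => (h1 l hl).1.1.2, fun l hl => (h1 l hl).2, (h1 l1 le_rfl).1.2, (h1 l1 le_rfl).1.1.1⟩
  have g1 : ∀ l, l0 ≤ l → V1 ≤ V l := fun l hl =>
    ((le_max_left _ _).trans (le_max_left _ _)).trans (hl00 l hl)
  have g3 : ∀ l, l0 ≤ l → Cc ≤ V l := fun l hl =>
    ((le_max_right _ _).trans (le_max_left _ _)).trans (hl00 l hl)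
  have g6 : ∀ l, l0 ≤ l → 2 * Cg + 1 ≤ V l := fun l hl =>
    ((le_max_left _ _).trans (le_max_right _ _)).trans (hl00 l hl)
  have g7 : ∀ l, l0 ≤ l → 2 * |Vmin| + 1 ≤ V l := fun l hl =>
    ((le_max_right _ _).trans (le_max_right _ _)).trans (hl00 l hl)
  have hV1 : ∀ l, l0 ≤ l → 1 ≤ V l := fun l hl => by linarith [g6 l hl]
  set d : ℕ → ℝ := rad7 ρ ρ' Bad with hd
  have hd0 : ∀ j, 0 < d j := fun j => by
    simp only [hd, rad7]
    split_ifs <;> positivity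
  have hdle : ∀ j, d j ≤ 1 := fun j => by
    simp only [hd, rad7]
    split_ifs
    · exact pow_le_one₀ hρ'0.le (hρ'ρ.trans hρ1.le)
    · exact pow_le_one₀ hρ0.le hρ1.le
  have hge1 : ∀ {l j : ℕ}, j ∈ Finset.Ico (2 ^ l) (2 ^ (l + 1)) → 1 ≤ j := fun {l j} hj =>
    Nat.one_le_two_pow.trans (Finset.mem_Ico.1 hj).1
  -- the path
  set G : ℕ → ℝ → E (r + 2) := fun j s => gm X (Λ (P j)) (Λ (U j)) (Λ (A j)) s with hG
  have hΛA1 : ∀ l, ∀ j ∈ Finset.Ico (2 ^ l) (2 ^ (l + 1)), ‖Λ (A j)‖ ≤ 2 * CL * a ^ l := fun l j hj => by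
    refine (hΛn _).trans ?_
    have h1 := mul_le_mul_of_nonneg_left (hAn j (hge1 hj)) hCL0.le
    rw [log_block hj] at h1
    linarith
  have hΛA2 : ∀ l, ∀ j ∈ Finset.Ico (2 ^ l) (2 ^ (l + 1)), Bad j → ‖Λ (A j)‖ ≤ CL * (1 / 4) ^ l :=
    fun l j hj hb => by
      refine (hΛn _).trans ?_
      have h1 := mul_le_mul_of_nonneg_left (hAb j (hge1 hj) hb) hCL0.le
      rwa [log_block hj] at h1
  have hΛA3 : ∀ l, l0 ≤ l → ∀ j ∈ Finset.Ico (2 ^ l) (2 ^ (l + 1)), ‖Λ (A j)‖ ≤ 1 :=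
    fun l hl j hj => (hΛA1 l j hj).trans (hl02 l hl)
  have hA : ∀ l, l0 ≤ l → ∀ j ∈ Finset.Ico (2 ^ l) (2 ^ (l + 1)), (0 ≤ A j 0 ∧ A j 0 ≤ 2 * a ^ l) ∧
      (2 * a) ^ l ≤ 4 * U j 0 ∧ U j 0 ≤ C * (2 * a) ^ l := by
    intro l hl j hj
    have h1 := hA0 j
    rw [log_block hj] at h1
    refine ⟨h1, ?_, ?_⟩
    · rw [hU0]
      exact v3 l (hL1.trans hl) j hj
    · rw [hU0]
      exact v4 l j hj
  have hall : ∀ l, l0 ≤ l → ∀ j ∈ Finset.Ico (2 ^ l) (2 ^ (l + 1)),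
      NRS S (1 / 2) C1 (V l) (Λ (U j)) ∧ NRS S (1 / 2) C1 (V l) (Λ (U j) + Λ (A j)) ∧
      ‖Λ (U j)‖ ≤ CL * (KK + W0) * V l := by
    intro l hl j hj
    obtain ⟨⟨b1, b2⟩, b3, b4⟩ := hA l hl j hj
    have h1 := hV1 l hl
    have hal : a ^ l ≤ 1 := pow_le_one₀ ha0.le ha1.le
    have e : (2 * a) ^ l = 4 * V l := by simp only [hV]; ring
    rw [e] at b3 b4
    have e2 : U (j + 1) 0 = U j 0 + A j 0 := by rw [hU]; rfl
    have a1 := hNR (V l) (U j) (g1 l hl) h1 (by linarith) (by rw [hKK]; nlinarith) (hUW j)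
    have a2 := hNR (V l) (U (j + 1)) (g1 l hl) h1 (by rw [e2]; linarith) (by rw [e2, hKK]; nlinarith)
      (hUW (j + 1))
    refine ⟨a1.1, ?_, a1.2⟩
    rw [← map_add, ← hU]
    exact a2.1
  have hgm : ∀ l, l0 ≤ l → ∀ j ∈ Finset.Ico (2 ^ l) (2 ^ (l + 1)), ∀ i,
      ContDiff ℝ ∞ (fun s => G j s i) ∧ Cls k (V l) (Cg * V l) (deriv fun s => G j s i) ∧
      Cls k (V l) (Cg * (‖Λ (A j)‖ + 1 / V l ^ K')) (fun s => Fo D (G j) s i) ∧
      ∀ s, 0 ≤ s → s ≤ 1 → |deriv (fun s => G j s i) s - (Λ (U j) i + tp s * Λ (A j) i)| ≤ Cg / V l := by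
    intro l hl j hj i
    obtain ⟨k1, k2, k3⟩ := hall l hl j hj
    obtain ⟨m1, m2, m3, m4, m5⟩ := hGam (V l) (Λ (P j)) (Λ (U j)) (Λ (A j)) (hV1 l hl)
      (hΛA3 l hl j hj) k1 k2 i
    exact ⟨m1, m2, m4, m5⟩
  have hglue : ∀ j s, 3 / 4 ≤ s → s ≤ 5 / 4 → G j s = G (j + 1) (s - 1) := by
    intro j s h0 h1
    simp only [hG]
    rw [hP j, hU j]
    simp only [map_add, map_smul]
    exact gm_glue hf X (Λ (P j)) (Λ (U j)) (Λ (A j)) (Λ (A (j + 1))) h0 h1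
  have hGs : ∀ j, 2 ^ l0 ≤ j → ∀ i, ContDiff ℝ ∞ (fun s => G j s i) := fun j hj i =>
    (hgm _ (mem_block hj).1 j (mem_block hj).2 i).1
  have hdisj : ∀ i j, 2 ^ l0 ≤ i → i < j → ∀ σ : ℝ, -1 ≤ σ → σ ≤ 1 → ∀ x : E (r + 2),
      (∀ m, |Real.sin (Real.pi * (x m - G i σ m))| ≤ d i) →
      (∀ m, |Real.sin (Real.pi * (x m - G j σ m))| ≤ d j) → False := by
    intro i j hi hij σ h0 h1 x q1 q2
    have hj : 2 ^ l0 ≤ j := hi.trans hij.le
    obtain ⟨hli, hbi⟩ := mem_block hi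
    obtain ⟨hlj, hbj⟩ := mem_block hj
    have hlij : Nat.log 2 i ≤ Nat.log 2 j := Nat.log_mono_right hij.le
    set li := Nat.log 2 i with hlid
    set lj := Nat.log 2 j with hljd
    have hVij : V li ≤ V lj := by
      simp only [hV]
      have := pow_le_pow_right₀ h2a1.le hlij
      linarith
    obtain ⟨i1, i2, i3⟩ := hall li hli i hbi
    obtain ⟨j1, j2, j3⟩ := hall lj hlj j hbj
    have i4 := hΛA3 li hli i hbi
    have j4 := hΛA3 lj hlj j hbj
    have hslack : ‖Λ (U j) - Λ (U i)‖ ≤ 1 →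
        NRS S (1 / 2) C1 (V li) (Λ (U j)) ∧ NRS S (1 / 2) C1 (V li) (Λ (U j) + Λ (A j)) := by
      intro h
      have n1 : ‖Λ (U j)‖ ≤ ‖Λ (U i)‖ + 1 := by
        have := norm_add_le (Λ (U i)) (Λ (U j) - Λ (U i))
        rw [add_sub_cancel] at this
        linarith
      have n2 : ‖Λ (U j) + Λ (A j)‖ ≤ ‖Λ (U i)‖ + 2 := (norm_add_le _ _).trans (by linarith)
      have n3 := hV1 li hli
      refine ⟨nrs_mono (by norm_num) j1 hVij ?_, nrs_mono (by norm_num) j2 hVij ?_⟩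
      · rw [hC1d]; nlinarith
      · rw [hC1d]; nlinarith
    -- the integers
    choose b hb using fun m => sin_dist (q1 m)
    choose b' hb' using fun m => sin_dist (q2 m)
    have hcol := hCol (V li) (V lj) (Λ (P i)) (Λ (U i)) (Λ (A i)) (Λ (P j)) (Λ (U j)) (Λ (A j))
      (hV1 li hli) hVij (g3 li hli) i4 j4 i1 i2 j1 j2 hslack σ ((d i + d j) / 2) h0 h1 (fun m => b m - b' m) (by
        intro m
        have e : gm X (Λ (P j)) (Λ (U j)) (Λ (A j)) σ m - gm X (Λ (P i)) (Λ (U i)) (Λ (A i)) σ m -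
            ((b m - b' m : ℤ) : ℝ) = (x m - G i σ m - b m) - (x m - G j σ m - b' m) := by
          simp only [hG]
          push_cast
          ring
        rw [e]
        refine (abs_sub _ _).trans ?_
        linarith [hb m, hb' m])
    rw [lam_pos', lam_pos'] at hcol
    set z : E (r + 2) := pos (P j) (U j) (A j) σ - pos (P i) (U i) (A i) σ with hz
    have hΛz : ∀ m, Λ z m = Λ (pos (P j) (U j) (A j) σ) m - Λ (pos (P i) (U i) (A i) σ) m := by
      intro m; rw [hz, map_sub]; rfl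
    set Δ' : ℝ := 2 * ((d i + d j) / 2) + Cc / V li ^ 2 *
      min 1 (‖Λ (U j) - Λ (U i)‖ + ‖Λ (A i)‖ + ‖Λ (A j)‖) with hΔ'
    have hcol' : ∀ m, |Λ z m - ((b m - b' m : ℤ) : ℝ)| ≤ Δ' := by
      intro m
      rw [hΛz]
      exact hcol m
    have hns := hSep' i j ((Nat.pow_le_pow_right (by norm_num) hL1).trans hi) hij σ h0 h1
    apply hns
    intro m
    obtain ⟨e, he⟩ := near_int6 Λ hΛ0 hΛ hcol' m
    refine ⟨e, he.trans ?_⟩
    have b3 : ‖Λ (U j) - Λ (U i)‖ ≤ CL * ‖U j - U i‖ := by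
      rw [← map_sub]; exact hΛn _
    have b4 : ‖Λ (A i)‖ ≤ CL * ‖A i‖ := hΛn _
    have b5 : ‖Λ (A j)‖ ≤ CL * ‖A j‖ := hΛn _
    set y : ℝ := ‖U j - U i‖ + ‖A i‖ + ‖A j‖ with hy
    have hy0 : 0 ≤ y := by rw [hy]; positivity
    have b6 : min 1 (‖Λ (U j) - Λ (U i)‖ + ‖Λ (A i)‖ + ‖Λ (A j)‖) ≤ CL * min 1 y := by
      rcases le_total 1 y with h | h
      · rw [min_eq_left h]
        refine (min_le_left _ _).trans ?_
        linarith
      · rw [min_eq_right h]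
        refine (min_le_right _ _).trans ?_
        rw [hy]
        linarith
    have hm0 : 0 ≤ min 1 y := le_min zero_le_one hy0
    have hVe : V li ^ 2 = ((2 * a) ^ li) ^ 2 / 16 := by simp only [hV]; ring
    have hW : 0 < ((2 * a) ^ li) ^ 2 := by positivity
    have b8 : Cc / V li ^ 2 * (CL * min 1 y) = 16 * Cc * CL * (min 1 y / ((2 * a) ^ li) ^ 2) := by
      rw [hVe]
      field_simp
    have c0 : 0 ≤ Cc / V li ^ 2 := by have := hV0 li; positivity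
    have b9 : Δ' ≤ (d i + d j) + 16 * Cc * CL * (min 1 y / ((2 * a) ^ li) ^ 2) := by
      have := mul_le_mul_of_nonneg_left b6 c0
      rw [b8] at this
      rw [hΔ']
      linarith
    have c1 : 0 ≤ min 1 y / ((2 * a) ^ li) ^ 2 := by positivity
    have c2 := hd0 i
    have c3 := hd0 j
    have c4 : 0 < Cc * CL := by positivity
    show MM * Δ' ≤ B0 * (d i + d j + min 1 y / ((2 * a) ^ li) ^ 2)
    rw [hB0, mul_assoc]
    refine mul_le_mul_of_nonneg_left (b9.trans ?_) (by linarith)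
    nlinarith [mul_nonneg c4.le (add_pos c2 c3).le]
  have hbdg : ∀ (ch : ℝ → ℝ) (CC : ℝ), CC ≤ K → (∀ (g F : ℝ → Fin (r + 2) → ℝ) (d V ρ : ℝ), 0 < d → d ≤ 1 →
      1 ≤ V → 0 ≤ ρ → (∀ i, ContDiff ℝ ∞ (fun s => g s i)) → (∀ i, Cls k V (Cg * V) (deriv fun s => g s i)) →
      (∀ i, Cls k V ρ (fun s => F s i)) →
      ContDiff ℝ ∞ (Hg ch g F d) ∧ ∀ (i : ℕ), i ≤ k → ∀ q : Z (r + 2),
        ‖iteratedFDeriv ℝ i (Hg ch g F d) q‖ ≤ CC * ρ * d * (V / d) ^ k) →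
      ∀ l, l0 ≤ l → ∀ j ∈ Finset.Ico (2 ^ l) (2 ^ (l + 1)),
      ContDiff ℝ ∞ (Hg ch (G j) (Fo D (G j)) (d j)) ∧ ∀ i ≤ k, ∀ q,
        ‖iteratedFDeriv ℝ i (Hg ch (G j) (Fo D (G j)) (d j)) q‖ ≤ BB l := by
    intro ch CC hCC hh l hl j hj
    have hg := hgm l hl j hj
    have hVl := hV0 l
    have hρn : 0 ≤ Cg * (‖Λ (A j)‖ + 1 / V l ^ K') := by positivity
    obtain ⟨u1, u2⟩ := hh (G j) (Fo D (G j)) (d j) (V l) (Cg * (‖Λ (A j)‖ + 1 / V l ^ K')) (hd0 j)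
      (hdle j) (hV1 l hl) hρn (fun i => (hg i).1) (fun i => (hg i).2.1) (fun i => (hg i).2.2.1)
    refine ⟨u1, fun i hi x => (u2 i hi x).trans ?_⟩
    have hKCg : 0 ≤ K * Cg := by positivity
    have hq0l : 0 ≤ Cb * q ^ l := by positivity
    have hq0l' : 0 ≤ Cb * q' ^ l := by positivity
    by_cases hb : Bad j
    · have e : d j = ρ' ^ l := by simp only [hd, rad7, if_pos hb, log_block hj]
      have h1 := pot7_le (k := k) ha0 (by norm_num : (0 : ℝ) < 1 / 4) hρ'0 hKb (hΛA2 l j hj hb)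
        (norm_nonneg (Λ (A j)))
      rw [e]
      have h2 : 0 ≤ (‖Λ (A j)‖ + 1 / V l ^ K') * ρ' ^ l * (V l / ρ' ^ l) ^ k := by positivity
      calc CC * (Cg * (‖Λ (A j)‖ + 1 / V l ^ K')) * ρ' ^ l * (V l / ρ' ^ l) ^ k
          = CC * Cg * ((‖Λ (A j)‖ + 1 / V l ^ K') * ρ' ^ l * (V l / ρ' ^ l) ^ k) := by ring
        _ ≤ K * Cg * ((‖Λ (A j)‖ + 1 / V l ^ K') * ρ' ^ l * (V l / ρ' ^ l) ^ k) := by gcongr
        _ ≤ K * Cg * ((CL + 4 ^ K') * q' ^ l) := mul_le_mul_of_nonneg_left h1 hKCg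
        _ ≤ K * Cg * ((2 * CL + 4 ^ K') * q' ^ l) := by
          refine mul_le_mul_of_nonneg_left ?_ hKCg
          refine mul_le_mul_of_nonneg_right ?_ (by positivity)
          linarith
        _ = Cb * q' ^ l := by simp only [hCb]; ring
        _ ≤ BB l := by simp only [hBBd]; linarith
    · have e : d j = ρ ^ l := by simp only [hd, rad7, if_neg hb, log_block hj]
      have h1 := pot7_le (k := k) ha0 ha0 hρ0 hKa (hΛA1 l j hj) (norm_nonneg (Λ (A j)))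
      rw [e]
      have h2 : 0 ≤ (‖Λ (A j)‖ + 1 / V l ^ K') * ρ ^ l * (V l / ρ ^ l) ^ k := by positivity
      calc CC * (Cg * (‖Λ (A j)‖ + 1 / V l ^ K')) * ρ ^ l * (V l / ρ ^ l) ^ k
          = CC * Cg * ((‖Λ (A j)‖ + 1 / V l ^ K') * ρ ^ l * (V l / ρ ^ l) ^ k) := by ring
        _ ≤ K * Cg * ((‖Λ (A j)‖ + 1 / V l ^ K') * ρ ^ l * (V l / ρ ^ l) ^ k) := by gcongr
        _ ≤ K * Cg * ((2 * CL + 4 ^ K') * q ^ l) := mul_le_mul_of_nonneg_left h1 hKCg
        _ = Cb * q ^ l := by simp only [hCb]; ring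
        _ ≤ BB l := by simp only [hBBd]; linarith
  obtain ⟨F, f1, f2, f3, f4⟩ := engine6 (by omega : 1 ≤ k) hf hPer hSum D G d l0 BB ε hGs hglue hd0 hdisj
    (hbdg chA CA (le_max_left _ _) hBA) (hbdg chB CB (le_max_right _ _) hBB) hBB0 hBBs hl01
  have hj0 : (1 : ℝ) ≤ (2 : ℝ) ^ l0 := one_le_pow₀ (by norm_num)
  have hpos : ∀ t : ℝ, 0 ≤ t → 2 ^ l0 ≤ ⌊t + 2 ^ l0⌋₊ ∧ t + 2 ^ l0 - ⌊t + 2 ^ l0⌋₊ = Int.fract t := by
    intro t ht
    constructor
    · exact Nat.le_floor (by push_cast; linarith)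
    · have h1 : ((⌊t + 2 ^ l0⌋₊ : ℕ) : ℝ) = (⌊t + 2 ^ l0⌋ : ℤ) := by
        rw [natCast_floor_eq_intCast_floor (by positivity)]
      rw [h1]
      have h2 : t + 2 ^ l0 - (⌊t + 2 ^ l0⌋ : ℤ) = Int.fract (t + ((2 ^ l0 : ℕ) : ℝ)) := by
        push_cast
        rfl
      rw [h2, Int.fract_add_natCast]
  have hder : ∀ t : ℝ, 0 ≤ t →
      HasDerivAt (fun t => pathG G (t + 2 ^ l0)) (fun i => deriv (fun s => G ⌊t + 2 ^ l0⌋₊ s i) (Int.fract t)) t ∧
      HasDerivAt (deriv fun t => pathG G (t + 2 ^ l0))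
        (fun i => deriv (deriv fun s => G ⌊t + 2 ^ l0⌋₊ s i) (Int.fract t)) t := by
    intro t ht
    have hT : 1 ≤ t + 2 ^ l0 := by linarith
    obtain ⟨h1, h2⟩ := pathG_hasDerivAt hglue hT (hGs _ (hpos t ht).1)
    rw [(hpos t ht).2] at h1 h2
    refine ⟨h1.comp_add_const t ((2 : ℝ) ^ l0), ?_⟩
    have e : (deriv (fun t => pathG G (t + 2 ^ l0))) = fun x => deriv (pathG G) (x + 2 ^ l0) := by
      funext x
      exact deriv_comp_add_const (f := pathG G) ((2 : ℝ) ^ l0) x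
    rw [e]
    exact h2.comp_add_const t ((2 : ℝ) ^ l0)
  -- the velocity
  have hvel : ∀ t : ℝ, 0 ≤ t → V (Nat.log 2 ⌊t + 2 ^ l0⌋₊) / 2 ≤ ‖deriv (fun t => pathG G (t + 2 ^ l0)) t‖ := by
    intro t ht
    rw [(hder t ht).1.deriv]
    have hjm := (hpos t ht).1
    set j := ⌊t + 2 ^ l0⌋₊ with hj
    obtain ⟨hl, hjI⟩ := mem_block hjm
    set l := Nat.log 2 j with hld
    have hc := (hgm l hl j hjI 0).2.2.2 (Int.fract t) (Int.fract_nonneg t) (Int.fract_lt_one t).le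
    have htp : 0 ≤ tp (Int.fract t) := by
      obtain ⟨-, -, -, -, -, -, h01, -⟩ := hf
      exact (h01 _).1
    refine le_trans ?_ (norm_le_pi_norm _ 0)
    refine le_trans ?_ (le_abs_self _)
    have h1 := (abs_le.1 hc).1
    rw [hΛ0, hΛ0] at h1
    obtain ⟨⟨b1, b2⟩, b3, b4⟩ := hA l hl j hjI
    have h3 := mul_nonneg htp b1
    have h4 : Cg / V l ≤ V l / 2 := by
      have h5 := g6 l hl
      have h6 := hV1 l hl
      rw [div_le_iff₀ (hV0 l)]
      nlinarith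
    have e : (2 * a) ^ l = 4 * V l := by simp only [hV]; ring
    rw [e] at b3
    show V l / 2 ≤ deriv (fun s => G j s 0) (Int.fract t)
    linarith
  have hfast : ∀ t : ℝ, 0 ≤ t → Vmin < ‖deriv (fun t => pathG G (t + 2 ^ l0)) t‖ := by
    intro t ht
    refine lt_of_lt_of_le ?_ (hvel t ht)
    have hl := (mem_block (hpos t ht).1).1
    have h1 := g7 _ hl
    have h3 := le_abs_self Vmin
    linarith
  refine ⟨F, fun t => pathG G (t + 2 ^ l0), f1, f2, f3, ⟨(2 : ℝ) ^ (-δ) / 8, by positivity,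
    fun t ht => ?_⟩, hfast, ?_⟩
  · refine le_trans ?_ (hvel t ht)
    set j := ⌊t + 2 ^ l0⌋₊ with hj
    obtain ⟨hl, hjI⟩ := mem_block (hpos t ht).1
    rw [← hj] at hl hjI
    set l := Nat.log 2 j with hld
    have n2 : t ≤ 2 ^ (l + 1) := by
      have h1 : t + 2 ^ l0 < j + 1 := Nat.lt_floor_add_one _
      have h2 : (j : ℝ) + 1 ≤ 2 ^ (l + 1) := by
        have := (Finset.mem_Ico.1 hjI).2
        exact_mod_cast this
      linarith
    have n3 : t ^ δ ≤ (2 * a) ^ (l + 1) := by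
      calc t ^ δ ≤ ((2 : ℝ) ^ (l + 1)) ^ δ := Real.rpow_le_rpow ht n2 hδ0.le
        _ = (2 * a) ^ (l + 1) := by
          rw [h2a, ← Real.rpow_natCast, ← Real.rpow_natCast, ← Real.rpow_mul (by norm_num),
            ← Real.rpow_mul (by norm_num), mul_comm]
    have n4 : (2 : ℝ) ^ (-δ) * (2 * a) ^ (l + 1) = (2 * a) ^ l := by
      rw [pow_succ, h2a, Real.rpow_neg (by norm_num)]
      field_simp
    have n5 : (2 : ℝ) ^ (-δ) * t ^ δ ≤ (2 * a) ^ l := by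
      rw [← n4]
      exact mul_le_mul_of_nonneg_left n3 (by positivity)
    have e : (2 * a) ^ l = 4 * V l := by simp only [hV]; ring
    rw [e] at n5
    calc 2 ^ (-δ) / 8 * t ^ δ = (2 ^ (-δ) * t ^ δ) / 8 := by ring
      _ ≤ V l / 2 := by linarith
  · intro L hLag t ht
    obtain ⟨d1, d2⟩ := hder t ht.le
    have hev : ∀ᶠ s in 𝓝 t, Vmin < ‖deriv (fun t => pathG G (t + 2 ^ l0)) s‖ := by
      filter_upwards [lt_mem_nhds ht] with s hs
      exact hfast s (le_of_lt hs)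
    refine el_fast (f := fun x t => D0.val x t + F (x, t)) hLag hev d1.differentiableAt d2 ?_
    intro i
    have hp := hpos t ht.le
    have hpath : pathG G (t + 2 ^ l0) = G ⌊t + 2 ^ l0⌋₊ (Int.fract t) := by
      show G ⌊t + 2 ^ l0⌋₊ (t + 2 ^ l0 - ⌊t + 2 ^ l0⌋₊) = _
      rw [hp.2]
    simp only [hpath]
    have hjm := hp.1
    set j := ⌊t + 2 ^ l0⌋₊ with hj
    set s := Int.fract t with hs
    have g1 : HasDerivAt (fun u => D0.val (Function.update (G j s) i u) t) (D.grad (G j s) t i) (G j s i) := by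
      have e : (fun u => D0.val (Function.update (G j s) i u) t) =
          fun u => D.val (Function.update (G j s) i u) t + g t := by
        funext u; exact hval _ _
      rw [e]
      exact (val_hasDerivAt D (G j s) t i).add_const _
    have g2 : D.grad (G j s) t i = D.grad (G j s) s i := by
      have := grad_time D (G j s) s ⌊t⌋ i
      rw [← this]
      congr 1
      rw [hs]
      have := Int.floor_add_fract t
      linarith
    have g3 : HasDerivAt (fun u => F (Function.update (G j s) i u, t)) (Fo D (G j) s i) (G j s i) := by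
      have h1 : HasFDerivAt F (fderiv ℝ F (G j s, t)) (Function.update (G j s) i (G j s i), t) := by
        rw [Function.update_eq_self]
        exact (f1.differentiable (by exact_mod_cast (by omega : k ≠ 0)) _).hasFDerivAt
      have h2 := h1.comp_hasDerivAt (G j s i) (hasDerivAt_upd (G j s) i t (G j s i))
      rw [f4 j hjm t i] at h2
      exact h2
    refine (g1.add g3).congr_deriv ?_
    rw [g2]
    simp only [Fo]
    ring

end Pool.Agent.J6H35.TL
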