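import Pool.Agent.J6H35.TL.Stm6
import Pool.Agent.J6H59.AD.M5b
import Pool.Agent.N980.TL.FN

/-!
# The sequences of positions and velocities, and the parameters
-/

set_option autoImplicit false

open Set Filter Topology MeasureTheory
open scoped ContDiff

noncomputable section

namespace Pool.Agent.J6H35.TL

open Pool.Agent.N980.TL Pool.Agent.J6H70.AD Pool.Agent.J6H59.AD

theorem params6 {k r : ℕ} (hk : 2 ≤ k) (hr : k ≤ r + 1) {δ : ℝ} (hδ0 : 0 < δ)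
    (hδ : δ < (r + 2 - k) / ((r + 1) * (k + 1))) :
    ∃ tau tau' : ℝ, 0 < tau ∧ tau < 1 ∧ 0 < tau' ∧ 1 < r * tau' ∧ tau' * (1 - tau) < tau ∧
      (k + 1) * δ - 1 + (k - 1) * tau < 0 := by
  have hk' : (2 : ℝ) ≤ k := by exact_mod_cast hk
  have hr' : (k : ℝ) ≤ r + 1 := by exact_mod_cast hr
  have hr0 : (0 : ℝ) < r := by linarith
  have hk1 : (0 : ℝ) < k - 1 := by linarith
  have h1 : (1 : ℝ) / (r + 1) < (1 - (k + 1) * δ) / (k - 1) := by
    rw [div_lt_div_iff₀ (by linarith) hk1]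
    rw [lt_div_iff₀ (by positivity)] at hδ
    nlinarith
  obtain ⟨tau, h2, h3⟩ := exists_between h1
  have h0 : 0 < tau := lt_trans (by positivity) h2
  rw [lt_div_iff₀ hk1] at h3
  rw [div_lt_iff₀ (by linarith)] at h2
  have ht1 : tau < 1 := by nlinarith
  have h4 : (1 : ℝ) / r < tau / (1 - tau) := by
    rw [div_lt_div_iff₀ hr0 (by linarith)]
    nlinarith
  obtain ⟨tau', h5, h6⟩ := exists_between h4
  have h7 : 0 < tau' := lt_trans (by positivity) h5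
  rw [div_lt_iff₀ hr0] at h5
  rw [lt_div_iff₀ (by linarith)] at h6
  exact ⟨tau, tau', h0, ht1, h7, by linarith, h6, by linarith⟩

theorem seq6 (hSeq : S_SEQ) (hUU : S_UU) (r : ℕ) (w : Fin r → ℝ) {a : ℝ} (ha : 1 / 2 < a) (ha1 : a < 1) :
    ∃ (P U A : ℕ → E (r + 2)) (C : ℝ), 1 ≤ C ∧ (∀ j, U (j + 1) = U j + A j) ∧
      (∀ j, P (j + 1) = P j + U j + kap • A j) ∧
      (∀ j, U j 1 = uu (1 / 32) j) ∧ P 0 1 = 0 ∧ (∀ (i : Fin r) (j : ℕ), U j i.succ.succ = w i) ∧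
      (∀ l, ∀ j ∈ Finset.Ico (2 ^ l) (2 ^ (l + 1)), ‖A j‖ ≤ a ^ l ∧ (0 ≤ A j 0 ∧ A j 0 ≤ a ^ l) ∧
        (2 * a) ^ l ≤ 4 * U j 0 ∧ U j 0 ≤ C * (2 * a) ^ l) ∧
      (∀ j, ∀ i, i ≠ 0 → |U j i| ≤ 2 + ‖w‖) := by
  obtain ⟨u1, u2, u3, u4, -, -⟩ := hUU (1 / 32) (by norm_num) (by norm_num)
  obtain ⟨P', U', A', C, hC, hU', hP', -, hb, -⟩ := hSeq 0 Fin.elim0 a (1 / 2) 1 0 0 ha ha1 (by norm_num)
    (by norm_num) one_pos le_rfl le_rfl zero_le_one
  set U : ℕ → E (r + 2) := fun j => Fin.cases (U' j 0) (Fin.cases (uu (1 / 32) j) (fun i => w i)) with hU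
  set A : ℕ → E (r + 2) := fun j => U (j + 1) - U j with hA
  have hU0 : ∀ j, U j 0 = U' j 0 := fun j => rfl
  have hU1 : ∀ j, U j 1 = uu (1 / 32) j := fun j => rfl
  have hU2 : ∀ (i : Fin r) (j : ℕ), U j i.succ.succ = w i := fun i j => rfl
  have hA0 : ∀ j, A j 0 = A' j 0 := fun j => by
    show U' (j + 1) 0 - U' j 0 = A' j 0
    rw [hU']
    show U' j 0 + A' j 0 - U' j 0 = A' j 0
    ring
  have hA1 : ∀ j, A j 1 = uu (1 / 32) (j + 1) - uu (1 / 32) j := fun j => rfl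
  have hA2 : ∀ (i : Fin r) (j : ℕ), A j i.succ.succ = 0 := fun i j => sub_self _
  have ha0 : 0 < a := by linarith
  refine ⟨fun j => ∑ i ∈ Finset.range j, (U i + kap • A i), U, A, max C 1, le_max_right _ _, fun j => ?_,
    fun j => ?_, hU1, ?_, hU2, fun l j hj => ?_, fun j i hi => ?_⟩
  · simp only [hA]; abel
  · simp only [Finset.sum_range_succ]; abel
  · simp
  · obtain ⟨b1, b2, b3, b4⟩ := hb l j hj
    have c1 : A' j 0 ≤ a ^ l := by
      have := (norm_le_pi_norm (A' j) 0).trans b1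
      rw [Real.norm_eq_abs] at this
      exact (le_abs_self _).trans this
    have c2 : U' j 0 ≤ C * (2 * a) ^ l := by
      have h1 := norm_le_pi_norm (U' j) 0
      rw [Real.norm_eq_abs] at h1
      have h2 := le_abs_self (U' j 0)
      have h3 := norm_nonneg (A' j)
      linarith
    have hj1 : 1 ≤ j := by
      rw [Finset.mem_Ico] at hj
      exact Nat.one_le_two_pow.trans hj.1
    have c3 : |A j 1| ≤ a ^ l := by
      rw [hA1, abs_sub_comm, abs_of_nonneg (by linarith [u1 j])]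
      have h1 := u4 j hj1
      rw [log_block hj] at h1
      refine h1.trans ?_
      have h4 : ww (1 / 32) l ≤ 1 := by
        unfold ww
        rw [div_le_one (by positivity)]
        have h5 : (1 : ℝ) ≤ 2 ^ l := one_le_pow₀ (by norm_num)
        have h6 : (1 : ℝ) ≤ ((l : ℝ) + 1) ^ 2 := by
          apply one_le_pow₀
          have : (0 : ℝ) ≤ (l : ℝ) := by positivity
          linarith
        nlinarith
      calc ww (1 / 32) l / 2 ^ l ≤ 1 / 2 ^ l := by gcongr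
        _ = (1 / 2) ^ l := by rw [one_div_pow]
        _ ≤ a ^ l := pow_le_pow_left₀ (by norm_num) ha.le _
    have hal : 0 < a ^ l := by positivity
    refine ⟨?_, ⟨by rw [hA0]; exact b4, by rw [hA0]; exact c1⟩, b3, ?_⟩
    · rw [pi_norm_le_iff_of_nonneg hal.le]
      intro i
      rw [Real.norm_eq_abs]
      refine Fin.cases ?_ (fun i => Fin.cases c3 (fun i => ?_) i) i
      · rw [hA0, abs_of_nonneg b4]
        exact c1
      · rw [hA2, abs_zero]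
        exact hal.le
    · show U' j 0 ≤ _
      refine c2.trans ?_
      gcongr
      exact le_max_left _ _
  · refine Fin.cases (fun h => absurd rfl h) (fun i => Fin.cases (fun _ => ?_) (fun i _ => ?_) i) i hi
    · show |U j 1| ≤ _
      rw [hU1, abs_of_pos (u2 j).1]
      linarith [(u2 j).2, norm_nonneg w]
    · rw [hU2]
      have := norm_le_pi_norm w i
      rw [Real.norm_eq_abs] at this
      linarith

theorem near_int6 {r M : ℕ} (Λ : (Fin (r + 2) → ℝ) →ₗ[ℝ] (Fin (r + 2) → ℝ))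
    (hΛ0 : ∀ z, Λ z 0 = z 0)
    (hΛ : ∀ z (i : Fin (r + 1)), (M : ℝ) * Λ z i.castSucc - Λ z i.succ = z i.succ)
    {z : E (r + 2)} {a : Fin (r + 2) → ℤ} {Δ : ℝ} (h : ∀ m, |Λ z m - a m| ≤ Δ) :
    ∀ m, ∃ b : ℤ, |z m - b| ≤ (M + 1) * Δ := by
  have hΔ0 : 0 ≤ Δ := (abs_nonneg _).trans (h 0)
  have hM : (0 : ℝ) ≤ M := by positivity
  intro m
  refine Fin.cases ?_ (fun m => ?_) m
  · refine ⟨a 0, ?_⟩
    have h0 := h 0
    rw [hΛ0] at h0
    nlinarith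
  · refine ⟨M * a m.castSucc - a m.succ, ?_⟩
    have e4 : z m.succ - ((M * a m.castSucc - a m.succ : ℤ) : ℝ) =
        M * (Λ z m.castSucc - a m.castSucc) - (Λ z m.succ - a m.succ) := by
      push_cast
      rw [← hΛ z m]; ring
    rw [e4]
    refine (abs_sub _ _).trans ?_
    rw [abs_mul, abs_of_nonneg hM]
    have h1 := h m.castSucc
    have h2 := h m.succ
    nlinarith

/-- the bound of the potentials -/
theorem pot6_le {a ρ CL x : ℝ} {k K l : ℕ} (ha0 : 0 < a) (hρ0 : 0 < ρ)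
    (hK : (1 / (2 * a)) ^ K ≤ a) (hx : x ≤ CL * a ^ l) (hx0 : 0 ≤ x) :
    (x + 1 / ((2 * a) ^ l / 4) ^ K) * ρ ^ l * ((2 * a) ^ l / 4 / ρ ^ l) ^ k ≤
      (CL + 4 ^ K) * (a * ρ * ((2 * a) ^ k / ρ ^ k)) ^ l := by
  have e1 : 1 / ((2 * a) ^ l / 4) ^ K = 4 ^ K * ((1 / (2 * a)) ^ K) ^ l := by
    rw [div_pow, one_div_div, ← pow_mul, ← pow_mul, mul_comm K l, one_div_pow, mul_one_div]
  have h1 : 1 / ((2 * a) ^ l / 4) ^ K ≤ 4 ^ K * a ^ l := by
    rw [e1]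
    gcongr
  have h2 : ((2 * a) ^ l / 4 / ρ ^ l) ^ k ≤ ((2 * a) ^ l / ρ ^ l) ^ k := by
    have : (2 * a) ^ l / 4 ≤ (2 * a) ^ l := by
      have : 0 < (2 * a) ^ l := by positivity
      linarith
    gcongr
  have e2 : ((2 * a) ^ l / ρ ^ l) ^ k = ((2 * a) ^ k / ρ ^ k) ^ l := by
    rw [div_pow, div_pow, ← pow_mul, ← pow_mul, ← pow_mul, ← pow_mul, mul_comm k l]
  have h3 : 0 ≤ (CL * a ^ l + 4 ^ K * a ^ l) * ρ ^ l := by
    have : 0 ≤ CL * a ^ l := hx0.trans hx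
    positivity
  calc (x + 1 / ((2 * a) ^ l / 4) ^ K) * ρ ^ l * ((2 * a) ^ l / 4 / ρ ^ l) ^ k
      ≤ (CL * a ^ l + 4 ^ K * a ^ l) * ρ ^ l * ((2 * a) ^ l / ρ ^ l) ^ k := by gcongr
    _ = (CL + 4 ^ K) * (a * ρ * ((2 * a) ^ k / ρ ^ k)) ^ l := by
        rw [e2, mul_pow, mul_pow]; ring

end Pool.Agent.J6H35.TL
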