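import Pool.Agent.J6H70.AD.AvgDef
import Pool.Agent.J6H75.AD.Col5

/-!
# Escaping orbits for `C^k`-dense sets of potentials: definitions and statements of the leaves
-/

set_option autoImplicit false

open Set Filter Topology MeasureTheory
open scoped ContDiff

noncomputable section

namespace Pool.Agent.J6H35.TL

open Pool.Agent.N980.TL Pool.Agent.J6H70.AD

/-- `X` is a correction of the lines `P + s v` in the potential `D` up to order `V^(-K)`, with bounds of all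
derivatives -/
structure CorrA {n N : ℕ} (D : Trig n N) (K S : ℕ)
    (X : (Fin n → ℝ) → (Fin n → ℝ) → ℝ → Fin n → ℝ) : Prop where
  per : ∀ v θ τ (a : Fin n → ℤ) (b : ℤ), X v (fun i => θ i + a i) (τ + b) = X v θ τ
  xi : ∀ (k : ℕ) (c1 C1 : ℝ), 0 < c1 → ∃ C : ℝ, 1 ≤ C ∧ ∀ (V : ℝ) (P v : Fin n → ℝ), 1 ≤ V →
    NRS S c1 C1 V v → ∀ i,
      Cls (k + 2) V (C / V ^ 2) (fun s => X v (P + s • v) s i) ∧
      Cls k V (C / V ^ K) (fun s => deriv (deriv fun s => X v (P + s • v) s i) s -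
        D.grad (fun j => P j + s * v j + X v (P + s • v) s j) s i)
  lip : ∀ (k : ℕ) (c1 C1 : ℝ), 0 < c1 → ∃ C : ℝ, 1 ≤ C ∧ ∀ (V kp : ℝ) (P v A : Fin n → ℝ), 1 ≤ V →
    0 ≤ kp → kp ≤ 1 → ‖A‖ ≤ 1 → NRS S c1 C1 V v → NRS S c1 C1 V (v + A) → ∀ i,
      Cls (k + 2) V (C * ‖A‖ / V ^ 2) (fun s =>
        X (v + A) (P + v + kp • A + (s - 1) • (v + A)) (s - 1) i - X v (P + s • v) s i)
  cont : ∀ c1 C1 : ℝ, 0 < c1 → ∃ C : ℝ, 1 ≤ C ∧ ∀ (V : ℝ) (v v' θ θ' : Fin n → ℝ) (τ : ℝ), 1 ≤ V →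
    NRS S c1 C1 V v → NRS S c1 C1 V v' → ∀ i,
      |X v θ τ i| ≤ C / V ^ 2 ∧ |X v θ τ i - X v' θ' τ i| ≤ C / V ^ 2 * (‖θ - θ'‖ + ‖v - v'‖)

theorem CorrA.toCorr {n N : ℕ} {D : Trig n N} {K S : ℕ} {X : (Fin n → ℝ) → (Fin n → ℝ) → ℝ → Fin n → ℝ}
    (h : CorrA D K S X) : Corr D K S X :=
  ⟨h.per, h.xi 2, h.lip 2, h.cont⟩

/-- averaging to arbitrary order, with bounds of all derivatives -/
def S_AVG6 : Prop :=
  ∀ (n N : ℕ) (D : Trig n N), (∀ μ, D.k μ ≠ 0) → ∀ K : ℕ,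
    ∃ (S : ℕ) (X : (Fin n → ℝ) → (Fin n → ℝ) → ℝ → Fin n → ℝ), CorrA D K S X

/-- the analytic part, with bounds of all derivatives -/
def S_ANA6 : Prop :=
  ∀ (n N : ℕ) (D : Trig n N) (K : ℕ) (X : Fin n → RR n), (∀ i, Ord 2 (X i)) → (∀ i, Herm (X i)) →
    (∀ i, Ord K (LL (X i) - GG D K X i)) → ∃ S : ℕ, CorrA D K S (fun v θ τ i => (ev v θ τ (X i)).re)

theorem avg6_of (h1 : S_ALG) (h2 : S_ANA6) : S_AVG6 := by
  intro n N D hD K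
  obtain ⟨X, a, b, c⟩ := h1 n N D hD K
  obtain ⟨S, h⟩ := h2 n N D K X a b c
  exact ⟨S, _, h⟩

/-- the path of one step -/
def S_GAM6 : Prop :=
  ∀ (k n N : ℕ) (D : Trig n N) (K S : ℕ) (X : (Fin n → ℝ) → (Fin n → ℝ) → ℝ → Fin n → ℝ), CorrA D K S X →
    ∀ c1 C1 : ℝ, 0 < c1 → ∃ C : ℝ, 1 ≤ C ∧ ∀ (V : ℝ) (P v A : Fin n → ℝ), 1 ≤ V →
      ‖A‖ ≤ 1 → NRS S c1 C1 V v → NRS S c1 C1 V (v + A) → ∀ i,
        ContDiff ℝ ∞ (fun s => gm X P v A s i) ∧ Cls k V (C * V) (deriv fun s => gm X P v A s i) ∧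
        (∀ s ∈ Icc (-1 : ℝ) 2, |gm X P v A s i - (P i + s * v i + th s * A i)| ≤ C / V ^ 2) ∧
        Cls k V (C * (‖A‖ + 1 / V ^ K)) (fun s => deriv (deriv fun s => gm X P v A s i) s -
          D.grad (fun j => gm X P v A s j) s i) ∧
        ∀ s, 0 ≤ s → s ≤ 1 → |deriv (fun s => gm X P v A s i) s - (v i + tp s * A i)| ≤ C / V

/-- the `C^k` bound of the potential of one step -/
def S_BND6 : Prop :=
  ∀ (k n : ℕ) (ch : ℝ → ℝ) (K : ℝ), ContDiff ℝ ∞ ch → (∀ s, s ∉ Icc (-1 : ℝ) 2 → ∀ᶠ s' in 𝓝 s, ch s' = 0) →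
    ∃ C : ℝ, 1 ≤ C ∧ ∀ (g F : ℝ → Fin n → ℝ) (d V ρ : ℝ), 0 < d → d ≤ 1 → 1 ≤ V → 0 ≤ ρ →
      (∀ i, ContDiff ℝ ∞ (fun s => g s i)) → (∀ i, Cls k V (K * V) (deriv fun s => g s i)) →
      (∀ i, Cls k V ρ (fun s => F s i)) →
      ContDiff ℝ ∞ (Hg ch g F d) ∧ ∀ (i : ℕ), i ≤ k → ∀ q : Z n,
        ‖iteratedFDeriv ℝ i (Hg ch g F d) q‖ ≤ C * ρ * d * (V / d) ^ k

/-- trigonometric polynomials are dense in `C^k` -/
def S_DENS6 : Prop :=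
  ∀ (k n : ℕ) (f : Z n → ℝ), ContDiff ℝ k f →
    (∀ (x : Fin n → ℝ) (t : ℝ) (k : Fin n → ℤ) (l : ℤ), f (fun i => x i + k i, t + l) = f (x, t)) →
    ∀ ε > 0, ∃ (N : ℕ) (D : Trig n N), ∀ i ≤ k, ∀ q : Z n,
      ‖iteratedFDeriv ℝ i (fun q : Z n => f q - D.val q.1 q.2) q‖ ≤ ε

end Pool.Agent.J6H35.TL
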